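import Pool.Agent.H46.RF.CellW

/-!
S05864 [H46 RF CELLS]: the sums of the total pairings and of the masses of the cells `mkc`.
-/

set_option autoImplicit false

namespace H46RF

open H50RC H50LP

variable {N K m : ℕ}

theorem sum_blocks {E : Type} [AddCommMonoid E] (A D : ℕ) (F : ℕ → E) :
    ∑ X ∈ Finset.range A, ∑ x ∈ Finset.range D, F (D * X + x) = ∑ Z ∈ Finset.range (A * D), F Z := by
  induction A with
  | zero => simp
  | succ A ih =>
    rw [Finset.sum_range_succ, ih, Nat.succ_mul, Finset.sum_range_add]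
    congr 1
    refine Finset.sum_congr rfl fun x _ => ?_
    rw [mul_comm D A]

theorem sum_pow_succ {E : Type} [AddCommMonoid E] (i : ℕ) (B : Finset ℕ → E) :
    ∑ T ∈ (Finset.range (i + 1)).powerset, B T =
      ∑ T ∈ (Finset.range i).powerset, (B T + B (insert i T)) := by
  rw [Finset.range_add_one, Finset.sum_powerset_insert Finset.notMem_range_self, Finset.sum_add_distrib]

theorem sum_cells (A D i : ℕ) (B V : ℕ → Finset ℕ → ℝ) :
    ∑ X ∈ Finset.range A, ∑ T ∈ (Finset.range i).powerset,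
      (∑ x ∈ Finset.range D, (B (D * X + x) T + B (D * X + x) (insert i T)) +
        ∑ x ∈ Finset.Ico 1 D, V (D * X + x) T) =
    ∑ Z ∈ Finset.range (A * D), ∑ T ∈ (Finset.range (i + 1)).powerset, B Z T +
      ∑ X ∈ Finset.range A, ∑ T ∈ (Finset.range i).powerset, ∑ x ∈ Finset.Ico 1 D, V (D * X + x) T := by
  simp only [Finset.sum_add_distrib (s := (Finset.range i).powerset)]
  rw [Finset.sum_add_distrib]
  congr 1
  rw [← sum_blocks]
  refine Finset.sum_congr rfl fun X _ => ?_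
  rw [Finset.sum_comm]
  refine Finset.sum_congr rfl fun x _ => ?_
  rw [sum_pow_succ]

/-- the sum over `Ico 1 D` and over `range D` -/
theorem sum_range_Ico {D : ℕ} (hD : 0 < D) (F : ℕ → ℝ) :
    ∑ x ∈ Finset.range D, F x = F 0 + ∑ x ∈ Finset.Ico 1 D, F x := by
  obtain ⟨D', rfl⟩ : ∃ D', D = D' + 1 := ⟨D - 1, by omega⟩
  rw [Finset.sum_range_succ', Finset.sum_Ico_eq_sum_range, Nat.add_sub_cancel, add_comm]
  congr 1
  refine Finset.sum_congr rfl fun x _ => ?_
  rw [add_comm]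

theorem sum_vert_eq (A D i : ℕ) (hD : 0 < D) (V : ℕ → Finset ℕ → ℝ)
    (h0 : ∀ X ≤ A, ∀ T ∈ (Finset.range i).powerset, V (D * X) T = 0) :
    ∑ X ∈ Finset.range A, ∑ T ∈ (Finset.range i).powerset, ∑ x ∈ Finset.Ico 1 D, V (D * X + x) T =
    ∑ Z ∈ Finset.range (A * D + 1), ∑ T ∈ (Finset.range i).powerset, V Z T := by
  rw [Finset.sum_range_succ]
  have h1 : ∑ T ∈ (Finset.range i).powerset, V (A * D) T = 0 := by
    refine Finset.sum_eq_zero fun T hT => ?_
    rw [mul_comm]
    exact h0 A le_rfl T hT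
  rw [h1, add_zero, ← sum_blocks A D (fun Z => ∑ T ∈ (Finset.range i).powerset, V Z T)]
  refine Finset.sum_congr rfl fun X hX => ?_
  have hX' := (Finset.mem_range.1 hX).le
  rw [Finset.sum_comm, sum_range_Ico hD (fun x => ∑ T ∈ (Finset.range i).powerset, V (D * X + x) T)]
  have h2 : ∑ T ∈ (Finset.range i).powerset, V (D * X + 0) T = 0 := by
    refine Finset.sum_eq_zero fun T hT => ?_
    rw [add_zero]
    exact h0 X hX' T hT
  rw [h2, zero_add]

theorem sum_vert_le (A D i : ℕ) (hD : 0 < D) (V : ℕ → Finset ℕ → ℝ) (h0 : ∀ Z T, 0 ≤ V Z T) :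
    ∑ X ∈ Finset.range A, ∑ T ∈ (Finset.range i).powerset, ∑ x ∈ Finset.Ico 1 D, V (D * X + x) T ≤
    ∑ Z ∈ Finset.range (A * D + 1), ∑ T ∈ (Finset.range i).powerset, V Z T := by
  rw [Finset.sum_range_succ]
  have h1 : 0 ≤ ∑ T ∈ (Finset.range i).powerset, V (A * D) T := Finset.sum_nonneg fun T _ => h0 _ _
  refine le_trans ?_ (le_add_of_nonneg_right h1)
  rw [← sum_blocks A D (fun Z => ∑ T ∈ (Finset.range i).powerset, V Z T)]
  refine Finset.sum_le_sum fun X _ => ?_
  rw [Finset.sum_comm, sum_range_Ico hD (fun x => ∑ T ∈ (Finset.range i).powerset, V (D * X + x) T)]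
  exact le_add_of_nonneg_left (Finset.sum_nonneg fun T _ => h0 _ _)

theorem crs_dv {P i X : ℕ} {T : Finset ℕ} {g : ℝ → Finset ℕ → Om N} (hg : Crs P g) (hT : T ⊆ Finset.range i)
    (hX : X ≤ P * qq i) : Dv i g (2 ^ (i + 1) * X) T = 0 := by
  unfold Dv
  have e : (((2 ^ (i + 1) * X : ℕ) : ℝ)) / (qq (i + 1) : ℝ) = (X : ℝ) / qq i := by
    rw [qq_succ]
    push_cast
    have h1 := (qq_posR i).ne'
    field_simp
  rw [e, hg i T hT X hX, sub_self, smul_zero]

/-- one level of `mkc_Tot_sum` -/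
theorem Tot_step {P n i k : ℕ} (hk : i + (k + 1) = n) (Φ : ℕ → ℕ → Finset ℕ → Y N) {g : ℝ → Finset ℕ → Om N} (hg : Crs P g) :
    ∑ X ∈ Finset.range (P * qq i), ∑ T ∈ (Finset.range i).powerset,
      (mkc Φ g (k + 1) i X T).Tot K m (Dh i g X T) =
    ∑ X ∈ Finset.range (P * qq (i + 1)), ∑ T ∈ (Finset.range (i + 1)).powerset,
      (mkc Φ g k (i + 1) X T).Tot K m (Dh (i + 1) g X T) +
    ∑ X ∈ Finset.range (npos P n i), ∑ T ∈ (Finset.range i).powerset, pr K m (DD n g i X T) (Φ i X T) := by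
  have hin : i < n := by omega
  have e1 : npos P n i = P * qq i * 2 ^ (i + 1) + 1 := by
    unfold npos
    rw [if_pos hin, qq_succ, mul_assoc]
  have e2 : P * qq (i + 1) = P * qq i * 2 ^ (i + 1) := by rw [qq_succ, mul_assoc]
  rw [e1, e2]
  have e3 : ∀ X T, DD n g i X T = Dv i g X T := fun X T => if_pos hin
  simp only [e3]
  have h1 := sum_cells (P * qq i) (2 ^ (i + 1)) i
    (fun Z T => (mkc Φ g k (i + 1) Z T).Tot K m (Dh (i + 1) g Z T)) (fun Z T => pr K m (Dv i g Z T) (Φ i Z T))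
  rw [sum_vert_eq (P * qq i) (2 ^ (i + 1)) i (by positivity) (fun Z T => pr K m (Dv i g Z T) (Φ i Z T)) (by
    intro X hX T hT
    rw [crs_dv hg (Finset.mem_powerset.1 hT) hX, pr_zero_left])] at h1
  rw [← h1]
  refine Finset.sum_congr rfl fun X _ => Finset.sum_congr rfl fun T _ => ?_
  rw [mkc, Cell.Tot]
  simp only [nu1_eq, Bool.false_eq_true, if_false, if_true]

theorem mkc_Tot_aux {P n : ℕ} (Φ : ℕ → ℕ → Finset ℕ → Y N) {g : ℝ → Finset ℕ → Om N} (hg : Crs P g) :
    ∀ i k, i + k = n → ∑ X ∈ Finset.range (P * qq 0), ∑ T ∈ (Finset.range 0).powerset,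
        (mkc Φ g n 0 X T).Tot K m (Dh 0 g X T) =
      ∑ X ∈ Finset.range (P * qq i), ∑ T ∈ (Finset.range i).powerset,
        (mkc Φ g k i X T).Tot K m (Dh i g X T) +
      ∑ j ∈ Finset.range i, ∑ X ∈ Finset.range (npos P n j), ∑ T ∈ (Finset.range j).powerset,
        pr K m (DD n g j X T) (Φ j X T) := by
  intro i
  induction i with
  | zero =>
    intro k hk
    have : k = n := by omega
    subst this
    simp
  | succ i ih =>
    intro k hk
    rw [ih (k + 1) (by omega), Tot_step (by omega : i + (k + 1) = n) Φ hg, Finset.sum_range_succ, add_assoc,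
      add_comm (∑ X ∈ Finset.range (npos P n i), _)]

theorem cs_range {E : Type} [AddCommMonoid E] (F : ℕ → E) (A D : ℕ) :
    ∑ X ∈ Finset.range A, ∑ x ∈ Finset.range D, F (D * X + x) = ∑ Z ∈ Finset.range (A * D), F Z := by
  induction A with
  | zero => simp
  | succ A ih =>
    rw [Finset.sum_range_succ, ih, Nat.succ_mul, Finset.sum_range_add, mul_comm A D]

theorem cs_step {E : Type} [AddCommMonoid E] (P i : ℕ) (F : ℕ → Finset ℕ → E) :
    ∑ X ∈ Finset.range (P * qq i), ∑ T ∈ (Finset.range i).powerset, ∑ x ∈ Finset.range (2 ^ (i + 1)),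
      (F (2 ^ (i + 1) * X + x) T + F (2 ^ (i + 1) * X + x) (insert i T)) =
      ∑ Z ∈ Finset.range (P * qq (i + 1)), ∑ T ∈ (Finset.range (i + 1)).powerset, F Z T := by
  have h1 : ∀ Z, ∑ T ∈ (Finset.range (i + 1)).powerset, F Z T =
      ∑ T ∈ (Finset.range i).powerset, (F Z T + F Z (insert i T)) := by
    intro Z
    rw [Finset.range_add_one, Finset.sum_powerset_insert Finset.notMem_range_self,
      Finset.sum_add_distrib]
  simp only [h1]
  rw [qq_succ, ← mul_assoc, ← cs_range (fun Z => ∑ T ∈ (Finset.range i).powerset,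
    (F Z T + F Z (insert i T)))]
  refine Finset.sum_congr rfl fun X _ => ?_
  rw [Finset.sum_comm]

theorem cs_coarse {P i : ℕ} {g : ℝ → Finset ℕ → Om N} (hg : Crs P g) {T : Finset ℕ}
    (hT : T ⊆ Finset.range i) {Z : ℕ} (hZ : Z ≤ P * qq i) : Dv i g (2 ^ (i + 1) * Z) T = 0 := by
  unfold Dv
  have e1 : (((2 ^ (i + 1) * Z : ℕ)) : ℝ) / (qq (i + 1) : ℝ) = (Z : ℝ) / (qq i : ℝ) := by
    rw [qq_succ]
    push_cast
    rw [mul_comm (qq i : ℝ), mul_div_mul_left _ _ (by positivity)]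
  rw [e1, hg i T hT Z hZ, sub_self, smul_zero]

theorem cs_pr0 (y : Y N) : pr K m (0 : Om N) y = 0 := by
  unfold pr
  simp

theorem cs_main {P n : ℕ} (Φ : ℕ → ℕ → Finset ℕ → Y N) {g : ℝ → Finset ℕ → Om N} (hg : Crs P g) :
    ∀ k i, i + k = n →
      ∑ X ∈ Finset.range (P * qq i), ∑ T ∈ (Finset.range i).powerset,
        (mkc Φ g k i X T).Tot K m (Dh i g X T) =
      ∑ j ∈ Finset.Ico i n, ∑ Z ∈ Finset.range (P * qq (j + 1) + 1), ∑ T ∈ (Finset.range j).powerset,
        pr K m (Dv j g Z T) (Φ j Z T) +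
      ∑ X ∈ Finset.range (P * qq n), ∑ T ∈ (Finset.range n).powerset, pr K m (Dh n g X T) (Φ n X T) := by
  intro k
  induction k with
  | zero =>
    intro i hi
    have hi' : i = n := by omega
    subst hi'
    rw [Finset.Ico_self, Finset.sum_empty, zero_add]
    rfl
  | succ k ih =>
    intro i hi
    have hin : i < n := by omega
    have e1 : ∀ X T, (mkc Φ g (k + 1) i X T).Tot K m (Dh i g X T) =
        ∑ x ∈ Finset.range (2 ^ (i + 1)),
          ((mkc Φ g k (i + 1) (2 ^ (i + 1) * X + x) T).Tot K m (Dh (i + 1) g (2 ^ (i + 1) * X + x) T) +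
            (mkc Φ g k (i + 1) (2 ^ (i + 1) * X + x) (insert i T)).Tot K m
              (Dh (i + 1) g (2 ^ (i + 1) * X + x) (insert i T))) +
        ∑ x ∈ Finset.Ico 1 (2 ^ (i + 1)), pr K m (Dv i g (2 ^ (i + 1) * X + x) T)
          (Φ i (2 ^ (i + 1) * X + x) T) := by
      intro X T
      show ∑ x ∈ Finset.range (2 ^ (i + 1)),
          ((mkc Φ g k (i + 1) (2 ^ (i + 1) * X + x) (if false = true then insert i T else T)).Tot K m
              (Dh (i + 1) g (2 ^ (i + 1) * X + x) T) +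
            (mkc Φ g k (i + 1) (2 ^ (i + 1) * X + x) (if true = true then insert i T else T)).Tot K m
              (nu1 (fun x => Dh (i + 1) g (2 ^ (i + 1) * X + x) T)
                (fun x => Dv i g (2 ^ (i + 1) * X + x) T) x)) +
        ∑ x ∈ Finset.Ico 1 (2 ^ (i + 1)), pr K m (Dv i g (2 ^ (i + 1) * X + x) T)
          (Φ i (2 ^ (i + 1) * X + x) T) = _
      congr 1
      refine Finset.sum_congr rfl fun x _ => ?_
      rw [nu1_eq, if_neg (by simp), if_pos rfl]
    have e2 : ∀ X ∈ Finset.range (P * qq i), ∀ T ∈ (Finset.range i).powerset,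
        ∑ x ∈ Finset.Ico 1 (2 ^ (i + 1)), pr K m (Dv i g (2 ^ (i + 1) * X + x) T)
          (Φ i (2 ^ (i + 1) * X + x) T) =
        ∑ x ∈ Finset.range (2 ^ (i + 1)), pr K m (Dv i g (2 ^ (i + 1) * X + x) T)
          (Φ i (2 ^ (i + 1) * X + x) T) := by
      intro X hX T hT
      rw [Finset.range_eq_Ico, Finset.sum_eq_sum_Ico_succ_bot (a := 0) (by positivity), add_zero,
        cs_coarse hg (Finset.mem_powerset.1 hT) (Finset.mem_range.1 hX).le, cs_pr0, zero_add]
    have e3 : ∑ Z ∈ Finset.range (P * qq (i + 1) + 1), ∑ T ∈ (Finset.range i).powerset,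
        pr K m (Dv i g Z T) (Φ i Z T) =
        ∑ X ∈ Finset.range (P * qq i), ∑ T ∈ (Finset.range i).powerset,
          ∑ x ∈ Finset.range (2 ^ (i + 1)), pr K m (Dv i g (2 ^ (i + 1) * X + x) T)
          (Φ i (2 ^ (i + 1) * X + x) T) := by
      have h1 : ∑ T ∈ (Finset.range i).powerset, pr K m (Dv i g (P * qq (i + 1)) T)
          (Φ i (P * qq (i + 1)) T) = 0 := by
        refine Finset.sum_eq_zero fun T hT => ?_
        have h2 : P * qq (i + 1) = 2 ^ (i + 1) * (P * qq i) := by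
          rw [qq_succ]
          ring
        rw [h2, cs_coarse hg (Finset.mem_powerset.1 hT) le_rfl, cs_pr0]
      rw [Finset.sum_range_succ, h1, add_zero, qq_succ, ← mul_assoc,
        ← cs_range (fun Z => ∑ T ∈ (Finset.range i).powerset, pr K m (Dv i g Z T) (Φ i Z T))]
      refine Finset.sum_congr rfl fun X _ => ?_
      rw [Finset.sum_comm]
    have e4 := cs_step P i fun Z T => (mkc Φ g k (i + 1) Z T).Tot K m (Dh (i + 1) g Z T)
    beta_reduce at e4
    rw [Finset.sum_eq_sum_Ico_succ_bot hin, e3, add_assoc, ← ih (i + 1) (by omega), ← e4,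
      ← Finset.sum_add_distrib]
    refine Finset.sum_congr rfl fun X hX => ?_
    rw [← Finset.sum_add_distrib]
    refine Finset.sum_congr rfl fun T hT => ?_
    rw [e1, e2 X hX T hT, add_comm]

theorem mkc_Tot_sum {P n : ℕ} (Φ : ℕ → ℕ → Finset ℕ → Y N) {g : ℝ → Finset ℕ → Om N} (hg : Crs P g) :
    ∑ X ∈ Finset.range P, (mkc Φ g n 0 X ∅).Tot K m (Dh 0 g X ∅) = pf K m P n Φ g := by
  have h1 := cs_main (K := K) (m := m) (n := n) Φ hg n 0 (by omega)
  rw [qq_zero, mul_one, Finset.range_zero, Finset.powerset_empty] at h1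
  simp only [Finset.sum_singleton] at h1
  rw [h1, ← Finset.range_eq_Ico]
  unfold pf sumE
  rw [Finset.sum_range_succ]
  congr 1
  · refine Finset.sum_congr rfl fun j hj => ?_
    have hj' := Finset.mem_range.1 hj
    unfold npos DD
    simp only [if_pos hj']
  · unfold npos DD
    simp only [lt_irrefl, if_false]

theorem cs_mass {P n : ℕ} (Φ : ℕ → ℕ → Finset ℕ → Y N) (g : ℝ → Finset ℕ → Om N) :
    ∀ k i, i + k = n →
      ∑ X ∈ Finset.range (P * qq i), ∑ T ∈ (Finset.range i).powerset, (mkc Φ g k i X T).mass K ≤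
      ∑ j ∈ Finset.Ico i n, ∑ Z ∈ Finset.range (P * qq (j + 1) + 1), ∑ T ∈ (Finset.range j).powerset,
        nr K (Φ j Z T) +
      ∑ X ∈ Finset.range (P * qq n), ∑ T ∈ (Finset.range n).powerset, nr K (Φ n X T) := by
  have hnr : ∀ y : Y N, 0 ≤ nr K y := fun y => Finset.sum_nonneg fun _ _ => norm_nonneg _
  intro k
  induction k with
  | zero =>
    intro i hi
    have hi' : i = n := by omega
    subst hi'
    rw [Finset.Ico_self, Finset.sum_empty, zero_add]
    exact le_rfl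
  | succ k ih =>
    intro i hi
    have hin : i < n := by omega
    have e1 : ∀ X T, (mkc Φ g (k + 1) i X T).mass K =
        ∑ x ∈ Finset.range (2 ^ (i + 1)),
          ((mkc Φ g k (i + 1) (2 ^ (i + 1) * X + x) T).mass K +
            (mkc Φ g k (i + 1) (2 ^ (i + 1) * X + x) (insert i T)).mass K) +
        ∑ x ∈ Finset.Ico 1 (2 ^ (i + 1)), nr K (Φ i (2 ^ (i + 1) * X + x) T) := by
      intro X T
      show ∑ x ∈ Finset.range (2 ^ (i + 1)),
          ((mkc Φ g k (i + 1) (2 ^ (i + 1) * X + x) (if false = true then insert i T else T)).mass K +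
            (mkc Φ g k (i + 1) (2 ^ (i + 1) * X + x) (if true = true then insert i T else T)).mass K) +
        ∑ x ∈ Finset.Ico 1 (2 ^ (i + 1)), nr K (Φ i (2 ^ (i + 1) * X + x) T) = _
      congr 1
    have e2 : ∀ X T, ∑ x ∈ Finset.Ico 1 (2 ^ (i + 1)), nr K (Φ i (2 ^ (i + 1) * X + x) T) ≤
        ∑ x ∈ Finset.range (2 ^ (i + 1)), nr K (Φ i (2 ^ (i + 1) * X + x) T) := by
      intro X T
      rw [Finset.range_eq_Ico, Finset.sum_eq_sum_Ico_succ_bot (a := 0) (by positivity)]
      exact le_add_of_nonneg_left (hnr _)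
    have e3 : ∑ X ∈ Finset.range (P * qq i), ∑ T ∈ (Finset.range i).powerset,
          ∑ x ∈ Finset.range (2 ^ (i + 1)), nr K (Φ i (2 ^ (i + 1) * X + x) T) ≤
        ∑ Z ∈ Finset.range (P * qq (i + 1) + 1), ∑ T ∈ (Finset.range i).powerset, nr K (Φ i Z T) := by
      rw [Finset.sum_range_succ]
      refine le_add_of_le_of_nonneg (le_of_eq ?_) (Finset.sum_nonneg fun _ _ => hnr _)
      rw [qq_succ, ← mul_assoc,
        ← cs_range (fun Z => ∑ T ∈ (Finset.range i).powerset, nr K (Φ i Z T))]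
      refine Finset.sum_congr rfl fun X _ => ?_
      rw [Finset.sum_comm]
    have e4 := cs_step P i fun Z T => (mkc Φ g k (i + 1) Z T).mass K
    beta_reduce at e4
    rw [Finset.sum_eq_sum_Ico_succ_bot hin, add_assoc]
    refine le_trans ?_ (add_le_add e3 (ih (i + 1) (by omega)))
    rw [← e4, ← Finset.sum_add_distrib]
    refine Finset.sum_le_sum fun X hX => ?_
    rw [← Finset.sum_add_distrib]
    refine Finset.sum_le_sum fun T hT => ?_
    rw [e1, add_comm]
    exact add_le_add_left (e2 X T) _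

theorem mkc_mass_sum {P n : ℕ} (Φ : ℕ → ℕ → Finset ℕ → Y N) (g : ℝ → Finset ℕ → Om N) :
    ∑ X ∈ Finset.range P, (mkc Φ g n 0 X ∅).mass K ≤ ms K P n Φ := by
  have h1 := cs_mass (P := P) (K := K) (n := n) Φ g n 0 (by omega)
  rw [qq_zero, mul_one, Finset.range_zero, Finset.powerset_empty] at h1
  simp only [Finset.sum_singleton] at h1
  refine h1.trans (le_of_eq ?_)
  rw [← Finset.range_eq_Ico]
  unfold ms sumE
  rw [Finset.sum_range_succ]
  congr 1
  · refine Finset.sum_congr rfl fun j hj => ?_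
    have hj' := Finset.mem_range.1 hj
    unfold npos
    simp only [if_pos hj']
  · unfold npos
    simp only [lt_irrefl, if_false]

end H46RF
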