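import Pool.Agent.H46.RF.Th

/-!
S05864 [H46 RF CELLT]: `Cell.tot` of the cells `mkc`.

Proof of `mkc_tot`: induction on `k`. `k = 0`: `i = n`; `{T' ⊆ range n : ct n T' = T} = {T}`, `q_n / q_n = 1`, `Ico X (X+1) = {X}`.
`k + 1`: `tot = ∑_(x < 2^(i+1)) (th (i+1) (2^(i+1) X + x) T + th (i+1) (2^(i+1) X + x) (insert i T))` (in `mkc`: `sub x false` has `T`, `sub x true` has `insert i T`);
with `r = q_n / q_i = 2^(i+1) r'`, `r' = q_n / q_(i+1)`: `Ico (X r) ((X+1) r)` is the disjoint union of the `Ico ((2^(i+1)X+x) r') ((2^(i+1)X+x+1) r')`, `x < 2^(i+1)`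
(induction, `Finset.sum_Ico_consecutive`), and for `T' ⊆ range n`: `ct i T' = T` iff `ct (i+1) T' = T` or `ct (i+1) T' = insert i T` (according to `i ∈ T'`), disjoint.
-/

set_option autoImplicit false

namespace H46RF

open H50RC H50LP

variable {N K m : ℕ}

theorem ct_blocks {E : Type} [AddCommMonoid E] (g : ℕ → E) (A r D : ℕ) :
    ∑ x ∈ Finset.range D, ∑ y ∈ Finset.Ico ((A + x) * r) ((A + x + 1) * r), g y =
      ∑ y ∈ Finset.Ico (A * r) ((A + D) * r), g y := by
  induction D with
  | zero => simp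
  | succ D ih =>
    rw [Finset.sum_range_succ, ih]
    exact Finset.sum_Ico_consecutive g (Nat.mul_le_mul_right r (Nat.le_add_right A D))
      (Nat.mul_le_mul_right r (Nat.le_succ _))

theorem ct_succ (i : ℕ) (T : Finset ℕ) :
    ct (i + 1) T = if i ∈ T then insert i (ct i T) else ct i T := by
  ext k
  split_ifs with h
  · rw [Finset.mem_insert, mem_ct, mem_ct]
    constructor
    · rintro ⟨h1, h2⟩
      by_cases hk : k = i
      · exact Or.inl hk
      · exact Or.inr ⟨h1, by omega⟩
    · rintro (h1 | ⟨h1, h2⟩)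
      · subst h1
        exact ⟨h, by omega⟩
      · exact ⟨h1, by omega⟩
  · rw [mem_ct, mem_ct]
    constructor
    · rintro ⟨h1, h2⟩
      refine ⟨h1, ?_⟩
      have : k ≠ i := by
        rintro rfl
        exact h h1
      omega
    · rintro ⟨h1, h2⟩
      exact ⟨h1, by omega⟩

theorem ct_filter {E : Type} [AddCommMonoid E] (F : Finset ℕ → E) (S : Finset (Finset ℕ)) (i : ℕ)
    {T : Finset ℕ} (hT : T ⊆ Finset.range i) :
    ∑ T' ∈ S.filter (fun T' => ct i T' = T), F T' =
      ∑ T' ∈ S.filter (fun T' => ct (i + 1) T' = T), F T' +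
        ∑ T' ∈ S.filter (fun T' => ct (i + 1) T' = insert i T), F T' := by
  have hi : i ∉ T := fun h => by
    have := Finset.mem_range.1 (hT h)
    omega
  have hi' : ∀ T' : Finset ℕ, i ∉ ct i T' := fun T' h => by
    have := (mem_ct.1 h).2
    omega
  have hdisj : Disjoint (S.filter (fun T' => ct (i + 1) T' = T))
      (S.filter (fun T' => ct (i + 1) T' = insert i T)) := by
    rw [Finset.disjoint_left]
    intro T' h1 h2
    rw [Finset.mem_filter] at h1 h2
    apply hi
    rw [← h1.2, h2.2]
    exact Finset.mem_insert_self i T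
  rw [← Finset.sum_union hdisj]
  refine Finset.sum_congr ?_ fun _ _ => rfl
  ext T'
  rw [Finset.mem_union, Finset.mem_filter, Finset.mem_filter, Finset.mem_filter, ct_succ]
  constructor
  · rintro ⟨h1, h2⟩
    by_cases h : i ∈ T'
    · right
      rw [if_pos h, h2]
      exact ⟨h1, rfl⟩
    · left
      rw [if_neg h]
      exact ⟨h1, h2⟩
  · rintro (⟨h1, h2⟩ | ⟨h1, h2⟩)
    · refine ⟨h1, ?_⟩
      by_cases h : i ∈ T'
      · rw [if_pos h] at h2
        exfalso
        apply hi
        rw [← h2]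
        exact Finset.mem_insert_self i _
      · rwa [if_neg h] at h2
    · refine ⟨h1, ?_⟩
      by_cases h : i ∈ T'
      · rw [if_pos h] at h2
        have h3 : (insert i (ct i T')).erase i = (insert i T).erase i := by rw [h2]
        rwa [Finset.erase_insert (hi' T'), Finset.erase_insert hi] at h3
      · rw [if_neg h] at h2
        exfalso
        apply hi' T'
        rw [h2]
        exact Finset.mem_insert_self i T

theorem qq_div_succ {n i : ℕ} (hi : i < n) : qq n / qq i = 2 ^ (i + 1) * (qq n / qq (i + 1)) := by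
  have hdvd : ∀ j, i + 1 ≤ j → ∃ r : ℕ, qq j = qq (i + 1) * r := by
    intro j hj
    induction j, hj using Nat.le_induction with
    | base => exact ⟨1, by simp⟩
    | succ j _ ih =>
      obtain ⟨r, h⟩ := ih
      exact ⟨r * 2 ^ (j + 1), by rw [qq_succ j, h, mul_assoc]⟩
  obtain ⟨r, h⟩ := hdvd n hi
  rw [h, Nat.mul_div_cancel_left _ (qq_pos (i + 1)), qq_succ, mul_assoc,
    Nat.mul_div_cancel_left _ (qq_pos i)]

theorem th_split {n i : ℕ} (hi : i < n) (Φ : ℕ → ℕ → Finset ℕ → Y N) (X : ℕ) {T : Finset ℕ} (hT : T ⊆ Finset.range i) :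
    th n Φ i X T = ∑ x ∈ Finset.range (2 ^ (i + 1)),
      (th n Φ (i + 1) (2 ^ (i + 1) * X + x) T + th n Φ (i + 1) (2 ^ (i + 1) * X + x) (insert i T)) := by
  have hG : ∀ T' : Finset ℕ, ∑ Y ∈ Finset.Ico (X * (qq n / qq i)) ((X + 1) * (qq n / qq i)), Φ n Y T' =
      ∑ x ∈ Finset.range (2 ^ (i + 1)), ∑ Y ∈ Finset.Ico ((2 ^ (i + 1) * X + x) * (qq n / qq (i + 1)))
        ((2 ^ (i + 1) * X + x + 1) * (qq n / qq (i + 1))), Φ n Y T' := by
    intro T'
    rw [ct_blocks, qq_div_succ hi]
    congr 2
    · ring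
    · ring
  unfold th
  simp only [hG]
  rw [ct_filter _ _ i hT, Finset.sum_add_distrib, Finset.sum_comm]
  congr 1
  rw [Finset.sum_comm]

theorem mkc_tot (Φ : ℕ → ℕ → Finset ℕ → Y N) (g : ℝ → Finset ℕ → Om N) (n : ℕ) :
    ∀ k i X T, i + k = n → T ⊆ Finset.range i → (mkc Φ g k i X T).tot = th n Φ i X T := by
  intro k
  induction k with
  | zero =>
    intro i X T hi hT
    have hi' : i = n := by omega
    subst hi'
    show Φ i X T = th i Φ i X T
    unfold th
    have h1 : (Finset.range i).powerset.filter (fun T' => ct i T' = T) = {T} := by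
      ext T'
      rw [Finset.mem_filter, Finset.mem_powerset, Finset.mem_singleton]
      constructor
      · rintro ⟨h1, h2⟩
        rwa [ct_self h1] at h2
      · rintro rfl
        exact ⟨hT, ct_self hT⟩
    rw [h1, Finset.sum_singleton, Nat.div_self (qq_pos i), mul_one, mul_one, Nat.Ico_succ_singleton,
      Finset.sum_singleton]
  | succ k ih =>
    intro i X T hi hT
    have hin : i < n := by omega
    have hT1 : T ⊆ Finset.range (i + 1) := fun x hx => by
      have := Finset.mem_range.1 (hT hx)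
      exact Finset.mem_range.2 (by omega)
    have hT2 : insert i T ⊆ Finset.range (i + 1) := fun x hx => by
      rcases Finset.mem_insert.1 hx with h | h
      · subst h
        exact Finset.mem_range.2 (by omega)
      · exact hT1 h
    rw [th_split hin Φ X hT]
    show ∑ x ∈ Finset.range (2 ^ (i + 1)),
      ((mkc Φ g k (i + 1) (2 ^ (i + 1) * X + x) (if false = true then insert i T else T)).tot +
        (mkc Φ g k (i + 1) (2 ^ (i + 1) * X + x) (if true = true then insert i T else T)).tot) = _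
    refine Finset.sum_congr rfl fun x _ => ?_
    rw [if_neg (by simp), if_pos rfl, ih (i + 1) _ T (by omega) hT1,
      ih (i + 1) _ (insert i T) (by omega) hT2]

end H46RF
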