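import Pool.Agent.H46.RF.CellT

/-!
S05864 [H46 RF CELLW]: the cells `mkc` are well formed.
-/

set_option autoImplicit false

namespace H46RF

open H50RC H50LP

variable {N K m : ℕ}

theorem nu1_eq (g : ℝ → Finset ℕ → Om N) (i X : ℕ) (T : Finset ℕ) (x : ℕ) :
    nu1 (fun x => Dh (i + 1) g (2 ^ (i + 1) * X + x) T) (fun x => Dv i g (2 ^ (i + 1) * X + x) T) x =
      Dh (i + 1) g (2 ^ (i + 1) * X + x) (insert i T) := by
  unfold nu1 Dh Dv
  rw [← smul_sub, ← smul_add]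
  congr 1
  have e : (((2 ^ (i + 1) * X + (x + 1) : ℕ)) : ℝ) = ((2 ^ (i + 1) * X + x : ℕ) : ℝ) + 1 := by
    push_cast
    ring
  rw [e]
  abel

theorem pos_eq (i X x : ℕ) (hx : x = 2 ^ (i + 1) * X) : ((x : ℕ) : ℝ) / (qq (i + 1) : ℝ) = (X : ℝ) / qq i := by
  subst hx
  rw [qq_succ]
  push_cast
  have h1 := (qq_posR i).ne'
  field_simp

theorem crs_dv' {P i X Z : ℕ} {T : Finset ℕ} {g : ℝ → Finset ℕ → Om N} (hg : Crs P g) (hT : T ⊆ Finset.range i)
    (hX : X ≤ P * qq i) (hZ : Z = 2 ^ (i + 1) * X) : Dv i g Z T = 0 := by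
  unfold Dv
  rw [pos_eq i X Z hZ, hg i T hT X hX, sub_self, smul_zero]

theorem dh_avg (g : ℝ → Finset ℕ → Om N) (i X : ℕ) (T : Finset ℕ) :
    ((2 : ℝ) ^ (i + 1)) • Dh i g X T = ∑ x ∈ Finset.range (2 ^ (i + 1)), Dh (i + 1) g (2 ^ (i + 1) * X + x) T := by
  have h1 : ∀ x : ℕ, Dh (i + 1) g (2 ^ (i + 1) * X + x) T = (qq (i + 1) : ℝ) •
      (g (((2 ^ (i + 1) * X + (x + 1) : ℕ) : ℝ) / qq (i + 1)) T - g (((2 ^ (i + 1) * X + x : ℕ) : ℝ) / qq (i + 1)) T) := by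
    intro x
    unfold Dh
    have e : (((2 ^ (i + 1) * X + (x + 1) : ℕ)) : ℝ) = ((2 ^ (i + 1) * X + x : ℕ) : ℝ) + 1 := by
      push_cast
      ring
    rw [e]
  simp only [h1]
  rw [← Finset.smul_sum, Finset.sum_range_sub (fun x => g (((2 ^ (i + 1) * X + x : ℕ) : ℝ) / qq (i + 1)) T),
    pos_eq i (X + 1) (2 ^ (i + 1) * X + 2 ^ (i + 1)) (by ring), pos_eq i X (2 ^ (i + 1) * X + 0) (by ring)]
  unfold Dh
  rw [smul_smul, qq_succ]
  push_cast
  rw [mul_comm ((2 : ℝ) ^ (i + 1))]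

theorem mkc_wf {P n : ℕ} {Φ : ℕ → ℕ → Finset ℕ → Y N} {g : ℝ → Finset ℕ → Om N} (hg : Crs P g)
    (hh : ∀ i ≤ n, ∀ X < P * qq i, ∀ T, T ⊆ Finset.range i → BB K 1 (Dh i g X T))
    (hv : ∀ i < n, ∀ X ≤ P * qq (i + 1), ∀ T, T ⊆ Finset.range i → BB K 1 (Dv i g X T))
    (hV : ∀ i X T, Φ i X T ∈ Vs N K)
    (hrel1 : ∀ i < n, ∀ T, T ⊆ Finset.range i → ∀ X, X + 1 < P * qq (i + 1) → ¬ 2 ^ (i + 1) ∣ X + 1 →
      Φ i (X + 1) T + th n Φ (i + 1) X (insert i T) - th n Φ (i + 1) (X + 1) (insert i T) ∈ Xs N K m)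
    (hrel2 : ∀ i < n, ∀ T, T ⊆ Finset.range i → ∀ X, X + 1 < P * qq (i + 1) → ¬ 2 ^ (i + 1) ∣ X + 1 →
      -Φ i (X + 1) T + th n Φ (i + 1) X T - th n Φ (i + 1) (X + 1) T ∈ Xs N K m) :
    ∀ k i X T, i + k = n → T ⊆ Finset.range i → X < P * qq i →
      (mkc Φ g k i X T).WF K m (i + 1) (Dh i g X T) := by
  intro k
  induction k with
  | zero =>
    intro i X T hik hT hX
    rw [mkc]
    simp only [Cell.WF]
    exact ⟨hh i (by omega) X hX T hT, hV i X T⟩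
  | succ k ih =>
    intro i X T hik hT hX
    have hin : i < n := by omega
    have hT1 : T ⊆ Finset.range (i + 1) := hT.trans (Finset.range_subset_range.2 (by omega))
    have hT2 : insert i T ⊆ Finset.range (i + 1) := by
      intro a ha
      rcases Finset.mem_insert.1 ha with h | h
      · subst h
        exact Finset.self_mem_range_succ _
      · exact hT1 h
    have hpos : ∀ x, x < 2 ^ (i + 1) → 2 ^ (i + 1) * X + x < P * qq (i + 1) := by
      intro x hx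
      have h1 : X + 1 ≤ P * qq i := hX
      calc 2 ^ (i + 1) * X + x < 2 ^ (i + 1) * X + 2 ^ (i + 1) := by omega
        _ = 2 ^ (i + 1) * (X + 1) := by ring
        _ ≤ 2 ^ (i + 1) * (P * qq i) := Nat.mul_le_mul_left _ h1
        _ = P * qq (i + 1) := by rw [qq_succ]; ring
    have hpos' : ∀ x, x ≤ 2 ^ (i + 1) → 2 ^ (i + 1) * X + x ≤ P * qq (i + 1) := by
      intro x hx
      rcases hx.eq_or_lt with h | h
      · subst h
        have h1 : X + 1 ≤ P * qq i := hX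
        calc 2 ^ (i + 1) * X + 2 ^ (i + 1) = 2 ^ (i + 1) * (X + 1) := by ring
          _ ≤ 2 ^ (i + 1) * (P * qq i) := Nat.mul_le_mul_left _ h1
          _ = P * qq (i + 1) := by rw [qq_succ]; ring
      · exact (hpos x h).le
    have hnd : ∀ x, x + 1 < 2 ^ (i + 1) → ¬ 2 ^ (i + 1) ∣ 2 ^ (i + 1) * X + x + 1 := by
      intro x hx h
      have h1 : 2 ^ (i + 1) ∣ x + 1 := by
        rw [add_assoc] at h
        exact (Nat.dvd_add_right (dvd_mul_right _ _)).1 h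
      have := Nat.le_of_dvd (by omega) h1
      omega
    rw [mkc]
    simp only [Cell.WF]
    refine ⟨hh i (by omega) X hX T hT, le_rfl, ?_, ?_, ?_, ?_, ?_, ?_, ?_, ?_, ?_⟩
    · exact crs_dv' hg hT hX.le (by ring)
    · exact crs_dv' hg hT (show X + 1 ≤ P * qq i from hX) (by ring)
    · intro x hx
      rw [nu1_eq]
      exact ⟨hh (i + 1) hin _ (hpos x hx) T hT1, hh (i + 1) hin _ (hpos x hx) _ hT2⟩
    · intro x hx
      exact hv i hin _ (hpos' x hx) T hT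
    · intro x _ _
      exact hV _ _ _
    · exact dh_avg g i X T
    · intro x hx
      simp only [if_true]
      rw [mkc_tot Φ g n k (i + 1) _ _ (by omega) hT2, mkc_tot Φ g n k (i + 1) _ _ (by omega) hT2]
      exact hrel1 i hin T hT (2 ^ (i + 1) * X + x) (hpos (x + 1) hx) (hnd x hx)
    · intro x hx
      simp only [Bool.false_eq_true, if_false]
      rw [mkc_tot Φ g n k (i + 1) _ _ (by omega) hT1, mkc_tot Φ g n k (i + 1) _ _ (by omega) hT1]
      exact hrel2 i hin T hT (2 ^ (i + 1) * X + x) (hpos (x + 1) hx) (hnd x hx)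
    · intro x hx
      rw [nu1_eq]
      simp only [Bool.false_eq_true, if_false, if_true]
      exact ⟨ih (i + 1) _ T (by omega) hT1 (hpos x hx), ih (i + 1) _ _ (by omega) hT2 (hpos x hx)⟩

end H46RF
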