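import Pool.Agent.H50.RC.Unc2
import Pool.Agent.H50.RC.Nrm
import Pool.Agent.H50.RC.Dt

/-!
S05864 (MP_b365ef_an), PART F of proofs 322 (reduction): definitions.

Lines of the set are given by finite sets `T` of natural numbers: `vl T = ∑ k ∈ T, a_(k+1)`. The lines of `A_n` are the
`T ⊆ range n`. Horizontal coordinate `t = x + W ≥ 0`; the grid of level `i` is `(1/q_i)ℤ`, `q_i = 1/a_i = 2^(i(i+1)/2)`.
The block of level `i` with base line `T ⊆ range i` consists of the lines `T'` with `ct i T' = T`.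
EDGES (for fixed `n`, `P`), numbered by triples `(i, X, T)` with `T ⊆ range i`:
* `i = n`, `X < P q_n`: the horizontal edge from `(X/q_n, T)` to `((X+1)/q_n, T)`, length `a_n`;
* `i < n`, `X ≤ P q_(i+1)`: the vertical edge from `(X/q_(i+1), T)` to `(X/q_(i+1), insert i T)`, length `a_(i+1)`.
-/

set_option autoImplicit false

namespace H46RF

open H50RC H50LP

/-- `q_i = 2^(i(i+1)/2) = 1 / a_i` -/
def qq (i : ℕ) : ℕ := 2 ^ (i * (i + 1) / 2)

theorem qq_zero : qq 0 = 1 := rfl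

theorem qq_succ (i : ℕ) : qq (i + 1) = qq i * 2 ^ (i + 1) := by
  unfold qq
  rw [← pow_add]
  congr 1
  have h1 : (i + 1) * (i + 1 + 1) = i * (i + 1) + (i + 1) * 2 := by ring
  rw [h1, Nat.add_mul_div_right _ _ (by norm_num)]

theorem qq_pos (i : ℕ) : 0 < qq i := by
  unfold qq
  positivity

theorem qq_posR (i : ℕ) : (0 : ℝ) < qq i := by exact_mod_cast qq_pos i

theorem aa_eq (i : ℕ) : aa i = (qq i : ℝ)⁻¹ := by
  unfold aa qq
  push_cast
  rw [inv_pow]

theorem qq_mul_aa (i : ℕ) : (qq i : ℝ) * aa i = 1 := by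
  rw [aa_eq]
  exact mul_inv_cancel₀ (qq_posR i).ne'

/-- the line with the digits `T` -/
noncomputable def vl (T : Finset ℕ) : ℝ := ∑ k ∈ T, aa (k + 1)

theorem vl_mem (T : Finset ℕ) : vl T ∈ cA := by
  refine ⟨fun k => decide (k ∈ T), ?_⟩
  unfold vl
  rw [tsum_eq_sum (s := T)]
  · refine Finset.sum_congr rfl fun k hk => ?_
    simp [hk]
  · intro k hk
    simp [hk]

/-- the line with the digits `T` as a point of `cA` -/
noncomputable def lin (T : Finset ℕ) : cA := ⟨vl T, vl_mem T⟩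

/-- the first `i` digits -/
def ct (i : ℕ) (T : Finset ℕ) : Finset ℕ := T.filter (· < i)

theorem ct_subset (i : ℕ) (T : Finset ℕ) : ct i T ⊆ Finset.range i := by
  intro k hk
  rw [ct, Finset.mem_filter] at hk
  exact Finset.mem_range.2 hk.2

theorem ct_self {i : ℕ} {T : Finset ℕ} (h : T ⊆ Finset.range i) : ct i T = T :=
  Finset.filter_true_of_mem fun k hk => Finset.mem_range.1 (h hk)

theorem ct_insert_ge {i j : ℕ} (h : i ≤ j) (T : Finset ℕ) : ct i (insert j T) = ct i T := by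
  unfold ct
  rw [Finset.filter_insert, if_neg (by omega)]

theorem ct_insert_lt {i j : ℕ} (h : j < i) (T : Finset ℕ) : ct i (insert j T) = insert j (ct i T) := by
  unfold ct
  rw [Finset.filter_insert, if_pos h]

theorem mem_ct {i k : ℕ} {T : Finset ℕ} : k ∈ ct i T ↔ k ∈ T ∧ k < i := Finset.mem_filter

/-- hat function of the grid `(1/q)ℤ` at `X/q` -/
noncomputable def hat (q X : ℕ) (t : ℝ) : ℝ := max 0 (1 - |q * t - X|)

variable {E : Type} [AddCommGroup E] [Module ℝ E]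

/-- slope over the interval `[X/q_i, (X+1)/q_i]` of the line `T` -/
noncomputable def Dh (i : ℕ) (φ : ℝ → Finset ℕ → E) (X : ℕ) (T : Finset ℕ) : E :=
  (qq i : ℝ) • (φ (((X : ℝ) + 1) / qq i) T - φ ((X : ℝ) / qq i) T)

/-- slope over the vertical edge from `(X/q_(i+1), T)` to `(X/q_(i+1), insert i T)` -/
noncomputable def Dv (i : ℕ) (φ : ℝ → Finset ℕ → E) (X : ℕ) (T : Finset ℕ) : E :=
  (qq (i + 1) : ℝ) • (φ ((X : ℝ) / qq (i + 1)) (insert i T) - φ ((X : ℝ) / qq (i + 1)) T)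

/-- slope over the edge `(i, X, T)` -/
noncomputable def DD (n : ℕ) (φ : ℝ → Finset ℕ → E) (i X : ℕ) (T : Finset ℕ) : E :=
  if i < n then Dv i φ X T else Dh n φ X T

/-- number of positions of the edges `(i, X, T)` -/
def npos (P n i : ℕ) : ℕ := if i < n then P * qq (i + 1) + 1 else P * qq n

/-- the edges -/
def ed (P n : ℕ) : Finset (ℕ × ℕ × Finset ℕ) :=
  (Finset.range (n + 1)).biUnion fun i =>
    {i} ×ˢ (Finset.range (npos P n i) ×ˢ (Finset.range i).powerset)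

/-- sum over all edges -/
def sumE {F : Type} [AddCommMonoid F] (P n : ℕ) (a : ℕ → ℕ → Finset ℕ → F) : F :=
  ∑ i ∈ Finset.range (n + 1), ∑ X ∈ Finset.range (npos P n i), ∑ T ∈ (Finset.range i).powerset, a i X T

theorem sum_ed {F : Type} [AddCommMonoid F] (P n : ℕ) (a : ℕ × ℕ × Finset ℕ → F) :
    ∑ e ∈ ed P n, a e = sumE P n (fun i X T => a (i, X, T)) := by
  unfold ed sumE
  rw [Finset.sum_biUnion]
  · refine Finset.sum_congr rfl fun i _ => ?_
    rw [Finset.sum_product, Finset.sum_singleton, Finset.sum_product]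
  · intro i _ j _ hij
    rw [Function.onFun, Finset.disjoint_left]
    rintro ⟨a, b, c⟩ h1 h2
    rw [Finset.mem_product, Finset.mem_singleton] at h1 h2
    exact hij (h1.1.symm.trans h2.1)

theorem mem_ed {P n i X : ℕ} {T : Finset ℕ} :
    (i, X, T) ∈ ed P n ↔ i ≤ n ∧ X < npos P n i ∧ T ⊆ Finset.range i := by
  unfold ed
  rw [Finset.mem_biUnion]
  constructor
  · rintro ⟨j, hj, h⟩
    rw [Finset.mem_product, Finset.mem_product, Finset.mem_singleton, Finset.mem_range, Finset.mem_powerset] at h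
    obtain ⟨h1, h2, h3⟩ := h
    have h1' : i = j := h1
    subst h1'
    exact ⟨by have := Finset.mem_range.1 hj; omega, h2, h3⟩
  · rintro ⟨h1, h2, h3⟩
    refine ⟨i, Finset.mem_range.2 (by omega), ?_⟩
    rw [Finset.mem_product, Finset.mem_product, Finset.mem_singleton, Finset.mem_range, Finset.mem_powerset]
    exact ⟨rfl, h2, h3⟩

/-- the flow sum `∑_e D φ(e) Φ_e` of a real function `φ` -/
noncomputable def tf {N : ℕ} (P n : ℕ) (Φ : ℕ → ℕ → Finset ℕ → Y N) (φ : ℝ → Finset ℕ → ℝ) : Y N :=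
  sumE P n fun i X T => DD n φ i X T • Φ i X T

/-- the pairing `∑_e ⟨D f(e), Φ_e⟩` -/
noncomputable def pf {N : ℕ} (K m P n : ℕ) (Φ : ℕ → ℕ → Finset ℕ → Y N) (f : ℝ → Finset ℕ → Om N) : ℝ :=
  sumE P n fun i X T => pr K m (DD n f i X T) (Φ i X T)

/-- the total mass `∑_e ‖Φ_e‖` -/
noncomputable def ms {N : ℕ} (K P n : ℕ) (Φ : ℕ → ℕ → Finset ℕ → Y N) : ℝ :=
  sumE P n fun i X T => nr K (Φ i X T)

/-- the merged function `f'` -/
noncomputable def mrg (P : ℕ) (f : ℝ → Finset ℕ → E) (t : ℝ) (T : Finset ℕ) : E :=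
  f t T - ∑ i ∈ T, ∑ Z ∈ Finset.range (P * qq i + 1), hat (qq i) Z t •
    (f ((Z : ℝ) / qq i) (insert i (ct i T)) - f ((Z : ℝ) / qq i) (ct i T))

/-- `f` is Lipschitz with constant `c` in the sense of `BB` -/
def LB {N : ℕ} (K : ℕ) (c : ℝ) (f : ℝ → Finset ℕ → Om N) : Prop :=
  (∀ t t' T, BB K (c * |t - t'|) (f t T - f t' T)) ∧
    ∀ t i T, T ⊆ Finset.range i → BB K (c * aa (i + 1)) (f t (insert i T) - f t T)

/-- no jump at the coarse points -/
def Crs {N : ℕ} (P : ℕ) (g : ℝ → Finset ℕ → Om N) : Prop :=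
  ∀ i T, T ⊆ Finset.range i → ∀ Z ≤ P * qq i, g ((Z : ℝ) / qq i) (insert i T) = g ((Z : ℝ) / qq i) T

/-- the cells -/
noncomputable def mkc {N : ℕ} (Φ : ℕ → ℕ → Finset ℕ → Y N) (g : ℝ → Finset ℕ → Om N) :
    (k i X : ℕ) → Finset ℕ → Cell N
  | 0, i, X, T => .leaf (Φ i X T)
  | k + 1, i, X, T => .node (i + 1)
      (fun x c => mkc Φ g k (i + 1) (2 ^ (i + 1) * X + x) (if c then insert i T else T))
      (fun x => Φ i (2 ^ (i + 1) * X + x) T) (fun x => Dh (i + 1) g (2 ^ (i + 1) * X + x) T)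
      (fun x => Dv i g (2 ^ (i + 1) * X + x) T)

end H46RF
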