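import Mathlib

/-!
S05864 [H46 RF HBF]: flows by Hahn-Banach (F3 of proofs 322), abstract form.

Proof. `h` implies by scaling `|T φ| ≤ C M` whenever `|D φ e| ≤ M` for all `e ∈ s` (`M > 0`: scale; then let `M → 0`), in particular `T φ = 0` if `D φ = 0` on `s`.
Let `D' : V → (s → ℝ)` be the restriction (`s` as a subtype, a finite type; sup norm). `ker D' ≤ ker T`, so there is a linear `G` on `s → ℝ` with `T = G ∘ D'`
(`LinearMap.range_dualMap_eq_dualAnnihilator_ker`, or `LinearMap.exists_extend` after a quotient); restricted to the range of `D'` it is bounded by `C ‖·‖`; extend it by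
`Real.exists_extension_norm_eq`/`exists_extension_norm_eq` (see `H50/LP/HahnB.lean` for the same argument) to `ψ` with `|ψ x| ≤ C ‖x‖`. `Φ e = ψ (Pi.single e 1)`;
`∑ |Φ e| = ψ (sign vector) ≤ C`.
-/

set_option autoImplicit false

namespace H46RF

theorem hb_flow {V ι : Type} [AddCommGroup V] [Module ℝ V] (s : Finset ι) (D : V →ₗ[ℝ] (ι → ℝ))
    (T : V →ₗ[ℝ] ℝ) (C : ℝ) (hC : 0 ≤ C) (h : ∀ φ, (∀ e ∈ s, |D φ e| ≤ 1) → |T φ| ≤ C) :
    ∃ Φ : ι → ℝ, (∀ φ, T φ = ∑ e ∈ s, D φ e * Φ e) ∧ ∑ e ∈ s, |Φ e| ≤ C := by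
  classical
  -- scaling
  have hsc : ∀ φ (M : ℝ), 0 < M → (∀ e ∈ s, |D φ e| ≤ M) → |T φ| ≤ C * M := by
    intro φ M hM hφ
    have h1 := h (M⁻¹ • φ) (fun e he => by
      rw [map_smul, Pi.smul_apply, smul_eq_mul, abs_mul, abs_of_pos (inv_pos.2 hM),
        inv_mul_le_iff₀ hM, mul_one]
      exact hφ e he)
    rw [map_smul, smul_eq_mul, abs_mul, abs_of_pos (inv_pos.2 hM), inv_mul_le_iff₀ hM] at h1
    linarith
  have hsc0 : ∀ φ (M : ℝ), 0 ≤ M → (∀ e ∈ s, |D φ e| ≤ M) → |T φ| ≤ C * M := by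
    intro φ M hM hφ
    refine le_of_forall_pos_le_add fun δ hδ => ?_
    have h1 := hsc φ (M + δ / (C + 1)) (by positivity) fun e he =>
      (hφ e he).trans (by
        have : 0 ≤ δ / (C + 1) := by positivity
        linarith)
    have h2 : C * (δ / (C + 1)) ≤ δ := by
      rw [mul_div_assoc', div_le_iff₀ (by linarith)]
      nlinarith
    rw [mul_add] at h1
    linarith
  let D' : V →ₗ[ℝ] (s → ℝ) :=
    { toFun := fun φ e => D φ e.1
      map_add' := fun a b => by
        funext e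
        rw [map_add]
        rfl
      map_smul' := fun a b => by
        funext e
        rw [map_smul]
        rfl }
  have hker : LinearMap.ker D' ≤ LinearMap.ker T := by
    intro φ hφ
    rw [LinearMap.mem_ker] at hφ ⊢
    have h1 := hsc0 φ 0 le_rfl fun e he => by
      have h2 : D' φ ⟨e, he⟩ = 0 := by
        rw [hφ]
        rfl
      have h3 : D φ e = 0 := h2
      rw [h3, abs_zero]
    rw [mul_zero] at h1
    exact abs_nonpos_iff.1 h1
  let G : LinearMap.range D' →ₗ[ℝ] ℝ :=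
    (Submodule.liftQ (LinearMap.ker D') T hker) ∘ₗ (D'.quotKerEquivRange.symm : _ →ₗ[ℝ] _)
  have hG : ∀ φ, G ⟨D' φ, LinearMap.mem_range_self D' φ⟩ = T φ := by
    intro φ
    show (Submodule.liftQ (LinearMap.ker D') T hker)
      (D'.quotKerEquivRange.symm ⟨D' φ, LinearMap.mem_range_self D' φ⟩) = T φ
    rw [LinearMap.quotKerEquivRange_symm_apply_image]
    exact Submodule.liftQ_apply _ _ _
  have hb : ∀ x : LinearMap.range D', ‖G x‖ ≤ C * ‖x‖ := by
    rintro ⟨x, φ, rfl⟩
    rw [hG φ, Real.norm_eq_abs]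
    refine hsc0 φ _ (norm_nonneg _) fun e he => ?_
    rw [← Real.norm_eq_abs]
    exact norm_le_pi_norm (D' φ) ⟨e, he⟩
  obtain ⟨g, hg1, hg2⟩ := exists_extension_norm_eq (𝕜 := ℝ) (LinearMap.range D')
    (G.mkContinuous C hb)
  have hg3 : ‖g‖ ≤ C := by
    rw [hg2]
    exact LinearMap.mkContinuous_norm_le G hC hb
  have hg4 : ∀ φ, g (D' φ) = T φ := by
    intro φ
    have h1 := hg1 ⟨D' φ, LinearMap.mem_range_self D' φ⟩
    rw [← hG φ]
    exact h1
  have hpi : ∀ x : s → ℝ, g x = ∑ e : s, x e * g (fun j => if e = j then 1 else 0) := by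
    intro x
    have h1 := (g : (s → ℝ) →ₗ[ℝ] ℝ).pi_apply_eq_sum_univ x
    exact h1
  refine ⟨fun e => if he : e ∈ s then g (fun j => if (⟨e, he⟩ : s) = j then 1 else 0) else 0,
    fun φ => ?_, ?_⟩
  · rw [← hg4 φ, hpi, ← Finset.sum_coe_sort s]
    refine Finset.sum_congr rfl fun e _ => ?_
    show D φ e.1 * g (fun j => if e = j then 1 else 0) =
      D φ e.1 * (if he : (e : ι) ∈ s then g (fun j => if (⟨e, he⟩ : s) = j then 1 else 0) else 0)
    rw [dif_pos e.2]
  · rw [← Finset.sum_coe_sort s]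
    have h1 : ∀ e : s, |(if he : (e : ι) ∈ s then g (fun j => if (⟨e, he⟩ : s) = j then 1 else 0)
        else 0)| = (if 0 ≤ g (fun j => if e = j then 1 else 0) then (1 : ℝ) else -1) *
          g (fun j => if e = j then 1 else 0) := by
      intro e
      rw [dif_pos e.2]
      have h2 : (fun j => if (⟨e.1, e.2⟩ : s) = j then (1 : ℝ) else 0) =
        fun j => if e = j then 1 else 0 := rfl
      rw [h2]
      split_ifs with h3
      · rw [abs_of_nonneg h3, one_mul]
      · rw [abs_of_neg (not_le.1 h3)]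
        ring
    rw [Finset.sum_congr rfl fun e _ => h1 e, ← hpi (fun e => if 0 ≤ g (fun j =>
      if e = j then 1 else 0) then (1 : ℝ) else -1)]
    refine (le_abs_self _).trans ?_
    rw [← Real.norm_eq_abs]
    refine (g.le_opNorm _).trans ?_
    have h2 : ‖(fun e : s => if 0 ≤ g (fun j => if e = j then 1 else 0) then (1 : ℝ)
        else -1)‖ ≤ 1 := by
      refine (pi_norm_le_iff_of_nonneg zero_le_one).2 fun e => ?_
      split_ifs <;> norm_num
    calc ‖g‖ * ‖(fun e : s => if 0 ≤ g (fun j => if e = j then 1 else 0) then (1 : ℝ)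
        else -1)‖ ≤ C * 1 := mul_le_mul hg3 h2 (norm_nonneg _) hC
      _ = C := mul_one _

end H46RF
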