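import Pool.Agent.H50.RC.Nrm
import Pool.Agent.H50.RC.Dt

/-!
S05864 [H46 RF LF]: additive functions and leaf values.
-/

set_option autoImplicit false

namespace H46RF

open H50RC

variable {N K m : ℕ}

theorem ofLeaf_leaf (Φ : Y N) {g : Nd N} (hg : g ∈ lev N K) : ofLeaf K Φ g = Φ g := by
  unfold ofLeaf
  rw [mem_lev.1 hg]
  simp [lev]

theorem ofLeaf_mem (Φ : Y N) : ofLeaf K Φ ∈ Vs N K := by
  intro w hw
  unfold ofLeaf
  obtain ⟨j, hj⟩ : ∃ j, K - w.length = j + 1 := ⟨K - w.length - 1, by omega⟩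
  have h2 : ∀ a : Fin N, K - (a :: w).length = j := by
    intro a
    simp only [List.length_cons]
    omega
  have h1 := sum_lev_add (N := N) (j := j) (k := 1) (fun g => Φ (g ++ w))
  rw [hj, h1]
  simp only [h2]
  rw [sum_lev_succ]
  simp [lev]

/-- an additive function is determined by its values at the leaves -/
theorem vs_eq_ofLeaf {y : Y N} (hy : y ∈ Vs N K) {w : Nd N} (hw : w.length ≤ K) : y w = ofLeaf K y w := by
  have hy' : ∀ w : Nd N, w.length < K → y w = ∑ a, y (a :: w) := hy
  have hz' : ∀ w : Nd N, w.length < K → ofLeaf K y w = ∑ a, ofLeaf K y (a :: w) := ofLeaf_mem y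
  obtain ⟨j, hj⟩ : ∃ j, K - w.length = j := ⟨_, rfl⟩
  induction j generalizing w with
  | zero =>
    rw [ofLeaf_leaf y (mem_lev.2 (by omega))]
  | succ j ih =>
    rw [hy' w (by omega), hz' w (by omega)]
    refine Finset.sum_congr rfl fun a _ => ih ?_ ?_
    · simp only [List.length_cons]
      omega
    · simp only [List.length_cons]
      omega

/-- the value at a node is the sum over the leaves below it -/
theorem vs_eq_sum {y : Y N} (hy : y ∈ Vs N K) {w : Nd N} (hw : w.length ≤ K) :
    y w = ∑ g ∈ lev N K, if w <:+ g then y g else 0 := by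
  rw [vs_eq_ofLeaf hy hw]
  unfold ofLeaf
  rw [sum_below w (fun g => y g), Nat.sub_add_cancel hw, Finset.sum_filter]

/-- membership in `Xs` depends on the leaf values only -/
theorem xs_congr {y z : Y N} (hy : y ∈ Vs N K) (hz : z ∈ Xs N K m) (h : ∀ g ∈ lev N K, y g = z g) :
    y ∈ Xs N K m := by
  have e : ∀ w : Nd N, w.length ≤ K → y w = z w := by
    intro w hw
    rw [vs_eq_sum hy hw, vs_eq_sum hz.1 hw]
    refine Finset.sum_congr rfl fun g hg => ?_
    rw [h g hg]
  refine ⟨hy, fun w hw => ?_⟩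
  have h1 := hz.2 w hw
  have h2 := (mem_nds.1 hw).2
  have h3 : w.tail.length ≤ K := by
    rw [List.length_tail]
    omega
  unfold rr at h1 ⊢
  rw [e w h2, e w.tail h3]
  exact h1

/-- equality at the leaves gives equality at all nodes of length `≤ K` -/
theorem vs_congr {y z : Y N} (hy : y ∈ Vs N K) (hz : z ∈ Vs N K) (h : ∀ g ∈ lev N K, y g = z g) {w : Nd N}
    (hw : w.length ≤ K) : y w = z w := by
  rw [vs_eq_sum hy hw, vs_eq_sum hz hw]
  refine Finset.sum_congr rfl fun g hg => ?_
  rw [h g hg]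

/-- the uniform measure lies in `Xs` -/
theorem unif_mem (hN : 1 ≤ N) : (fun w : Nd N => (((N : ℝ) ^ w.length)⁻¹ : ℝ) • (1 : ℂ)) ∈ Xs N K m := by
  have hN0 : (N : ℝ) ≠ 0 := by
    have : (0 : ℝ) < N := by exact_mod_cast hN
    exact this.ne'
  refine ⟨fun w _ => ?_, fun w hw => ?_⟩
  · simp only [List.length_cons, Finset.sum_const, Finset.card_univ, Fintype.card_fin]
    rw [← Nat.cast_smul_eq_nsmul ℝ, smul_smul]
    congr 1
    rw [pow_succ]
    field_simp
  · have h0 := (mem_nds.1 hw).1
    cases w with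
    | nil => exact absurd rfl h0
    | cons a w =>
      unfold rr
      simp only [List.length_cons, List.tail_cons]
      rw [smul_smul]
      have e : (N : ℝ)⁻¹ * ((N : ℝ) ^ w.length)⁻¹ = ((N : ℝ) ^ (w.length + 1))⁻¹ := by
        rw [pow_succ, mul_inv]
        ring
      rw [e, sub_self, dt_zero_right]

end H46RF
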