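import Pool.Agent.H46.RF.Tb
import Pool.Agent.H46.RF.Hbf
import Pool.Agent.H46.RF.Lf

/-!
S05864 [H46 RF FLO]: the flows (F3 of proofs 322).

Proof. For `g ∈ lev N K` and a coordinate `i` (`re` or `im`) the map `φ ↦ ∑_(s∈S) (φ(X' s/q_n) (T' s) - φ W ∅) (y s g)_i` is linear on `ℝ → Finset ℕ → ℝ` and so is
`D φ = fun e => DD n φ e.1 e.2.1 e.2.2`. `t_bound` (with `z s = (y s g)_i`; `hb` gives its hypothesis, `(∑ f(s) • y s g).re = ∑ f(s) (y s g).re`; `|(y s g)_i| ≤ ‖y s g‖ ≤ ∑_g ‖y s g‖`)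
and `hb_flow` (`s = ed (2 W) n`, `C = 50`) give real numbers `Φ_(g,i)(e)` with `∑_e |Φ_(g,i)(e)| ≤ 50` and the representation. Put `Φ i X T = ofLeaf K (fun g => Φ_(g,re)(i,X,T) + Φ_(g,im)(i,X,T) I)`.
* in `Vs`: `ofLeaf_mem`. * `ms ≤ ∑_g ∑_e (|Φ_(g,re)(e)| + |Φ_(g,im)(e)|) ≤ 100 N^K` (`ofLeaf_leaf`, `card_lev`, `sum_ed`).
* KEY: for every real `φ`: `tf (2W) n Φ φ` is in `Vs` and at a leaf `g` its value is `∑_s (φ(X' s/q_n) (T' s) - φ W ∅) • y s g`; the function `∑_s (φ(..) - φ W ∅) • y s` is in `Xs`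
  (`y s ∈ Xs`), so `tf φ ∈ Xs` by `xs_congr`, and `tf φ w = ∑_s (..) • y s w` for all `w` of length `≤ K` (`vs_congr`).
* `pf f`: `DD n f i X T w = DD n (fun t T => f t T w) i X T`; exchange sums: `pf f = ∑_(w ∈ nds) dt (dir m |w|) (tf (fun t T => f t T w) w)`
  `= ∑_(w ∈ nds) dt (dir m |w|) (∑_s (f(..) w - f W ∅ w) • y s w) = ∑_s pr K m (f(..) - f W ∅) (y s)`.
-/

set_option autoImplicit false

namespace H46RF

open H50RC H50LP

private theorem DD_add (n : ℕ) (φ ψ : ℝ → Finset ℕ → ℝ) (i X : ℕ) (T : Finset ℕ) :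
    DD n (φ + ψ) i X T = DD n φ i X T + DD n ψ i X T := by
  unfold DD Dv Dh
  split_ifs <;> simp only [Pi.add_apply, smul_eq_mul] <;> ring

private theorem DD_smul (n : ℕ) (c : ℝ) (φ : ℝ → Finset ℕ → ℝ) (i X : ℕ) (T : Finset ℕ) :
    DD n (c • φ) i X T = c * DD n φ i X T := by
  unfold DD Dv Dh
  split_ifs <;> simp only [Pi.smul_apply, smul_eq_mul] <;> ring

private theorem DD_app {N : ℕ} (n : ℕ) (f : ℝ → Finset ℕ → Om N) (i X : ℕ) (T : Finset ℕ)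
    (w : Nd N) : DD n f i X T w = DD n (fun t T => f t T w) i X T := by
  unfold DD Dv Dh
  split_ifs <;> simp only [Pi.smul_apply, Pi.sub_apply]

/-- the differences as a linear map -/
private noncomputable def DL (n : ℕ) :
    (ℝ → Finset ℕ → ℝ) →ₗ[ℝ] (ℕ × ℕ × Finset ℕ → ℝ) where
  toFun φ e := DD n φ e.1 e.2.1 e.2.2
  map_add' φ ψ := by
    funext e
    exact DD_add n φ ψ _ _ _
  map_smul' c φ := by
    funext e
    exact DD_smul n c φ _ _ _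

/-- the functional as a linear map -/
private noncomputable def TL (S : Finset (ℝ × cA)) (z : ℝ × cA → ℝ) (W n : ℕ)
    (X' : ℝ × cA → ℕ) (T' : ℝ × cA → Finset ℕ) : (ℝ → Finset ℕ → ℝ) →ₗ[ℝ] ℝ where
  toFun φ := ∑ s ∈ S, (φ ((X' s : ℝ) / qq n) (T' s) - φ W ∅) * z s
  map_add' φ ψ := by
    rw [← Finset.sum_add_distrib]
    refine Finset.sum_congr rfl fun s _ => ?_
    simp only [Pi.add_apply]
    ring
  map_smul' c φ := by
    rw [RingHom.id_apply, smul_eq_mul, Finset.mul_sum]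
    refine Finset.sum_congr rfl fun s _ => ?_
    simp only [Pi.smul_apply, smul_eq_mul]
    ring

private theorem one_flow (S : Finset (ℝ × cA)) (z : ℝ × cA → ℝ)
    (hb : ∀ f : LX cA cA0, lipB 1 f.1 → |∑ s ∈ S, f.1 s.1 s.2 * z s| ≤ 1)
    (W n : ℕ) (X' : ℝ × cA → ℕ) (T' : ℝ × cA → Finset ℕ)
    (hX : ∀ s ∈ S, X' s ≤ 2 * W * qq n ∧ |s.1 + W - (X' s : ℝ) / qq n| ≤ aa n)
    (hT : ∀ s ∈ S, T' s ⊆ Finset.range n ∧ |(s.2 : ℝ) - vl (T' s)| ≤ aa n)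
    (hn : 2 * aa n * ∑ s ∈ S, |z s| ≤ 1) :
    ∃ Φ : ℕ × ℕ × Finset ℕ → ℝ, (∀ φ : ℝ → Finset ℕ → ℝ,
      ∑ s ∈ S, (φ ((X' s : ℝ) / qq n) (T' s) - φ W ∅) * z s =
        ∑ e ∈ ed (2 * W) n, DD n φ e.1 e.2.1 e.2.2 * Φ e) ∧
      ∑ e ∈ ed (2 * W) n, |Φ e| ≤ 50 :=
  hb_flow (ed (2 * W) n) (DL n) (TL S z W n X' T') 50 (by norm_num) fun φ hφ =>
    t_bound S z hb W n X' T' hX hT hn φ fun i X T h => hφ (i, X, T) h

private theorem tf_eq {N : ℕ} (P n : ℕ) (Φ : ℕ → ℕ → Finset ℕ → Y N) (φ : ℝ → Finset ℕ → ℝ) :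
    tf P n Φ φ = ∑ e ∈ ed P n, DD n φ e.1 e.2.1 e.2.2 • Φ e.1 e.2.1 e.2.2 := by
  unfold tf
  rw [sum_ed]

theorem flow_exists {N K m : ℕ} (S : Finset (ℝ × cA)) (y : ℝ × cA → Y N) (hy : ∀ s ∈ S, y s ∈ Xs N K m)
    (hb : ∀ f : LX cA cA0, lipB 1 f.1 → ∀ g ∈ lev N K,
      |(∑ s ∈ S, f.1 s.1 s.2 • y s g).re| ≤ 1 ∧ |(∑ s ∈ S, f.1 s.1 s.2 • y s g).im| ≤ 1)
    (W n : ℕ) (X' : ℝ × cA → ℕ) (T' : ℝ × cA → Finset ℕ)
    (hX : ∀ s ∈ S, X' s ≤ 2 * W * qq n ∧ |s.1 + W - (X' s : ℝ) / qq n| ≤ aa n)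
    (hT : ∀ s ∈ S, T' s ⊆ Finset.range n ∧ |(s.2 : ℝ) - vl (T' s)| ≤ aa n)
    (hn : 2 * aa n * ∑ s ∈ S, ∑ g ∈ lev N K, ‖y s g‖ ≤ 1) :
    ∃ Φ : ℕ → ℕ → Finset ℕ → Y N, (∀ i X T, Φ i X T ∈ Vs N K) ∧
      (∀ φ : ℝ → Finset ℕ → ℝ, tf (2 * W) n Φ φ ∈ Xs N K m) ∧
      ms K (2 * W) n Φ ≤ 100 * (N : ℝ) ^ K ∧
      ∀ f : ℝ → Finset ℕ → Om N, pf K m (2 * W) n Φ f =
        ∑ s ∈ S, pr K m (f ((X' s : ℝ) / qq n) (T' s) - f W ∅) (y s) := by
  classical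
  have ha0 : 0 ≤ aa n := by
    rw [aa_eq]
    exact (inv_pos.2 (qq_posR n)).le
  -- the real flows
  have hsm : ∀ g ∈ lev N K, ∀ z : ℝ × cA → ℝ, (∀ s, |z s| ≤ ‖y s g‖) →
      2 * aa n * ∑ s ∈ S, |z s| ≤ 1 := by
    intro g hg z hz
    refine le_trans (mul_le_mul_of_nonneg_left (Finset.sum_le_sum fun s _ => ?_)
      (by positivity)) hn
    exact (hz s).trans (Finset.single_le_sum (f := fun g => ‖y s g‖)
      (fun _ _ => norm_nonneg _) hg)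
  have hre : ∀ g, ∃ Φ : ℕ × ℕ × Finset ℕ → ℝ, g ∈ lev N K → (∀ φ : ℝ → Finset ℕ → ℝ,
      ∑ s ∈ S, (φ ((X' s : ℝ) / qq n) (T' s) - φ W ∅) * (y s g).re =
        ∑ e ∈ ed (2 * W) n, DD n φ e.1 e.2.1 e.2.2 * Φ e) ∧
      ∑ e ∈ ed (2 * W) n, |Φ e| ≤ 50 := by
    intro g
    by_cases hg : g ∈ lev N K
    · obtain ⟨Φ, h⟩ := one_flow S (fun s => (y s g).re) (fun f hf => by
        have h1 := (hb f hf g hg).1
        rw [Complex.re_sum] at h1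
        simpa [Complex.real_smul] using h1) W n X' T' hX hT
        (hsm g hg _ fun s => Complex.abs_re_le_norm _)
      exact ⟨Φ, fun _ => h⟩
    · exact ⟨0, fun h => absurd h hg⟩
  have him : ∀ g, ∃ Φ : ℕ × ℕ × Finset ℕ → ℝ, g ∈ lev N K → (∀ φ : ℝ → Finset ℕ → ℝ,
      ∑ s ∈ S, (φ ((X' s : ℝ) / qq n) (T' s) - φ W ∅) * (y s g).im =
        ∑ e ∈ ed (2 * W) n, DD n φ e.1 e.2.1 e.2.2 * Φ e) ∧
      ∑ e ∈ ed (2 * W) n, |Φ e| ≤ 50 := by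
    intro g
    by_cases hg : g ∈ lev N K
    · obtain ⟨Φ, h⟩ := one_flow S (fun s => (y s g).im) (fun f hf => by
        have h1 := (hb f hf g hg).2
        rw [Complex.im_sum] at h1
        simpa [Complex.real_smul] using h1) W n X' T' hX hT
        (hsm g hg _ fun s => Complex.abs_im_le_norm _)
      exact ⟨Φ, fun _ => h⟩
    · exact ⟨0, fun h => absurd h hg⟩
  choose Φr hΦr using hre
  choose Φi hΦi using him
  obtain ⟨Φ, hΦ⟩ : ∃ Φ : ℕ → ℕ → Finset ℕ → Y N, ∀ i X T, Φ i X T =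
      ofLeaf K (fun g => (⟨Φr g (i, X, T), Φi g (i, X, T)⟩ : ℂ)) := ⟨_, fun _ _ _ => rfl⟩
  have hleaf : ∀ (e : ℕ × ℕ × Finset ℕ) (g : Nd N), g ∈ lev N K →
      Φ e.1 e.2.1 e.2.2 g = (⟨Φr g e, Φi g e⟩ : ℂ) := by
    intro e g hg
    rw [hΦ, ofLeaf_leaf _ hg]
  have hVs : ∀ i X T, Φ i X T ∈ Vs N K := by
    intro i X T
    rw [hΦ]
    exact ofLeaf_mem _
  -- the key identity
  have hZ : ∀ φ : ℝ → Finset ℕ → ℝ,
      ∑ s ∈ S, (φ ((X' s : ℝ) / qq n) (T' s) - φ W ∅) • y s ∈ Xs N K m := fun φ =>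
    (Xs N K m).sum_mem fun s hs => (Xs N K m).smul_mem _ (hy s hs)
  have htV : ∀ φ : ℝ → Finset ℕ → ℝ, tf (2 * W) n Φ φ ∈ Vs N K := by
    intro φ
    rw [tf_eq]
    exact (Vs N K).sum_mem fun e _ => (Vs N K).smul_mem _ (hVs _ _ _)
  have hkey : ∀ (φ : ℝ → Finset ℕ → ℝ), ∀ g ∈ lev N K, tf (2 * W) n Φ φ g =
      (∑ s ∈ S, (φ ((X' s : ℝ) / qq n) (T' s) - φ W ∅) • y s) g := by
    intro φ g hg
    rw [tf_eq, Finset.sum_apply, Finset.sum_apply]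
    simp only [Pi.smul_apply]
    rw [Finset.sum_congr rfl fun e _ => by rw [hleaf e g hg]]
    apply Complex.ext
    · rw [Complex.re_sum, Complex.re_sum]
      have h1 := (hΦr g hg).1 φ
      simp only [Complex.real_smul, Complex.re_ofReal_mul]
      exact h1.symm
    · rw [Complex.im_sum, Complex.im_sum]
      have h1 := (hΦi g hg).1 φ
      simp only [Complex.real_smul, Complex.im_ofReal_mul]
      exact h1.symm
  refine ⟨Φ, hVs, fun φ => xs_congr (htV φ) (hZ φ) (hkey φ), ?_, ?_⟩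
  · -- the mass
    have h1 : ms K (2 * W) n Φ = ∑ e ∈ ed (2 * W) n, nr K (Φ e.1 e.2.1 e.2.2) := by
      unfold ms
      rw [sum_ed]
    have h2 : ∀ e ∈ ed (2 * W) n, nr K (Φ e.1 e.2.1 e.2.2) ≤
        ∑ g ∈ lev N K, (|Φr g e| + |Φi g e|) := by
      intro e _
      unfold nr
      refine Finset.sum_le_sum fun g hg => ?_
      rw [hleaf e g hg]
      exact Complex.norm_le_abs_re_add_abs_im _
    rw [h1]
    refine (Finset.sum_le_sum h2).trans ?_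
    rw [Finset.sum_comm]
    have h3 : ∀ g ∈ lev N K, ∑ e ∈ ed (2 * W) n, (|Φr g e| + |Φi g e|) ≤ 100 := by
      intro g hg
      rw [Finset.sum_add_distrib]
      have := (hΦr g hg).2
      have := (hΦi g hg).2
      linarith
    refine (Finset.sum_le_sum h3).trans (le_of_eq ?_)
    rw [Finset.sum_const, card_lev, nsmul_eq_mul]
    push_cast
    ring
  · -- the pairing
    intro f
    have h1 : pf K m (2 * W) n Φ f = ∑ w ∈ nds N K, dt (dir m w.length)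
        (tf (2 * W) n Φ (fun t T => f t T w) w) := by
      have h2 : pf K m (2 * W) n Φ f = ∑ e ∈ ed (2 * W) n,
          pr K m (DD n f e.1 e.2.1 e.2.2) (Φ e.1 e.2.1 e.2.2) := by
        unfold pf
        rw [sum_ed]
      rw [h2]
      unfold pr
      rw [Finset.sum_comm]
      refine Finset.sum_congr rfl fun w _ => ?_
      rw [tf_eq, Finset.sum_apply, dt_sum_right]
      refine Finset.sum_congr rfl fun e _ => ?_
      rw [Pi.smul_apply, dt_smul_right, DD_app]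
    have h3 : ∀ w ∈ nds N K, dt (dir m w.length) (tf (2 * W) n Φ (fun t T => f t T w) w) =
        ∑ s ∈ S, (f ((X' s : ℝ) / qq n) (T' s) - f W ∅) w * dt (dir m w.length) (y s w) := by
      intro w hw
      have h4 := vs_congr (htV (fun t T => f t T w)) (hZ (fun t T => f t T w)).1
        (hkey (fun t T => f t T w)) (mem_nds.1 hw).2
      rw [h4, Finset.sum_apply, dt_sum_right]
      refine Finset.sum_congr rfl fun s _ => ?_
      rw [Pi.smul_apply, dt_smul_right]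
      rfl
    rw [h1, Finset.sum_congr rfl h3, Finset.sum_comm]
    rfl

end H46RF
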