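import Pool.Agent.H50.LP.Defs

/-!
S05864 [H46 RF FONE]: F1 of proofs 322 (finitely supported operators suffice), in real coordinates.
-/

set_option autoImplicit false

namespace H46RF

open H50LP

theorem trace_zero {J : Type} [Fintype J] [DecidableEq J] {V : Type} [AddCommGroup V] [Module ℝ V]
    (X : Submodule ℝ (J → ℝ)) (A : V →ₗ[ℝ] (J → ℝ)) (hA : ∀ v, A v ∈ X) (v : J → V)
    (hv : ∀ x ∈ X, ∑ j, x j • v j = 0) : ∑ j, A (v j) j = 0 := by
  set M : Matrix J J ℝ := Matrix.of fun i j => A (v j) i with hM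
  have h1 : M * M = 0 := by
    ext i k
    rw [Matrix.mul_apply, Matrix.zero_apply]
    have h2 := hv (A (v k)) (hA _)
    have h3 := congrArg (fun z => A z i) h2
    simp only [map_sum, map_smul, map_zero, Finset.sum_apply, Pi.smul_apply, smul_eq_mul, Pi.zero_apply] at h3
    rw [← h3]
    refine Finset.sum_congr rfl fun j _ => ?_
    simp only [hM, Matrix.of_apply]
    ring
  have h2 : IsNilpotent M := ⟨2, by rw [pow_two, h1]⟩
  have h3 := (Matrix.isNilpotent_trace_of_isNilpotent h2).eq_zero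
  simpa [Matrix.trace, hM] using h3

section
variable {A0 : Set ℝ} {a0 : A0} {J : Type} [Fintype J] [DecidableEq J]

/-- evaluation of a family of measures -/
noncomputable def ev (f : LX A0 a0) (j : J) : ((ℝ × A0) →₀ (J → ℝ)) →ₗ[ℝ] ℝ :=
  Finsupp.lsum ℝ fun s => (f.1 s.1 s.2) • (LinearMap.proj j : (J → ℝ) →ₗ[ℝ] ℝ)

theorem ev_apply (f : LX A0 a0) (j : J) (m : (ℝ × A0) →₀ (J → ℝ)) :
    ev f j m = ∑ s ∈ m.support, f.1 s.1 s.2 * m s j := by
  unfold ev
  rw [Finsupp.lsum_apply, Finsupp.sum]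
  rfl

theorem ev_single (f : LX A0 a0) (j : J) (s : ℝ × A0) (z : J → ℝ) :
    ev f j (Finsupp.single s z) = f.1 s.1 s.2 * z j := by
  unfold ev
  rw [Finsupp.lsum_single]
  rfl

/-- the unit ball of `LX` -/
def UB (A0 : Set ℝ) (a0 : A0) : Type := {f : LX A0 a0 // lipB 1 f.1}

/-- the norm of a family of measures -/
noncomputable def pn (m : (ℝ × A0) →₀ (J → ℝ)) : ℝ := ⨆ x : UB A0 a0 × J, |ev x.1.1 x.2 m|

theorem lx_abs_le {f : LX A0 a0} {c : ℝ} (hf : lipB c f.1) (x : ℝ) (a : A0) :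
    |f.1 x a| ≤ c * (|x| + |(a : ℝ) - a0|) := by
  have h0 : f.1 0 a0 = 0 := f.2.1
  have h1 := hf.2.1 x 0 a
  have h2 := hf.2.2 0 a a0
  rw [sub_zero] at h1
  rw [h0, sub_zero] at h2
  have h3 : |f.1 x a| ≤ |f.1 x a - f.1 0 a| + |f.1 0 a| := by
    have := abs_add_le (f.1 x a - f.1 0 a) (f.1 0 a)
    rwa [sub_add_cancel] at this
  linarith

theorem pn_bdd (m : (ℝ × A0) →₀ (J → ℝ)) : BddAbove (Set.range fun x : UB A0 a0 × J => |ev x.1.1 x.2 m|) := by
  refine ⟨∑ s ∈ m.support, (|s.1| + |(s.2 : ℝ) - a0|) * ∑ j, |m s j|, ?_⟩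
  rintro _ ⟨⟨f, j⟩, rfl⟩
  show |ev f.1 j m| ≤ _
  rw [ev_apply]
  refine (Finset.abs_sum_le_sum_abs _ _).trans (Finset.sum_le_sum fun s _ => ?_)
  rw [abs_mul]
  have h1 := lx_abs_le f.2 s.1 s.2
  rw [one_mul] at h1
  exact mul_le_mul h1 (Finset.single_le_sum (f := fun j => |m s j|) (fun _ _ => abs_nonneg _) (Finset.mem_univ j))
    (abs_nonneg _) (by positivity)

theorem ev_le_pn (f : LX A0 a0) (hf : lipB 1 f.1) (j : J) (m : (ℝ × A0) →₀ (J → ℝ)) :
    |ev f j m| ≤ pn (a0 := a0) m :=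
  le_ciSup (pn_bdd m) ((⟨f, hf⟩, j) : UB A0 a0 × J)

theorem pn_nonneg (m : (ℝ × A0) →₀ (J → ℝ)) : 0 ≤ pn (a0 := a0) m :=
  Real.iSup_nonneg fun _ => abs_nonneg _

theorem pn_le {m : (ℝ × A0) →₀ (J → ℝ)} {c : ℝ} (hc : 0 ≤ c)
    (h : ∀ (f : LX A0 a0) (j : J), lipB 1 f.1 → |ev f j m| ≤ c) : pn (a0 := a0) m ≤ c :=
  Real.iSup_le (fun x => h x.1.1 x.2 x.1.2) hc

theorem pn_smul (c : ℝ) (hc : 0 < c) (m : (ℝ × A0) →₀ (J → ℝ)) : pn (a0 := a0) (c • m) = c * pn (a0 := a0) m := by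
  unfold pn
  rw [Real.mul_iSup_of_nonneg hc.le]
  congr 1
  funext x
  rw [map_smul, smul_eq_mul, abs_mul, abs_of_pos hc]

theorem pn_add (m m' : (ℝ × A0) →₀ (J → ℝ)) : pn (a0 := a0) (m + m') ≤ pn (a0 := a0) m + pn (a0 := a0) m' := by
  refine pn_le (add_nonneg (pn_nonneg m) (pn_nonneg m')) fun f j hf => ?_
  rw [map_add]
  exact (abs_add_le _ _).trans (add_le_add (ev_le_pn f hf j m) (ev_le_pn f hf j m'))

/-- valid pairs with their distance -/
def Vp (A0 : Set ℝ) : Type := {q : (ℝ × A0) × (ℝ × A0) × ℝ // 0 < q.2.2 ∧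
  ((q.1.2 = q.2.1.2 ∧ |q.1.1 - q.2.1.1| = q.2.2) ∨ (q.1.1 = q.2.1.1 ∧ |(q.1.2 : ℝ) - q.2.1.2| = q.2.2))}

theorem vp_le {c : ℝ} {f : ℝ → A0 → ℝ} (hf : lipB c f) (v : Vp A0) :
    |f v.1.1.1 v.1.1.2 - f v.1.2.1.1 v.1.2.1.2| ≤ c * v.1.2.2 := by
  obtain ⟨⟨⟨x, a⟩, ⟨x', a'⟩, d⟩, hd, h⟩ := v
  simp only at hd h ⊢
  rcases h with ⟨h1, h2⟩ | ⟨h1, h2⟩
  · subst h1
    rw [← h2]
    exact hf.2.1 x x' a
  · subst h1
    rw [← h2]
    exact hf.2.2 x a a'

theorem f1 (X : Submodule ℝ (J → ℝ))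
    (u : J → LX A0 a0) (k0 : ℝ) (hk0 : 0 ≤ k0)
    (h : ∀ (S : Finset (ℝ × A0)) (mm : ℝ × A0 → J → ℝ), (∀ s ∈ S, mm s ∈ X) →
      (∀ f : LX A0 a0, lipB 1 f.1 → ∀ j, |∑ s ∈ S, f.1 s.1 s.2 * mm s j| ≤ 1) →
      |∑ s ∈ S, ∑ j, mm s j * (u j).1 s.1 s.2| ≤ k0)
    (A : LX A0 a0 →ₗ[ℝ] (J → ℝ)) (hA : ∀ f, A f ∈ X) (a : ℝ) (ha : 0 ≤ a)
    (hA1 : ∀ (f : LX A0 a0) (c : ℝ), lipB c f.1 → ∀ j, |A f j| ≤ a * c) :
    |∑ j, A (u j) j| ≤ a * k0 := by
  classical
  -- the functional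
  set Fu : ((ℝ × A0) →₀ (J → ℝ)) →ₗ[ℝ] ℝ :=
    Finsupp.lsum ℝ fun s => ∑ j, ((u j).1 s.1 s.2) • (LinearMap.proj j : (J → ℝ) →ₗ[ℝ] ℝ) with hFu
  have hFa : ∀ m, Fu m = ∑ s ∈ m.support, ∑ j, m s j * (u j).1 s.1 s.2 := by
    intro m
    rw [hFu, Finsupp.lsum_apply, Finsupp.sum]
    refine Finset.sum_congr rfl fun s _ => ?_
    rw [LinearMap.sum_apply]
    refine Finset.sum_congr rfl fun j _ => ?_
    rw [LinearMap.smul_apply, LinearMap.proj_apply, smul_eq_mul, mul_comm]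
  have hFs : ∀ s z, Fu (Finsupp.single s z) = ∑ j, z j * (u j).1 s.1 s.2 := by
    intro s z
    rw [hFu, Finsupp.lsum_single, LinearMap.sum_apply]
    refine Finset.sum_congr rfl fun j _ => ?_
    rw [LinearMap.smul_apply, LinearMap.proj_apply, smul_eq_mul, mul_comm]
  let WX : Submodule ℝ ((ℝ × A0) →₀ (J → ℝ)) :=
    { carrier := {m | ∀ s, m s ∈ X}
      add_mem' := fun {m m'} hm hm' s => by
        rw [Finsupp.add_apply]
        exact X.add_mem (hm s) (hm' s)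
      zero_mem' := fun s => by
        rw [Finsupp.zero_apply]
        exact X.zero_mem
      smul_mem' := fun c m hm s => by
        rw [Finsupp.smul_apply]
        exact X.smul_mem c (hm s) }
  have hbound : ∀ m ∈ WX, Fu m ≤ k0 * pn (a0 := a0) m := by
    intro m hm
    have key : ∀ δ : ℝ, 0 < δ → Fu m ≤ k0 * (pn (a0 := a0) m + δ) := by
      intro δ hδ
      set r : ℝ := pn (a0 := a0) m + δ with hr
      have hr0 : 0 < r := by
        have := pn_nonneg (a0 := a0) m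
        linarith
      have h1 := h m.support (fun s => r⁻¹ • m s) (fun s _ => X.smul_mem _ (hm s)) (by
        intro f hf j
        have e1 : ∑ s ∈ m.support, f.1 s.1 s.2 * (r⁻¹ • m s) j = r⁻¹ * ev f j m := by
          rw [ev_apply, Finset.mul_sum]
          refine Finset.sum_congr rfl fun s _ => ?_
          rw [Pi.smul_apply, smul_eq_mul]
          ring
        rw [e1, abs_mul, abs_of_pos (inv_pos.2 hr0)]
        have h2 := ev_le_pn f hf j m
        rw [inv_mul_le_iff₀ hr0, mul_one]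
        linarith)
      have e2 : ∑ s ∈ m.support, ∑ j, (r⁻¹ • m s) j * (u j).1 s.1 s.2 = r⁻¹ * Fu m := by
        rw [hFa, Finset.mul_sum]
        refine Finset.sum_congr rfl fun s _ => ?_
        rw [Finset.mul_sum]
        refine Finset.sum_congr rfl fun j _ => ?_
        rw [Pi.smul_apply, smul_eq_mul]
        ring
      rw [e2, abs_mul, abs_of_pos (inv_pos.2 hr0), inv_mul_le_iff₀ hr0] at h1
      rw [mul_comm k0]
      exact (le_abs_self _).trans h1
    refine le_of_forall_pos_le_add fun ε hε => ?_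
    have h1 := key (ε / (k0 + 1)) (by positivity)
    have h2 : k0 * (ε / (k0 + 1)) ≤ ε := by
      rw [← mul_div_assoc, div_le_iff₀ (by linarith)]
      nlinarith
    linarith
  obtain ⟨g, hg1, hg2⟩ := exists_extension_of_le_sublinear (⟨WX, Fu.comp WX.subtype⟩ : ((ℝ × A0) →₀ (J → ℝ)) →ₗ.[ℝ] ℝ)
    (fun m => k0 * pn (a0 := a0) m) (fun c hc m => by rw [pn_smul c hc]; ring)
    (fun m m' => by
      rw [← mul_add]
      exact mul_le_mul_of_nonneg_left (pn_add m m') hk0)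
    (fun m => hbound m.1 m.2)
  have hg1' : ∀ m ∈ WX, g m = Fu m := fun m hm => hg1 ⟨m, hm⟩
  -- the functions
  set e : J → J → ℝ := fun j => Pi.single j 1 with he
  have hee : ∀ j j' : J, e j j' = if j' = j then 1 else 0 := by
    intro j j'
    rw [he]
    simp only [Pi.single_apply]
  set G : J → ℝ → A0 → ℝ := fun j x a => g (Finsupp.single (x, a) (e j)) with hG
  -- difference quotients
  set qv : J → Vp A0 → ((ℝ × A0) →₀ (J → ℝ)) := fun j v =>
    (v.1.2.2)⁻¹ • (Finsupp.single v.1.1 (e j) - Finsupp.single v.1.2.1 (e j)) with hqv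
  have hq_ev : ∀ j v (f : LX A0 a0) j', ev f j' (qv j v) =
      if j' = j then (v.1.2.2)⁻¹ * (f.1 v.1.1.1 v.1.1.2 - f.1 v.1.2.1.1 v.1.2.1.2) else 0 := by
    intro j v f j'
    rw [hqv]
    simp only
    rw [map_smul, map_sub, ev_single, ev_single, hee, smul_eq_mul]
    split_ifs <;> ring
  have hsum_le : ∀ v : J → Vp A0, ∑ j, g (qv j (v j)) ≤ k0 := by
    intro v
    rw [← map_sum]
    refine (hg2 _).trans ?_
    have h1 : pn (a0 := a0) (∑ j, qv j (v j)) ≤ 1 := by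
      refine pn_le zero_le_one fun f j' hf => ?_
      rw [map_sum]
      simp only [hq_ev]
      rw [Finset.sum_ite_eq, if_pos (Finset.mem_univ _), abs_mul, abs_of_pos (inv_pos.2 (v j').2.1),
        inv_mul_le_iff₀ (v j').2.1, mul_one]
      have := vp_le hf (v j')
      rwa [one_mul] at this
    calc k0 * pn (a0 := a0) (∑ j, qv j (v j)) ≤ k0 * 1 := mul_le_mul_of_nonneg_left h1 hk0
      _ = k0 := mul_one _
  -- swap
  have hswap : ∀ v : Vp A0, ∃ v' : Vp A0, ∀ j, g (qv j v') = - g (qv j v) := by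
    rintro ⟨⟨s, t, d⟩, hd, h⟩
    refine ⟨⟨(t, s, d), hd, ?_⟩, fun j => ?_⟩
    · simp only at h ⊢
      rcases h with ⟨h1, h2⟩ | ⟨h1, h2⟩
      · exact Or.inl ⟨h1.symm, by rw [abs_sub_comm]; exact h2⟩
      · exact Or.inr ⟨h1.symm, by rw [abs_sub_comm]; exact h2⟩
    · rw [hqv]
      simp only
      rw [← map_neg, ← smul_neg, neg_sub]
  -- single bound
  have hone : ∀ j v, g (qv j v) ≤ k0 := by
    intro j v
    refine (hg2 _).trans ?_
    have h1 : pn (a0 := a0) (qv j v) ≤ 1 := by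
      refine pn_le zero_le_one fun f j' hf => ?_
      rw [hq_ev]
      split_ifs
      · rw [abs_mul, abs_of_pos (inv_pos.2 v.2.1), inv_mul_le_iff₀ v.2.1, mul_one]
        have := vp_le hf v
        rwa [one_mul] at this
      · rw [abs_zero]
        exact zero_le_one
    calc k0 * pn (a0 := a0) (qv j v) ≤ k0 * 1 := mul_le_mul_of_nonneg_left h1 hk0
      _ = k0 := mul_one _
  have hne : Nonempty (Vp A0) := ⟨⟨((1, a0), (0, a0), 1), one_pos, Or.inl ⟨rfl, by norm_num⟩⟩⟩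
  set c : J → ℝ := fun j => ⨆ v : Vp A0, g (qv j v) with hc
  have hbdd : ∀ j, BddAbove (Set.range fun v : Vp A0 => g (qv j v)) := by
    intro j
    refine ⟨k0, ?_⟩
    rintro _ ⟨v, rfl⟩
    exact hone j v
  have hle : ∀ j v, |g (qv j v)| ≤ c j := by
    intro j v
    obtain ⟨v', hv'⟩ := hswap v
    rw [abs_le']
    refine ⟨le_ciSup (hbdd j) v, ?_⟩
    rw [← hv' j]
    exact le_ciSup (hbdd j) v'
  have hcn : ∀ j, 0 ≤ c j := fun j => (abs_nonneg _).trans (hle j hne.some)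
  have hG_diff : ∀ j (v : Vp A0), |G j v.1.1.1 v.1.1.2 - G j v.1.2.1.1 v.1.2.1.2| ≤ c j * v.1.2.2 := by
    intro j v
    have h1 := hle j v
    rw [hqv] at h1
    simp only at h1
    rw [map_smul, map_sub, smul_eq_mul, abs_mul, abs_of_pos (inv_pos.2 v.2.1), inv_mul_le_iff₀ v.2.1] at h1
    rw [mul_comm]
    exact h1
  have hGlip : ∀ j, lipB (c j) (G j) := by
    intro j
    refine ⟨hcn j, fun x x' a => ?_, fun x a a' => ?_⟩
    · by_cases hx : x = x'
      · subst hx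
        simp
      · have hd : 0 < |x - x'| := abs_pos.2 (sub_ne_zero.2 hx)
        exact hG_diff j ⟨((x, a), (x', a), |x - x'|), hd, Or.inl ⟨rfl, rfl⟩⟩
    · by_cases hx : (a : ℝ) = a'
      · have : a = a' := Subtype.ext hx
        subst this
        simp
      · have hd : 0 < |(a : ℝ) - a'| := abs_pos.2 (sub_ne_zero.2 hx)
        exact hG_diff j ⟨((x, a), (x, a'), |(a : ℝ) - a'|), hd, Or.inr ⟨rfl, rfl⟩⟩
  have hG0 : ∀ j, G j 0 a0 = 0 := by
    intro j
    have h1 : ∀ z : J → ℝ, g (Finsupp.single ((0 : ℝ), a0) z) ≤ 0 := by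
      intro z
      refine (hg2 _).trans ?_
      have h2 : pn (a0 := a0) (Finsupp.single ((0 : ℝ), a0) z) ≤ 0 := by
        refine pn_le le_rfl fun f j' _ => ?_
        rw [ev_single]
        have h3 : f.1 0 a0 = 0 := f.2.1
        show |f.1 0 a0 * z j'| ≤ 0
        rw [h3, zero_mul, abs_zero]
      calc k0 * pn (a0 := a0) (Finsupp.single ((0 : ℝ), a0) z) ≤ k0 * 0 := mul_le_mul_of_nonneg_left h2 hk0
        _ = 0 := mul_zero _
    have h2 := h1 (e j)
    have h3 := h1 (-e j)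
    rw [Finsupp.single_neg, map_neg] at h3
    show g (Finsupp.single ((0 : ℝ), a0) (e j)) = 0
    linarith
  set Gx : J → LX A0 a0 := fun j => ⟨G j, hG0 j, c j, hGlip j⟩ with hGx
  -- the sum of the Lipschitz constants
  have hsumc : ∑ j, c j ≤ k0 := by
    refine le_of_forall_pos_le_add fun ε hε => ?_
    set ε' : ℝ := ε / (Fintype.card J + 1) with hε'
    have hε0 : 0 < ε' := by positivity
    have h1 : ∀ j, ∃ v : Vp A0, c j - ε' < g (qv j v) := by
      intro j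
      exact exists_lt_of_lt_ciSup (show c j - ε' < ⨆ v : Vp A0, g (qv j v) by
        show c j - ε' < c j
        linarith)
    choose v hv using h1
    have h2 := hsum_le v
    have h3 : ∑ j, (c j - ε') ≤ ∑ j, g (qv j (v j)) := Finset.sum_le_sum fun j _ => (hv j).le
    rw [Finset.sum_sub_distrib, Finset.sum_const, Finset.card_univ, nsmul_eq_mul] at h3
    have h4 : (Fintype.card J : ℝ) * ε' ≤ ε := by
      rw [hε', ← mul_div_assoc, div_le_iff₀ (by positivity)]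
      nlinarith
    linarith
  -- the relation
  have hrel : ∀ x ∈ X, ∑ j, x j • (Gx j - u j) = 0 := by
    intro x hx
    apply Subtype.ext
    funext t b
    have h1 : (∑ j, x j • (Gx j - u j) : LX A0 a0).1 t b = ∑ j, x j * (G j t b - (u j).1 t b) := by
      rw [AddSubmonoidClass.coe_finsetSum, Finset.sum_apply, Finset.sum_apply]
      rfl
    rw [h1]
    show _ = (0 : ℝ)
    have h2 := hg1' (Finsupp.single (t, b) x) (by
      intro s
      by_cases hs : s = (t, b)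
      · rw [hs, Finsupp.single_eq_same]
        exact hx
      · rw [Finsupp.single_eq_of_ne hs]
        exact X.zero_mem)
    rw [hFs] at h2
    have h3 : (Finsupp.single (t, b) x : (ℝ × A0) →₀ (J → ℝ)) = ∑ j, x j • Finsupp.single (t, b) (e j) := by
      have h4 : x = ∑ j, x j • e j := by
        funext i
        rw [Finset.sum_apply]
        simp only [Pi.smul_apply, hee, smul_eq_mul, mul_ite, mul_one, mul_zero]
        rw [Finset.sum_ite_eq, if_pos (Finset.mem_univ _)]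
      conv_lhs => rw [h4]
      change (Finsupp.lsingle (R := ℝ) (t, b) : (J → ℝ) →ₗ[ℝ] ((ℝ × A0) →₀ (J → ℝ))) (∑ j, x j • e j) = _
      rw [map_sum]
      refine Finset.sum_congr rfl fun j _ => ?_
      rw [map_smul]
      rfl
    rw [h3, map_sum] at h2
    simp only [map_smul, smul_eq_mul] at h2
    simp only [mul_sub]
    rw [Finset.sum_sub_distrib]
    show ∑ j, x j * g (Finsupp.single (t, b) (e j)) - _ = 0
    rw [h2, sub_self]
  have hfin := trace_zero X A hA (fun j => Gx j - u j) hrel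
  simp only [map_sub, Pi.sub_apply] at hfin
  rw [Finset.sum_sub_distrib] at hfin
  have h5 : ∑ j, A (u j) j = ∑ j, A (Gx j) j := by linarith
  rw [h5]
  calc |∑ j, A (Gx j) j| ≤ ∑ j, |A (Gx j) j| := Finset.abs_sum_le_sum_abs _ _
    _ ≤ ∑ j, a * c j := Finset.sum_le_sum fun j _ => hA1 (Gx j) (c j) (hGlip j) j
    _ = a * ∑ j, c j := by rw [Finset.mul_sum]
    _ ≤ a * k0 := mul_le_mul_of_nonneg_left hsumc ha

end

end H46RF
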