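import Pool.Agent.H46.RF.Fone
import Pool.Agent.H46.RF.Lf
import Pool.Agent.H50.RC.EF

/-!
S05864 [H46 RF FTR]: F1 for operators with values in `Xs N K m`.
-/

set_option autoImplicit false

namespace H46RF

open H50RC H50LP

/-- real or imaginary part -/
def prt (z : ℂ) : Bool → ℝ
  | false => z.re
  | true => z.im

theorem prt_dt (u v : ℂ) : ∑ i : Bool, prt u i * prt v i = dt u v := by
  rw [Fintype.sum_bool]
  unfold prt dt
  ring

/-- coordinates of the leaf values -/
noncomputable def coL (N K : ℕ) : Y N →ₗ[ℝ] ({g // g ∈ lev N K} × Bool → ℝ) where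
  toFun y := fun j => prt (y j.1.1) j.2
  map_add' y z := by
    funext j
    rcases j with ⟨g, i⟩
    cases i
    · exact Complex.add_re _ _
    · exact Complex.add_im _ _
  map_smul' c y := by
    funext j
    rcases j with ⟨g, i⟩
    cases i
    · show (c • y g.1).re = c * (y g.1).re
      exact Complex.smul_re _ _
    · show (c • y g.1).im = c * (y g.1).im
      exact Complex.smul_im _ _

theorem coL_apply {N K : ℕ} (y : Y N) (g : {g // g ∈ lev N K}) (i : Bool) : coL N K y (g, i) = prt (y g.1) i := rfl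

/-- the functions `u` -/
theorem sum_coL {N K m : ℕ} {y : Y N} (hy : y ∈ Vs N K) (c : Nd N → ℝ) :
    ∑ j : {g // g ∈ lev N K} × Bool, coL N K y j *
      (∑ w ∈ nds N K, if w <:+ j.1.1 then prt (dir m w.length) j.2 * c w else 0) =
      ∑ w ∈ nds N K, c w * dt (dir m w.length) (y w) := by
  have h1 : ∀ w ∈ nds N K, c w * dt (dir m w.length) (y w) =
      ∑ j : {g // g ∈ lev N K} × Bool, if w <:+ j.1.1 then coL N K y j * (prt (dir m w.length) j.2 * c w) else 0 := by
    intro w hw
    rw [vs_eq_sum hy (mem_nds.1 hw).2, dt_sum_right, Finset.mul_sum, Fintype.sum_prod_type,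
      ← Finset.sum_coe_sort (lev N K)]
    refine Finset.sum_congr rfl fun g _ => ?_
    by_cases h : w <:+ g.1
    · simp only [if_pos h]
      rw [← prt_dt, Finset.mul_sum]
      refine Finset.sum_congr rfl fun i _ => ?_
      rw [coL_apply]
      ring
    · simp only [if_neg h, dt_zero_right, mul_zero, Finset.sum_const_zero]
  rw [Finset.sum_congr rfl h1, Finset.sum_comm]
  refine Finset.sum_congr rfl fun j _ => ?_
  rw [Finset.mul_sum]
  refine Finset.sum_congr rfl fun w _ => ?_
  rw [mul_ite, mul_zero]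

theorem red_of_fin {N K m : ℕ} (hN : 1 ≤ N) (f : Nd N → LX cA cA0) (k0 : ℝ) (hk0 : 0 ≤ k0)
    (h : ∀ (S : Finset (ℝ × cA)) (y : ℝ × cA → Y N), (∀ s ∈ S, y s ∈ Xs N K m) →
      (∀ φ : LX cA cA0, lipB 1 φ.1 → ∀ g ∈ lev N K,
        |(∑ s ∈ S, φ.1 s.1 s.2 • y s g).re| ≤ 1 ∧ |(∑ s ∈ S, φ.1 s.1 s.2 • y s g).im| ≤ 1) →
      |∑ s ∈ S, pr K m (fun w => (f w).1 s.1 s.2) (y s)| ≤ k0 * (N : ℝ) ^ K)
    (A : LX cA cA0 →ₗ[ℝ] Y N) (a : ℝ) (ha : 0 ≤ a) (hAX : ∀ φ, A φ ∈ Xs N K m)
    (hA : ∀ (φ : LX cA cA0) (c : ℝ), lipB c φ.1 → ∀ g ∈ lev N K, ‖A φ g‖ ≤ a * c) :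
    |((N : ℝ) ^ K)⁻¹ * ∑ w ∈ nds N K, dt (dir m w.length) (A (f w) w)| ≤ a * k0 := by
  classical
  have hN0 : (0 : ℝ) < (N : ℝ) ^ K := by
    have : (0 : ℝ) < N := by exact_mod_cast hN
    positivity
  set q : ℝ := ((N : ℝ) ^ K)⁻¹ with hq
  have hq0 : 0 < q := by positivity
  -- the functions u
  let u : {g // g ∈ lev N K} × Bool → LX cA cA0 := fun j =>
    ∑ w ∈ nds N K, (if w <:+ j.1.1 then q * prt (dir m w.length) j.2 else 0) • f w
  have hu : ∀ j x (t : cA), (u j).1 x t = ∑ w ∈ nds N K, (if w <:+ j.1.1 then prt (dir m w.length) j.2 * (q * (f w).1 x t) else 0) := by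
    intro j x t
    have e : (u j).1 = ∑ w ∈ nds N K, (if w <:+ j.1.1 then q * prt (dir m w.length) j.2 else 0) • (f w).1 := by
      show ((∑ w ∈ nds N K, (if w <:+ j.1.1 then q * prt (dir m w.length) j.2 else 0) • f w : LX cA cA0) :
        ℝ → cA → ℝ) = _
      rw [Submodule.coe_sum]
      rfl
    rw [e, Finset.sum_apply, Finset.sum_apply]
    refine Finset.sum_congr rfl fun w _ => ?_
    show (if w <:+ j.1.1 then q * prt (dir m w.length) j.2 else 0) * (f w).1 x t = _
    split_ifs
    · ring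
    · ring
  have hlin : ∀ y ∈ Vs N K, ∀ x (t : cA), ∑ j, coL N K y j * (u j).1 x t = q * pr K m (fun w => (f w).1 x t) y := by
    intro y hy x t
    rw [Finset.sum_congr rfl fun j _ => by rw [hu j x t]]
    rw [sum_coL (m := m) hy (fun w => q * (f w).1 x t)]
    unfold pr
    rw [Finset.mul_sum]
    refine Finset.sum_congr rfl fun w _ => ?_
    ring
  have key := f1 ((Xs N K m).map (coL N K)) u k0 hk0 ?_ ((coL N K).comp A) ?_ a ha ?_
  · -- identification of the trace
    have h1 : ∑ j, ((coL N K).comp A) (u j) j = q * ∑ w ∈ nds N K, dt (dir m w.length) (A (f w) w) := by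
      have h2 : ∀ j, ((coL N K).comp A) (u j) j =
          ∑ w ∈ nds N K, (if w <:+ j.1.1 then q * prt (dir m w.length) j.2 else 0) * coL N K (A (f w)) j := by
        intro j
        have e : A (u j) = ∑ w ∈ nds N K, (if w <:+ j.1.1 then q * prt (dir m w.length) j.2 else 0) • A (f w) := by
          show A (∑ w ∈ nds N K, _ • f w) = _
          rw [map_sum]
          exact Finset.sum_congr rfl fun w _ => map_smul _ _ _
        rw [LinearMap.comp_apply, e, map_sum, Finset.sum_apply]
        refine Finset.sum_congr rfl fun w _ => ?_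
        rw [map_smul]
        rfl
      rw [Finset.sum_congr rfl fun j _ => h2 j, Finset.sum_comm, Finset.mul_sum]
      refine Finset.sum_congr rfl fun w hw => ?_
      have h3 := sum_coL (m := m) (hAX (f w)).1 (fun w' => if w' = w then q else 0)
      rw [Finset.sum_eq_single w (fun w' _ hne => by rw [if_neg hne, zero_mul]) (fun hn => absurd hw hn), if_pos rfl] at h3
      rw [← h3]
      refine Finset.sum_congr rfl fun j _ => ?_
      rw [Finset.sum_eq_single w (fun w' _ hne => by rw [if_neg hne, mul_zero, ite_self]) (fun hn => absurd hw hn), if_pos rfl]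
      split_ifs
      · ring
      · ring
    rw [h1] at key
    exact key
  · intro S mm hmm hf
    have hy : ∀ s : ℝ × cA, ∃ y : Y N, s ∈ S → y ∈ Xs N K m ∧ coL N K y = mm s := by
      intro s
      by_cases hs : s ∈ S
      · obtain ⟨y, hy, hy2⟩ := hmm s hs
        exact ⟨y, fun _ => ⟨hy, hy2⟩⟩
      · exact ⟨0, fun hn => absurd hn hs⟩
    choose y hy using hy
    have h1 := h S y (fun s hs => (hy s hs).1) ?_
    · have h2 : ∑ s ∈ S, ∑ j, mm s j * (u j).1 s.1 s.2 = q * ∑ s ∈ S, pr K m (fun w => (f w).1 s.1 s.2) (y s) := by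
        rw [Finset.mul_sum]
        refine Finset.sum_congr rfl fun s hs => ?_
        rw [← (hy s hs).2]
        exact hlin (y s) (hy s hs).1.1 s.1 s.2
      rw [h2, abs_mul, abs_of_pos hq0]
      calc q * _ ≤ q * (k0 * (N : ℝ) ^ K) := mul_le_mul_of_nonneg_left h1 hq0.le
        _ = k0 := by
          rw [hq]
          field_simp
    · intro φ hφ g hg
      have h3 : ∀ i : Bool, |prt (∑ s ∈ S, φ.1 s.1 s.2 • y s g) i| ≤ 1 := by
        intro i
        have h4 := hf φ hφ (⟨g, hg⟩, i)
        have h5 : ∑ s ∈ S, φ.1 s.1 s.2 * mm s (⟨g, hg⟩, i) = prt (∑ s ∈ S, φ.1 s.1 s.2 • y s g) i := by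
          have h6 : coL N K (∑ s ∈ S, φ.1 s.1 s.2 • y s) (⟨g, hg⟩, i) = ∑ s ∈ S, φ.1 s.1 s.2 * mm s (⟨g, hg⟩, i) := by
            rw [map_sum, Finset.sum_apply]
            refine Finset.sum_congr rfl fun s hs => ?_
            rw [map_smul, (hy s hs).2]
            rfl
          rw [← h6, coL_apply, Finset.sum_apply]
          rfl
        rw [h5] at h4
        exact h4
      exact ⟨h3 false, h3 true⟩
  · intro v
    exact ⟨A v, hAX v, rfl⟩
  · intro φ c hφ j
    rcases j with ⟨g, i⟩
    have h1 := hA φ c hφ g.1 g.2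
    rw [LinearMap.comp_apply, coL_apply]
    refine le_trans ?_ h1
    cases i
    · exact Complex.abs_re_le_norm _
    · exact Complex.abs_im_le_norm _

end H46RF
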