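import Pool.Agent.H46.RF.Defs

/-!
S05864 [H46 RF GL]: a function on the grid with edge slopes at most 1 is Lipschitz (F2 of proofs 322).

Proof of `grid_lip`.
(a) Horizontal: `|φ(Y/q_n) T - φ(Y'/q_n) T| ≤ |Y - Y'|/q_n` for `T ⊆ range n`, `Y, Y' ≤ P q_n` (chain of horizontal edges `(n, Z, T)`; each one `≤ 1/q_n`).
(b) For `i < n`, `T ⊆ range i`, `Y ≤ P q_n`: `|φ(Y/q_n) (insert i T) - φ(Y/q_n) T| ≤ 3 a_(i+1)`: with `r = q_n / q_(i+1)` and `Z = Y / r` (natural division) the point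
`Z/q_(i+1) = (Z r)/q_n` is at distance `≤ 1/q_(i+1) = a_(i+1)`; move there by (a) on both lines and cross the vertical edge `(i, Z, T)` (`Z ≤ P q_(i+1)`), cost `a_(i+1)`.
(c) For `T ⊆ range n`, `i ≤ n`: `|φ(Y/q_n) T - φ(Y/q_n) (ct i T)| ≤ 6 a_(i+1)`: downward induction on `i` from `n`: `ct (i+1) T` is `ct i T` or `insert i (ct i T)`;
`3 a_(i+1) + 6 a_(i+2) ≤ 6 a_(i+1)` as `a_(i+2) ≤ a_(i+1)/4`.
(d) `T ≠ T'`: let `i` be the smallest element of the symmetric difference; `ct i T = ct i T'`; by (c) `|φ(Y/q_n) T - φ(Y/q_n) T'| ≤ 12 a_(i+1)`; and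
`|vl T - vl T'| ≥ a_(i+1) - ∑_(k>i) a_(k+1) ≥ a_(i+1)/2` (`vl_sep`; `aa_le (n := i + 1)`: `a_(i+2+j) ≤ a_(i+2) 4^(-j)`, sum `≤ (4/3) a_(i+2) ≤ a_(i+1)/3`).
(e) Combine: `|φ(Y/q_n) T - φ(Y'/q_n) T'| ≤ |φ(Y/q_n) T - φ(Y'/q_n) T| + |φ(Y'/q_n) T - φ(Y'/q_n) T'|`.
-/

set_option autoImplicit false

namespace H46RF

open H50RC H50LP

private theorem gl_quarter (k : ℕ) : aa (k + 2) ≤ aa (k + 1) / 4 := by
  rw [aa_succ (k + 1)]
  have h1 : (2 : ℝ)⁻¹ ^ (k + 1 + 1) ≤ 1 / 4 := by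
    rw [pow_succ, pow_succ]
    have : (2 : ℝ)⁻¹ ^ k ≤ 1 := pow_le_one₀ (by norm_num) (by norm_num)
    linarith
  have h2 := mul_le_mul_of_nonneg_left h1 (aa_pos (k + 1)).le
  linarith

theorem sum_aa_tail (i : ℕ) (S : Finset ℕ) (hS : ∀ k ∈ S, i < k) : ∑ k ∈ S, aa (k + 1) ≤ aa (i + 1) / 2 := by
  have h1 : ∀ m : ℕ, ∑ j ∈ Finset.range m, aa (i + 1 + j + 1) ≤ (aa (i + 1) - aa (i + 1 + m)) / 3 := by
    intro m
    induction m with
    | zero => simp
    | succ m ih =>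
      rw [Finset.sum_range_succ]
      have h2 := gl_quarter (i + m)
      have e1 : i + m + 2 = i + 1 + m + 1 := by ring
      have e2 : i + m + 1 = i + 1 + m := by ring
      have e3 : i + 1 + (m + 1) = i + 1 + m + 1 := by ring
      rw [e1, e2] at h2
      rw [e3]
      linarith
  have h2 : S ⊆ Finset.Ico (i + 1) (S.sup id + 1) := by
    intro k hk
    rw [Finset.mem_Ico]
    have h3 := hS k hk
    have h4 : k ≤ S.sup id := Finset.le_sup (f := id) hk
    omega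
  have h3 : ∑ k ∈ S, aa (k + 1) ≤ ∑ k ∈ Finset.Ico (i + 1) (S.sup id + 1), aa (k + 1) :=
    Finset.sum_le_sum_of_subset_of_nonneg h2 fun k _ _ => (aa_pos _).le
  rw [Finset.sum_Ico_eq_sum_range] at h3
  have h4 := h1 (S.sup id + 1 - (i + 1))
  have h5 := aa_pos (i + 1)
  have h6 := aa_pos (i + 1 + (S.sup id + 1 - (i + 1)))
  linarith

/-- the sum over the digits before, at and after `i` -/
private theorem gl_split (i : ℕ) (T : Finset ℕ) :
    vl T = vl (ct i T) + (if i ∈ T then aa (i + 1) else 0) + ∑ k ∈ T.filter (fun k => i < k), aa (k + 1) := by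
  unfold vl ct
  rw [Finset.sum_filter, Finset.sum_filter]
  have h1 : (if i ∈ T then aa (i + 1) else 0) = ∑ k ∈ T, (if i = k then aa (k + 1) else 0) := by
    rw [Finset.sum_ite_eq]
  rw [h1, ← Finset.sum_add_distrib, ← Finset.sum_add_distrib]
  refine Finset.sum_congr rfl fun k _ => ?_
  rcases lt_trichotomy k i with h | h | h
  · rw [if_pos h, if_neg (by omega), if_neg (by omega)]
    ring
  · subst h
    rw [if_neg (lt_irrefl k), if_pos rfl]
    ring
  · rw [if_neg (by omega), if_neg (by omega), if_pos h]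
    ring

theorem vl_sep {i : ℕ} {T T' : Finset ℕ} (h : ct i T = ct i T') (h1 : i ∈ T) (h2 : i ∉ T') :
    aa (i + 1) / 2 ≤ vl T - vl T' := by
  rw [gl_split i T, gl_split i T', if_pos h1, if_neg h2, h]
  have h3 : 0 ≤ ∑ k ∈ T.filter (fun k => i < k), aa (k + 1) :=
    Finset.sum_nonneg fun k _ => (aa_pos _).le
  have h4 := sum_aa_tail i (T'.filter (fun k => i < k)) fun k hk => (Finset.mem_filter.1 hk).2
  linarith

private theorem gl_h {P n : ℕ} {φ : ℝ → Finset ℕ → ℝ}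
    (hφ : ∀ i X T, (i, X, T) ∈ ed P n → |DD n φ i X T| ≤ 1) {T : Finset ℕ} (hT : T ⊆ Finset.range n)
    (Y m : ℕ) : Y + m ≤ P * qq n → |φ (((Y + m : ℕ) : ℝ) / qq n) T - φ ((Y : ℝ) / qq n) T| ≤ m * aa n := by
  induction m with
  | zero => intro _; simp
  | succ m ih =>
    intro hm
    have h1 := ih (by omega)
    have h2 := hφ n (Y + m) T (by
      rw [mem_ed]
      refine ⟨le_rfl, ?_, hT⟩
      unfold npos
      rw [if_neg (lt_irrefl n)]
      omega)
    unfold DD Dh at h2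
    rw [if_neg (lt_irrefl n), smul_eq_mul, abs_mul, abs_of_pos (qq_posR n)] at h2
    have h3 : |φ ((((Y + m : ℕ) : ℝ) + 1) / qq n) T - φ (((Y + m : ℕ) : ℝ) / qq n) T| ≤ aa n := by
      rw [aa_eq, ← one_div, le_div_iff₀ (qq_posR n)]
      linarith
    have h4 : ((Y + (m + 1) : ℕ) : ℝ) = ((Y + m : ℕ) : ℝ) + 1 := by
      push_cast
      ring
    rw [h4]
    have h5 := abs_sub_le (φ ((((Y + m : ℕ) : ℝ) + 1) / qq n) T) (φ (((Y + m : ℕ) : ℝ) / qq n) T)
      (φ ((Y : ℝ) / qq n) T)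
    push_cast at h1 h3 h5 ⊢
    linarith

/-- (a) -/
private theorem gl_a {P n : ℕ} {φ : ℝ → Finset ℕ → ℝ}
    (hφ : ∀ i X T, (i, X, T) ∈ ed P n → |DD n φ i X T| ≤ 1) {T : Finset ℕ} (hT : T ⊆ Finset.range n)
    {Y Y' : ℕ} (hY : Y ≤ P * qq n) (hY' : Y' ≤ P * qq n) :
    |φ ((Y : ℝ) / qq n) T - φ ((Y' : ℝ) / qq n) T| ≤ |(Y : ℝ) / qq n - (Y' : ℝ) / qq n| := by
  rcases le_total Y Y' with h | h
  · obtain ⟨m, rfl⟩ := Nat.exists_eq_add_of_le h
    rw [abs_sub_comm]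
    refine (gl_h hφ hT Y m hY').trans (le_of_eq ?_)
    have e : (Y : ℝ) / qq n - ((Y + m : ℕ) : ℝ) / qq n = -(m * aa n) := by
      rw [aa_eq]
      push_cast
      ring
    rw [e, abs_neg, abs_of_nonneg]
    exact mul_nonneg (Nat.cast_nonneg m) (aa_pos n).le
  · obtain ⟨m, rfl⟩ := Nat.exists_eq_add_of_le h
    refine (gl_h hφ hT Y' m hY).trans (le_of_eq ?_)
    have e : ((Y' + m : ℕ) : ℝ) / qq n - (Y' : ℝ) / qq n = m * aa n := by
      rw [aa_eq]
      push_cast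
      ring
    rw [e, abs_of_nonneg]
    exact mul_nonneg (Nat.cast_nonneg m) (aa_pos n).le

private theorem gl_dvd {i n : ℕ} (h : i ≤ n) : qq i ∣ qq n := by
  induction n, h using Nat.le_induction with
  | base => exact dvd_rfl
  | succ n _ ih =>
    rw [qq_succ]
    exact ih.mul_right _

/-- (b) -/
private theorem gl_b {P n : ℕ} {φ : ℝ → Finset ℕ → ℝ}
    (hφ : ∀ i X T, (i, X, T) ∈ ed P n → |DD n φ i X T| ≤ 1) {i : ℕ} (hi : i < n) {T : Finset ℕ}
    (hT : T ⊆ Finset.range i) {Y : ℕ} (hY : Y ≤ P * qq n) :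
    |φ ((Y : ℝ) / qq n) (insert i T) - φ ((Y : ℝ) / qq n) T| ≤ 3 * aa (i + 1) := by
  obtain ⟨r, hr⟩ := gl_dvd (show i + 1 ≤ n from hi)
  have hr0 : 0 < r := by
    rcases Nat.eq_zero_or_pos r with h | h
    · subst h
      have := qq_pos n
      omega
    · exact h
  obtain ⟨Z, hZ⟩ : ∃ Z : ℕ, Z = Y / r := ⟨_, rfl⟩
  have hZ1 : Z * r ≤ Y := by rw [hZ]; exact Nat.div_mul_le_self Y r
  have hZ2 : Y < (Z + 1) * r := by
    rw [hZ]
    exact (Nat.div_lt_iff_lt_mul hr0).1 (Nat.lt_succ_self _)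
  have hZ3 : Z ≤ P * qq (i + 1) := by
    have h1 : Z * r ≤ P * qq (i + 1) * r := by
      rw [mul_assoc, ← hr]
      exact hZ1.trans hY
    exact Nat.le_of_mul_le_mul_right h1 hr0
  have hrR : (0 : ℝ) < r := by exact_mod_cast hr0
  have hq : (qq n : ℝ) = qq (i + 1) * r := by exact_mod_cast hr
  have hZq : (Z : ℝ) / qq (i + 1) = ((Z * r : ℕ) : ℝ) / qq n := by
    have := qq_posR (i + 1)
    rw [hq]
    push_cast
    field_simp
  have hd : |(Y : ℝ) / qq n - ((Z * r : ℕ) : ℝ) / qq n| ≤ aa (i + 1) := by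
    have h1 : ((Z * r : ℕ) : ℝ) ≤ Y := by exact_mod_cast hZ1
    have h2 : (Y : ℝ) ≤ ((Z * r : ℕ) : ℝ) + r := by
      have : Y ≤ Z * r + r := by
        rw [Nat.add_mul, one_mul] at hZ2
        exact hZ2.le
      exact_mod_cast this
    rw [← sub_div, abs_div, abs_of_pos (qq_posR n), abs_of_nonneg (by linarith), aa_eq,
      div_le_iff₀ (qq_posR n), hq, inv_mul_cancel_left₀ (qq_posR (i + 1)).ne']
    linarith
  have hT1 : T ⊆ Finset.range n := fun k hk =>
    Finset.mem_range.2 ((Finset.mem_range.1 (hT hk)).trans hi)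
  have hT2 : insert i T ⊆ Finset.range n :=
    Finset.insert_subset (Finset.mem_range.2 hi) hT1
  have h1 := (gl_a hφ hT1 hY (hZ1.trans hY)).trans hd
  have h2 := (gl_a hφ hT2 hY (hZ1.trans hY)).trans hd
  have h3 := hφ i Z T (by
    rw [mem_ed]
    refine ⟨hi.le, ?_, hT⟩
    unfold npos
    rw [if_pos hi]
    omega)
  unfold DD Dv at h3
  rw [if_pos hi, smul_eq_mul, abs_mul, abs_of_pos (qq_posR (i + 1)), hZq] at h3
  have h4 : |φ (((Z * r : ℕ) : ℝ) / qq n) (insert i T) - φ (((Z * r : ℕ) : ℝ) / qq n) T| ≤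
      aa (i + 1) := by
    rw [aa_eq, ← one_div, le_div_iff₀ (qq_posR (i + 1))]
    linarith
  rw [abs_sub_comm] at h1
  have h5 := abs_sub_le (φ ((Y : ℝ) / qq n) (insert i T))
    (φ (((Z * r : ℕ) : ℝ) / qq n) (insert i T)) (φ ((Y : ℝ) / qq n) T)
  have h6 := abs_sub_le (φ (((Z * r : ℕ) : ℝ) / qq n) (insert i T))
    (φ (((Z * r : ℕ) : ℝ) / qq n) T) (φ ((Y : ℝ) / qq n) T)
  linarith

/-- (c) -/
private theorem gl_c {P n : ℕ} {φ : ℝ → Finset ℕ → ℝ}
    (hφ : ∀ i X T, (i, X, T) ∈ ed P n → |DD n φ i X T| ≤ 1) {T : Finset ℕ}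
    (hT : T ⊆ Finset.range n) {Y : ℕ} (hY : Y ≤ P * qq n) (m : ℕ) : ∀ i : ℕ, i + m = n →
    |φ ((Y : ℝ) / qq n) T - φ ((Y : ℝ) / qq n) (ct i T)| ≤ 6 * aa (i + 1) := by
  induction m with
  | zero =>
    intro i hi
    have h1 : i = n := by omega
    subst h1
    rw [ct_self hT, sub_self, abs_zero]
    have := aa_pos (i + 1)
    positivity
  | succ m ih =>
    intro i hi
    have h1 := ih (i + 1) (by omega)
    have h2 := gl_quarter i
    have h3 := aa_pos (i + 1)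
    have h4 : |φ ((Y : ℝ) / qq n) (ct (i + 1) T) - φ ((Y : ℝ) / qq n) (ct i T)| ≤
        3 * aa (i + 1) := by
      by_cases h : i ∈ T
      · have h5 : ct (i + 1) T = insert i (ct i T) := by
          ext k
          rw [Finset.mem_insert, mem_ct, mem_ct]
          constructor
          · rintro ⟨a, b⟩
            by_cases hk : k = i
            · exact Or.inl hk
            · exact Or.inr ⟨a, by omega⟩
          · rintro (rfl | ⟨a, b⟩)
            · exact ⟨h, by omega⟩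
            · exact ⟨a, by omega⟩
        rw [h5]
        exact gl_b hφ (by omega) (ct_subset i T) hY
      · have h5 : ct (i + 1) T = ct i T := by
          ext k
          rw [mem_ct, mem_ct]
          constructor
          · rintro ⟨a, b⟩
            refine ⟨a, ?_⟩
            rcases Nat.lt_or_ge k i with hk | hk
            · exact hk
            · exfalso
              have : k = i := by omega
              rw [this] at a
              exact h a
          · rintro ⟨a, b⟩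
            exact ⟨a, by omega⟩
        rw [h5, sub_self, abs_zero]
        positivity
    have h5 := abs_sub_le (φ ((Y : ℝ) / qq n) T) (φ ((Y : ℝ) / qq n) (ct (i + 1) T))
      (φ ((Y : ℝ) / qq n) (ct i T))
    linarith

/-- (d) -/
private theorem gl_d {P n : ℕ} {φ : ℝ → Finset ℕ → ℝ}
    (hφ : ∀ i X T, (i, X, T) ∈ ed P n → |DD n φ i X T| ≤ 1) {T T' : Finset ℕ}
    (hT : T ⊆ Finset.range n) (hT' : T' ⊆ Finset.range n) {Y : ℕ} (hY : Y ≤ P * qq n) :
    |φ ((Y : ℝ) / qq n) T - φ ((Y : ℝ) / qq n) T'| ≤ 24 * |vl T - vl T'| := by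
  classical
  by_cases hTT : T = T'
  · rw [hTT, sub_self, abs_zero]
    positivity
  have hex : ∃ k, ¬ (k ∈ T ↔ k ∈ T') := by
    by_contra h
    push Not at h
    exact hTT (Finset.ext h)
  obtain ⟨i, hi⟩ : ∃ i, i = Nat.find hex := ⟨_, rfl⟩
  have h1 : ¬ (i ∈ T ↔ i ∈ T') := by rw [hi]; exact Nat.find_spec hex
  have h2 : ∀ k < i, (k ∈ T ↔ k ∈ T') := fun k hk => by
    have := Nat.find_min hex (by rw [← hi]; exact hk)
    exact not_not.1 this
  have h3 : ct i T = ct i T' := by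
    ext k
    rw [mem_ct, mem_ct]
    constructor
    · rintro ⟨a, b⟩
      exact ⟨(h2 k b).1 a, b⟩
    · rintro ⟨a, b⟩
      exact ⟨(h2 k b).2 a, b⟩
  have h4 : i < n := by
    by_cases h : i ∈ T
    · exact Finset.mem_range.1 (hT h)
    · have h5 : i ∈ T' := by
        by_contra h5
        exact h1 ⟨fun h6 => absurd h6 h, fun h6 => absurd h6 h5⟩
      exact Finset.mem_range.1 (hT' h5)
  have h5 := gl_c hφ hT hY (n - i) i (by omega)
  have h6 := gl_c hφ hT' hY (n - i) i (by omega)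
  rw [← h3, abs_sub_comm] at h6
  have h7 := abs_sub_le (φ ((Y : ℝ) / qq n) T) (φ ((Y : ℝ) / qq n) (ct i T))
    (φ ((Y : ℝ) / qq n) T')
  have h8 : aa (i + 1) / 2 ≤ |vl T - vl T'| := by
    by_cases h : i ∈ T
    · have h9 : i ∉ T' := fun h9 => h1 ⟨fun _ => h9, fun _ => h⟩
      exact (vl_sep h3 h h9).trans (le_abs_self _)
    · have h9 : i ∈ T' := by
        by_contra h9
        exact h1 ⟨fun h10 => absurd h10 h, fun h10 => absurd h10 h9⟩
      rw [abs_sub_comm]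
      exact (vl_sep h3.symm h9 h).trans (le_abs_self _)
  linarith

theorem grid_lip (P n : ℕ) (φ : ℝ → Finset ℕ → ℝ)
    (hφ : ∀ i X T, (i, X, T) ∈ ed P n → |DD n φ i X T| ≤ 1) {Y Y' : ℕ} (hY : Y ≤ P * qq n) (hY' : Y' ≤ P * qq n)
    {T T' : Finset ℕ} (hT : T ⊆ Finset.range n) (hT' : T' ⊆ Finset.range n) :
    |φ ((Y : ℝ) / qq n) T - φ ((Y' : ℝ) / qq n) T'| ≤
      |(Y : ℝ) / qq n - (Y' : ℝ) / qq n| + 24 * |vl T - vl T'| := by
  have h1 := gl_a hφ hT hY hY'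
  have h2 := gl_d hφ hT hT' hY'
  have h3 := abs_sub_le (φ ((Y : ℝ) / qq n) T) (φ ((Y' : ℝ) / qq n) T)
    (φ ((Y' : ℝ) / qq n) T')
  linarith

end H46RF
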