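import Pool.Agent.H46.RF.Defs

/-!
S05864 [H46 RF HAT]: hat functions. `hat q X t = max 0 (1 - |q t - X|)`.
-/

set_option autoImplicit false

namespace H46RF

open H50RC H50LP

theorem hat_nonneg (q X : ℕ) (t : ℝ) : 0 ≤ hat q X t := le_max_left _ _

/-- values of the hats on the cell `[X0/q, (X0+1)/q]` -/
theorem hat_cell {q X X0 : ℕ} {t : ℝ} (h0 : (X0 : ℝ) ≤ q * t) (h1 : q * t ≤ X0 + 1) :
    hat q X t = if X = X0 then X0 + 1 - q * t else if X = X0 + 1 then q * t - X0 else 0 := by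
  unfold hat
  by_cases h : X = X0
  · subst h
    rw [if_pos rfl, abs_of_nonneg (by linarith), max_eq_right (by linarith)]
    ring
  · rw [if_neg h]
    by_cases h' : X = X0 + 1
    · subst h'
      rw [if_pos rfl]
      push_cast
      rw [abs_of_nonpos (by linarith), max_eq_right (by linarith)]
      ring
    · rw [if_neg h']
      rcases Nat.lt_or_gt_of_ne h with h2 | h2
      · have h3 : (X : ℝ) + 1 ≤ X0 := by exact_mod_cast h2
        rw [abs_of_nonneg (by linarith), max_eq_left (by linarith)]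
      · have h3 : (X0 : ℝ) + 2 ≤ X := by
          have : X0 + 2 ≤ X := by omega
          exact_mod_cast this
        rw [abs_of_nonpos (by linarith), max_eq_left (by linarith)]

theorem hat_node {q : ℕ} (hq : 0 < q) (X Z : ℕ) : hat q X ((Z : ℝ) / q) = if X = Z then 1 else 0 := by
  have hq' : (q : ℝ) ≠ 0 := by exact_mod_cast hq.ne'
  have e : (q : ℝ) * ((Z : ℝ) / q) = Z := mul_div_cancel₀ _ hq'
  rw [hat_cell (X0 := Z) (by rw [e]) (by rw [e]; linarith), e]
  split_ifs <;> ring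

theorem sum_hat_cell {q M X0 : ℕ} {t : ℝ} (h0 : (X0 : ℝ) ≤ q * t) (h1 : q * t < X0 + 1) (hM : q * t ≤ M) :
    ∑ X ∈ Finset.range (M + 1), hat q X t = 1 := by
  have hX0 : X0 ≤ M := by
    have : (X0 : ℝ) ≤ M := h0.trans hM
    exact_mod_cast this
  rcases hX0.eq_or_lt with h | h
  · -- `q t = M = X0`
    have e : (q : ℝ) * t = X0 := le_antisymm (by rw [h]; exact hM) h0
    rw [Finset.sum_eq_single X0]
    · rw [hat_cell h0 h1.le, if_pos rfl, e]
      ring
    · intro X _ hX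
      rw [hat_cell h0 h1.le, if_neg hX]
      split_ifs
      · rw [e]
        ring
      · rfl
    · intro h2
      exact absurd (Finset.mem_range.2 (by omega)) h2
  · have e2 : ∑ X ∈ Finset.range (M + 1), hat q X t = ∑ X ∈ ({X0, X0 + 1} : Finset ℕ), hat q X t := by
      symm
      refine Finset.sum_subset ?_ ?_
      · intro X hX
        rw [Finset.mem_insert, Finset.mem_singleton] at hX
        rw [Finset.mem_range]
        omega
      · intro X _ hX
        rw [Finset.mem_insert, Finset.mem_singleton, not_or] at hX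
        rw [hat_cell h0 h1.le, if_neg hX.1, if_neg hX.2]
    rw [e2, Finset.sum_pair (by omega), hat_cell h0 h1.le, hat_cell h0 h1.le, if_pos rfl, if_neg (by omega),
      if_pos rfl]
    ring

/-- partition of unity -/
theorem sum_hat {q M : ℕ} {t : ℝ} (h0 : 0 ≤ t) (h1 : q * t ≤ M) :
    ∑ X ∈ Finset.range (M + 1), hat q X t = 1 := by
  have h2 : (0 : ℝ) ≤ q * t := by positivity
  exact sum_hat_cell (X0 := ⌊(q : ℝ) * t⌋₊) (Nat.floor_le h2) (Nat.lt_floor_add_one _) h1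

/-- interpolation is exact at the grid points -/
theorem sum_hat_node {E : Type} [AddCommGroup E] [Module ℝ E] {q M : ℕ} (hq : 0 < q) (g : ℕ → E) {Z : ℕ}
    (hZ : Z ≤ M) : ∑ X ∈ Finset.range (M + 1), hat q X ((Z : ℝ) / q) • g X = g Z := by
  rw [Finset.sum_eq_single Z]
  · rw [hat_node hq, if_pos rfl, one_smul]
  · intro X _ hX
    rw [hat_node hq, if_neg hX, zero_smul]
  · intro h
    exact absurd (Finset.mem_range.2 (by omega)) h

theorem step_pos {q r : ℕ} (hq : 0 < q) (hr : 0 < r) (Y : ℕ) :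
    ((Y / r : ℕ) : ℝ) ≤ q * ((Y : ℝ) / ((q * r : ℕ) : ℝ)) ∧
    q * (((Y : ℝ) + 1) / ((q * r : ℕ) : ℝ)) ≤ ((Y / r : ℕ) : ℝ) + 1 ∧
    q * (((Y : ℝ) + 1) / ((q * r : ℕ) : ℝ)) = q * ((Y : ℝ) / ((q * r : ℕ) : ℝ)) + 1 / (r : ℝ) := by
  have hq' : (0 : ℝ) < q := by exact_mod_cast hq
  have hr' : (0 : ℝ) < r := by exact_mod_cast hr
  have e : ∀ x : ℝ, (q : ℝ) * (x / ((q * r : ℕ) : ℝ)) = x / r := by
    intro x
    push_cast
    field_simp
  rw [e, e]
  refine ⟨?_, ?_, ?_⟩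
  · rw [le_div_iff₀ hr']
    have := Nat.div_mul_le_self Y r
    exact_mod_cast this
  · rw [div_le_iff₀ hr']
    have : Y + 1 ≤ (Y / r + 1) * r := by
      have := Nat.lt_div_mul_add (a := Y) hr
      rw [add_mul, one_mul]
      omega
    exact_mod_cast this
  · rw [add_div]

/-- increments over an edge of the finer grid `(1/(q r))ℤ` -/
theorem hat_step {q r : ℕ} (hq : 0 < q) (hr : 0 < r) (X Y : ℕ) :
    hat q X (((Y : ℝ) + 1) / ((q * r : ℕ) : ℝ)) - hat q X ((Y : ℝ) / ((q * r : ℕ) : ℝ)) =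
      (1 / (r : ℝ)) * ((if X = Y / r + 1 then 1 else 0) - (if X = Y / r then 1 else 0)) := by
  obtain ⟨h1, h2, h3⟩ := step_pos hq hr Y
  have hr' : (0 : ℝ) < 1 / (r : ℝ) := by
    have : (0 : ℝ) < r := by exact_mod_cast hr
    positivity
  have h4 : (q : ℝ) * ((Y : ℝ) / ((q * r : ℕ) : ℝ)) ≤ ((Y / r : ℕ) : ℝ) + 1 := by linarith
  have h5 : ((Y / r : ℕ) : ℝ) ≤ q * (((Y : ℝ) + 1) / ((q * r : ℕ) : ℝ)) := by linarith
  rw [hat_cell h1 h4, hat_cell h5 h2, h3]
  by_cases h : X = Y / r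
  · rw [if_pos h, if_pos h, if_pos h, if_neg (by omega)]
    ring
  · rw [if_neg h, if_neg h, if_neg h]
    by_cases h' : X = Y / r + 1
    · rw [if_pos h', if_pos h', if_pos h']
      ring
    · rw [if_neg h', if_neg h', if_neg h']
      ring

theorem sum_hat_step {q r : ℕ} (hq : 0 < q) (hr : 0 < r) (M Y : ℕ) :
    ∑ X ∈ Finset.range M, |hat q X (((Y : ℝ) + 1) / ((q * r : ℕ) : ℝ)) - hat q X ((Y : ℝ) / ((q * r : ℕ) : ℝ))| ≤
      2 / (r : ℝ) := by
  have hr' : (0 : ℝ) < r := by exact_mod_cast hr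
  have e : ∀ X ∈ Finset.range M,
      |hat q X (((Y : ℝ) + 1) / ((q * r : ℕ) : ℝ)) - hat q X ((Y : ℝ) / ((q * r : ℕ) : ℝ))| ≤
        (1 / (r : ℝ)) * ((if X = Y / r + 1 then 1 else 0) + (if X = Y / r then 1 else 0)) := by
    intro X _
    rw [hat_step hq hr, abs_mul, abs_of_pos (by positivity : (0 : ℝ) < 1 / r)]
    apply mul_le_mul_of_nonneg_left _ (by positivity)
    split_ifs <;> norm_num
  refine (Finset.sum_le_sum e).trans ?_
  rw [← Finset.mul_sum, Finset.sum_add_distrib]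
  have f : ∀ a : ℕ, ∑ X ∈ Finset.range M, (if X = a then (1 : ℝ) else 0) ≤ 1 := by
    intro a
    rw [Finset.sum_ite_eq']
    split_ifs <;> norm_num
  have h1 := f (Y / r + 1)
  have h2 := f (Y / r)
  rw [show (2 : ℝ) / r = 1 / r * 2 by ring]
  apply mul_le_mul_of_nonneg_left _ (by positivity)
  linarith

/-- divisibility of the `q_i` -/
theorem qq_mul {i j : ℕ} (h : i ≤ j) : ∃ r : ℕ, 0 < r ∧ qq j = qq i * r := by
  induction j, h using Nat.le_induction with
  | base => exact ⟨1, one_pos, by simp⟩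
  | succ j _ ih =>
    obtain ⟨r, hr, h⟩ := ih
    refine ⟨r * 2 ^ (j + 1), by positivity, ?_⟩
    rw [qq_succ, h, mul_assoc]

/-- `∑_(i<n) a_(i+1) q_i ≤ 1` -/
theorem sum_aa_qq (T : Finset ℕ) : ∑ i ∈ T, aa (i + 1) * qq i ≤ 1 := by
  have e : ∀ i : ℕ, aa (i + 1) * qq i = (1 / 2 : ℝ) ^ (i + 1) := by
    intro i
    rw [aa_succ, mul_right_comm, mul_comm (aa i), qq_mul_aa, one_mul]
    norm_num
  simp only [e]
  obtain ⟨n, hn⟩ : ∃ n, T ⊆ Finset.range n := ⟨T.sup id + 1, fun k hk => by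
    rw [Finset.mem_range]
    have := Finset.le_sup (f := id) hk
    simp only [id] at this
    omega⟩
  have h1 : ∑ i ∈ T, (1 / 2 : ℝ) ^ (i + 1) ≤ ∑ i ∈ Finset.range n, (1 / 2 : ℝ) ^ (i + 1) :=
    Finset.sum_le_sum_of_subset_of_nonneg hn fun _ _ _ => by positivity
  refine h1.trans ?_
  have h2 : ∀ n : ℕ, ∑ i ∈ Finset.range n, (1 / 2 : ℝ) ^ (i + 1) = 1 - (1 / 2 : ℝ) ^ n := by
    intro n
    induction n with
    | zero => simp
    | succ n ih =>
      rw [Finset.sum_range_succ, ih, pow_succ]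
      ring
  rw [h2]
  have : (0 : ℝ) < (1 / 2 : ℝ) ^ n := by positivity
  linarith

end H46RF
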