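import Pool.Agent.H46.RF.Lf
import Pool.Agent.H50.RC.EF
import Pool.Agent.H63.LE.Hh

/-!
S05864 [H46 RF HH]: the bounds of `B h_w`.
-/

set_option autoImplicit false

namespace H46RF

open H50RC H50LP

variable {N K m : ℕ}

theorem sg_bound (hN : 1 ≤ N) {k : ℕ} (hk : k < K) (s : Nd N → ℝ) (hs : ∀ w, |s w| ≤ 1) {g : Nd N} (hg : g ∈ lev N K) :
    ‖(∑ w ∈ lev N (k + 1), s w • hh K m w) g‖ ≤ 2 := by
  have hgl := mem_lev.1 hg
  have hN0 : (0 : ℝ) < N := by exact_mod_cast hN
  rw [Finset.sum_apply]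
  have h1 : ∀ w ∈ lev N (k + 1), ‖(s w • hh K m w) g‖ ≤
      (if w <:+ g then (1 : ℝ) else 0) + (N : ℝ)⁻¹ * (if w.tail <:+ g then 1 else 0) := by
    intro w _
    rw [Pi.smul_apply, H63LE.hh_leaf w hg, norm_smul, Real.norm_eq_abs]
    rw [norm_mul, norm_dir, mul_one, Complex.norm_real, Real.norm_eq_abs]
    have h2 : |(if w <:+ g then (1 : ℝ) else 0) - (N : ℝ)⁻¹ * (if w.tail <:+ g then 1 else 0)| ≤
        (if w <:+ g then (1 : ℝ) else 0) + (N : ℝ)⁻¹ * (if w.tail <:+ g then 1 else 0) := by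
      refine (abs_sub _ _).trans (le_of_eq ?_)
      rw [abs_of_nonneg, abs_of_nonneg]
      · split_ifs <;> positivity
      · split_ifs <;> positivity
    calc |s w| * _ ≤ 1 * _ := mul_le_mul (hs w) h2 (abs_nonneg _) zero_le_one
      _ = _ := one_mul _
  refine (norm_sum_le _ _).trans ((Finset.sum_le_sum h1).trans ?_)
  rw [Finset.sum_add_distrib]
  have h3 : ∑ w ∈ lev N (k + 1), (if w <:+ g then (1 : ℝ) else 0) = 1 := by
    rw [← Finset.sum_filter, sum_anc (by omega) (fun _ => (1 : ℝ))]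
  have h4 : ∑ w ∈ lev N (k + 1), (N : ℝ)⁻¹ * (if w.tail <:+ g then (1 : ℝ) else 0) = 1 := by
    rw [sum_lev_succ]
    have h5 : ∀ w : Nd N, ∑ a : Fin N, (N : ℝ)⁻¹ * (if (a :: w).tail <:+ g then (1 : ℝ) else 0) =
        if w <:+ g then (1 : ℝ) else 0 := by
      intro w
      by_cases h : w <:+ g
      · have h' : ∀ a : Fin N, (if (a :: w).tail <:+ g then (1 : ℝ) else 0) = 1 := fun a => if_pos h
        simp only [h', if_pos h, mul_one, Finset.sum_const, Finset.card_univ, Fintype.card_fin, nsmul_eq_mul]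
        exact mul_inv_cancel₀ hN0.ne'
      · have h' : ∀ a : Fin N, (if (a :: w).tail <:+ g then (1 : ℝ) else 0) = 0 := fun a => if_neg h
        simp only [h', if_neg h, mul_zero, Finset.sum_const_zero]
    rw [Finset.sum_congr rfl fun w _ => h5 w]
    rw [← Finset.sum_filter, sum_anc (by omega) (fun _ => (1 : ℝ))]
  rw [h3, h4]
  norm_num

theorem bb_bound (hN : 1 ≤ N) (B : Y N →ₗ[ℝ] LX cA cA0) (b : ℝ)
    (hB : ∀ F ∈ Xs N K m, ∀ c : ℝ, 0 ≤ c → (∀ g ∈ lev N K, ‖F g‖ ≤ c) → lipB (b * c) (B F).1) :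
    (∀ x x' (a : cA), BB K (2 * b * |x - x'|) (fun w => (B (hh K m w)).1 x a - (B (hh K m w)).1 x' a)) ∧
    (∀ x (a a' : cA), BB K (2 * b * |(a : ℝ) - a'|) (fun w => (B (hh K m w)).1 x a - (B (hh K m w)).1 x a')) := by
  have key : ∀ k < K, ∀ s : Nd N → ℝ, (∀ w, |s w| ≤ 1) →
      lipB (b * 2) (fun x a => ∑ w ∈ lev N (k + 1), s w * (B (hh K m w)).1 x a) := by
    intro k hk s hs
    have hF : (∑ w ∈ lev N (k + 1), s w • hh K m w) ∈ Xs N K m := by
      refine Submodule.sum_mem _ fun w hw => (Xs N K m).smul_mem _ (H63LE.hh_mem hN ?_)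
      rw [mem_nds]
      have := mem_lev.1 hw
      refine ⟨?_, by omega⟩
      rintro rfl
      simp at this
    have h1 := hB _ hF 2 (by norm_num) (fun g hg => sg_bound hN hk s hs hg)
    have h2 : (B (∑ w ∈ lev N (k + 1), s w • hh K m w)).1 = fun x a => ∑ w ∈ lev N (k + 1), s w * (B (hh K m w)).1 x a := by
      rw [map_sum]
      funext x a
      rw [Submodule.coe_sum, Finset.sum_apply, Finset.sum_apply]
      refine Finset.sum_congr rfl fun w _ => ?_
      rw [map_smul]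
      rfl
    rw [h2] at h1
    exact h1
  have hsg : ∀ t : ℝ, |(SignType.sign t : ℝ)| ≤ 1 := by
    intro t
    rcases lt_trichotomy t 0 with h | h | h
    · rw [sign_neg h]; simp
    · rw [h, sign_zero]; simp
    · rw [sign_pos h]; simp
  constructor
  · intro x x' a k hk
    have h1 := (key k hk (fun w => (SignType.sign ((B (hh K m w)).1 x a - (B (hh K m w)).1 x' a) : ℝ)) (fun w => hsg _)).2.1 x x' a
    rw [← Finset.sum_sub_distrib] at h1
    have h2 : ∑ w ∈ lev N (k + 1), |(B (hh K m w)).1 x a - (B (hh K m w)).1 x' a| =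
        ∑ w ∈ lev N (k + 1), ((SignType.sign ((B (hh K m w)).1 x a - (B (hh K m w)).1 x' a) : ℝ) * (B (hh K m w)).1 x a -
          (SignType.sign ((B (hh K m w)).1 x a - (B (hh K m w)).1 x' a) : ℝ) * (B (hh K m w)).1 x' a) := by
      refine Finset.sum_congr rfl fun w _ => ?_
      rw [← mul_sub, sign_mul_self]
    rw [h2]
    refine (le_abs_self _).trans (h1.trans (le_of_eq ?_))
    ring
  · intro x a a' k hk
    have h1 := (key k hk (fun w => (SignType.sign ((B (hh K m w)).1 x a - (B (hh K m w)).1 x a') : ℝ)) (fun w => hsg _)).2.2 x a a'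
    rw [← Finset.sum_sub_distrib] at h1
    have h2 : ∑ w ∈ lev N (k + 1), |(B (hh K m w)).1 x a - (B (hh K m w)).1 x a'| =
        ∑ w ∈ lev N (k + 1), ((SignType.sign ((B (hh K m w)).1 x a - (B (hh K m w)).1 x a') : ℝ) * (B (hh K m w)).1 x a -
          (SignType.sign ((B (hh K m w)).1 x a - (B (hh K m w)).1 x a') : ℝ) * (B (hh K m w)).1 x a') := by
      refine Finset.sum_congr rfl fun w _ => ?_
      rw [← mul_sub, sign_mul_self]
    rw [h2]
    refine (le_abs_self _).trans (h1.trans (le_of_eq ?_))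
    ring

end H46RF
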