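import Pool.Agent.H46.RF.Hat

/-!
S05864 [H46 RF MERR]: the error of the merging (F4 of proofs 322).

Proof of `mrg_err`. For `i < n`, `T ⊆ range i`, `Z ≤ P q_i` put `g = g(i,T,Z) = f (Z/q_i) (insert i T) - f (Z/q_i) T ∈ BB(c a_(i+1))` and
`φ(t,T') = φ_(i,T,Z)(t,T') = hat (qq i) Z t * (if i ∈ T' ∧ ct i T' = T then 1 else 0)`. For `T' ⊆ range n`:
`f t T' - mrg P f t T' = ∑_(i<n) ∑_(T ⊆ range i) ∑_Z φ_(i,T,Z)(t,T') • g(i,T,Z)` (for `i ∈ T'` only `T = ct i T'` contributes).
`D` is linear, so `pf f - pf (mrg P f) = ∑_(i,T,Z) ∑_e Dφ(e) pr(g, Φ_e) = ∑_(i,T,Z) pr(g, χ)`, `χ = tf P n Φ φ_(i,T,Z) ∈ Xs`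
(`pr_sum_left`, `pr_smul_left`, `pr_sum_right`, `pr_smul_right`; for the vertical edges `(j, X, T')`, `T' ⊆ range j`, `j < n`, the lines `T'` and
`insert j T'` are subsets of `range n`). By `PairStatement` (scaled by `c a_(i+1)`, case `c = 0`: then `g` vanishes on the levels `1..K`) and `nr_sum_le`, `nr_smul`:
`|pr(g, χ)| ≤ C1 c a_(i+1) nr χ ≤ C1 c a_(i+1) ∑_e |Dφ(e)| nr Φ_e`. It remains: for every edge `e`: `∑_(i,T,Z) a_(i+1) |Dφ_(i,T,Z)(e)| ≤ 2`.
* horizontal edge `(n, Y, T')`: for `i ∈ T'` only `T = ct i T'`; `∑_Z q_n |hat_Z((Y+1)/q_n) - hat_Z(Y/q_n)| ≤ q_n 2/r = 2 q_i` with `q_n = q_i r`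
  (`qq_mul`, `sum_hat_step`); so the sum is `≤ 2 ∑_(i ∈ T') a_(i+1) q_i ≤ 2` (`sum_aa_qq`).
* vertical edge `(j, Y, T')`, `T' ⊆ range j`: `φ(t, insert j T') - φ(t, T')`: for `i < j`: `i ∈ insert j T' ↔ i ∈ T'` and `ct i (insert j T') = ct i T'`: it is 0;
  for `i > j`: `i ∉ insert j T'`, `i ∉ T'`: 0; for `i = j`: `j ∉ T'`, `ct j (insert j T') = ct j T' = T'`, so it is `hat (qq j) Z t * [T = T']`;
  with `t = Y/q_(j+1)`: `∑_Z a_(j+1) q_(j+1) hat_Z(t) = 1` (`sum_hat`).
-/

set_option autoImplicit false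

namespace H46RF

open H50RC H50LP

variable {N K m : ℕ}

theorem pair_scale {C1 : ℝ} (hP : PairStatement N K m C1) {c : ℝ} (hc : 0 ≤ c) {ω : Om N} (hω : BB K c ω) {χ : Y N}
    (hχ : χ ∈ Xs N K m) : |pr K m ω χ| ≤ C1 * c * nr K χ := by
  rcases hc.eq_or_lt with h0 | h0
  · subst h0
    have h1 : pr K m ω χ = 0 := by
      unfold pr
      refine Finset.sum_eq_zero fun w hw => ?_
      have h2 := hω.abs_le hw
      have h3 : ω w = 0 := abs_nonpos_iff.1 h2
      rw [h3, zero_mul]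
    rw [h1]
    simp
  · have h1 : BB K 1 (c⁻¹ • ω) := by
      have h2 := hω.smul (c⁻¹)
      rwa [abs_of_pos (inv_pos.2 h0), inv_mul_cancel₀ h0.ne'] at h2
    have h2 := hP _ h1 χ hχ
    rw [pr_smul_left, abs_mul, abs_of_pos (inv_pos.2 h0)] at h2
    have h3 := mul_le_mul_of_nonneg_left h2 h0.le
    rw [← mul_assoc, mul_inv_cancel₀ h0.ne', one_mul] at h3
    linarith

/-- the triples `(i, Z, S)` -/
def jd (P n : ℕ) : Finset (ℕ × ℕ × Finset ℕ) :=
  (Finset.range n).biUnion fun i =>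
    {i} ×ˢ (Finset.range (P * qq i + 1) ×ˢ (Finset.range i).powerset)

theorem sum_jd {F : Type} [AddCommMonoid F] (P n : ℕ) (a : ℕ × ℕ × Finset ℕ → F) :
    ∑ e ∈ jd P n, a e = ∑ i ∈ Finset.range n, ∑ Z ∈ Finset.range (P * qq i + 1),
      ∑ S ∈ (Finset.range i).powerset, a (i, Z, S) := by
  unfold jd
  rw [Finset.sum_biUnion]
  · refine Finset.sum_congr rfl fun i _ => ?_
    rw [Finset.sum_product, Finset.sum_singleton, Finset.sum_product]
  · intro i _ j _ hij
    rw [Function.onFun, Finset.disjoint_left]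
    rintro ⟨a, b, c⟩ h1 h2
    rw [Finset.mem_product, Finset.mem_singleton] at h1 h2
    exact hij (h1.1.symm.trans h2.1)

theorem mem_jd {P n i Z : ℕ} {S : Finset ℕ} (h : (i, Z, S) ∈ jd P n) : i < n ∧ S ⊆ Finset.range i := by
  unfold jd at h
  rw [Finset.mem_biUnion] at h
  obtain ⟨j, hj, h⟩ := h
  rw [Finset.mem_product, Finset.mem_product, Finset.mem_singleton, Finset.mem_range,
    Finset.mem_powerset] at h
  obtain ⟨h1, h2, h3⟩ := h
  have h1' : i = j := h1
  subst h1'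
  exact ⟨Finset.mem_range.1 hj, h3⟩

/-- the function `φ_(i,S,Z)` -/
noncomputable def phq (q : ℕ × ℕ × Finset ℕ) (t : ℝ) (T : Finset ℕ) : ℝ :=
  hat (qq q.1) q.2.1 t * (if q.1 ∈ T ∧ ct q.1 T = q.2.2 then 1 else 0)

/-- the jump `g(i,S,Z)` -/
noncomputable def Gjq (f : ℝ → Finset ℕ → Om N) (q : ℕ × ℕ × Finset ℕ) : Om N :=
  f ((q.2.1 : ℝ) / qq q.1) (insert q.1 q.2.2) - f ((q.2.1 : ℝ) / qq q.1) q.2.2

theorem me_F (P n : ℕ) (f : ℝ → Finset ℕ → Om N) (t : ℝ) {T : Finset ℕ} (hT : T ⊆ Finset.range n) :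
    f t T - mrg P f t T = ∑ q ∈ jd P n, phq q t T • Gjq f q := by
  rw [sum_jd]
  unfold mrg phq Gjq
  rw [sub_sub_cancel]
  have h1 : ∀ i ∈ Finset.range n, ∑ Z ∈ Finset.range (P * qq i + 1), ∑ S ∈ (Finset.range i).powerset,
      (hat (qq i) Z t * (if i ∈ T ∧ ct i T = S then 1 else 0)) •
        (f ((Z : ℝ) / qq i) (insert i S) - f ((Z : ℝ) / qq i) S) =
      if i ∈ T then ∑ Z ∈ Finset.range (P * qq i + 1), hat (qq i) Z t •
        (f ((Z : ℝ) / qq i) (insert i (ct i T)) - f ((Z : ℝ) / qq i) (ct i T)) else 0 := by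
    intro i _
    split_ifs with hi
    · refine Finset.sum_congr rfl fun Z _ => ?_
      rw [Finset.sum_eq_single (ct i T)]
      · rw [if_pos ⟨hi, rfl⟩, mul_one]
      · intro S _ hS
        rw [if_neg (fun h => hS h.2.symm), mul_zero, zero_smul]
      · intro h
        exact absurd (Finset.mem_powerset.2 (ct_subset i T)) h
    · refine Finset.sum_eq_zero fun Z _ => Finset.sum_eq_zero fun S _ => ?_
      rw [if_neg (fun h => hi h.1), mul_zero, zero_smul]
  rw [Finset.sum_congr rfl h1, Finset.sum_ite_mem, Finset.inter_eq_right.2 hT]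

theorem me_D {P n : ℕ} (f : ℝ → Finset ℕ → Om N) {j X : ℕ} {T : Finset ℕ} (hj : j ≤ n)
    (hT : T ⊆ Finset.range j) :
    DD n f j X T - DD n (mrg P f) j X T = ∑ q ∈ jd P n, DD n (phq q) j X T • Gjq f q := by
  have hTn : T ⊆ Finset.range n := fun x hx => by
    have := Finset.mem_range.1 (hT hx)
    exact Finset.mem_range.2 (by omega)
  unfold DD
  split_ifs with h
  · have hTn' : insert j T ⊆ Finset.range n := fun x hx => by
      rcases Finset.mem_insert.1 hx with h' | h'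
      · subst h'
        exact Finset.mem_range.2 h
      · exact hTn h'
    unfold Dv
    rw [← smul_sub]
    have e1 : f ((X : ℝ) / qq (j + 1)) (insert j T) - f ((X : ℝ) / qq (j + 1)) T -
        (mrg P f ((X : ℝ) / qq (j + 1)) (insert j T) - mrg P f ((X : ℝ) / qq (j + 1)) T) =
        (f ((X : ℝ) / qq (j + 1)) (insert j T) - mrg P f ((X : ℝ) / qq (j + 1)) (insert j T)) -
        (f ((X : ℝ) / qq (j + 1)) T - mrg P f ((X : ℝ) / qq (j + 1)) T) := by abel
    rw [e1, me_F P n f _ hTn', me_F P n f _ hTn, ← Finset.sum_sub_distrib, Finset.smul_sum]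
    refine Finset.sum_congr rfl fun q _ => ?_
    rw [← sub_smul, smul_smul, smul_eq_mul]
  · unfold Dh
    rw [← smul_sub]
    have e1 : f (((X : ℝ) + 1) / qq n) T - f ((X : ℝ) / qq n) T -
        (mrg P f (((X : ℝ) + 1) / qq n) T - mrg P f ((X : ℝ) / qq n) T) =
        (f (((X : ℝ) + 1) / qq n) T - mrg P f (((X : ℝ) + 1) / qq n) T) -
        (f ((X : ℝ) / qq n) T - mrg P f ((X : ℝ) / qq n) T) := by abel
    rw [e1, me_F P n f _ hTn, me_F P n f _ hTn, ← Finset.sum_sub_distrib, Finset.smul_sum]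
    refine Finset.sum_congr rfl fun q _ => ?_
    rw [← sub_smul, smul_smul, smul_eq_mul]

theorem aa_pos' (i : ℕ) : 0 < aa i := by
  rw [aa_eq]
  exact inv_pos.2 (qq_posR i)

/-- every edge is used with total weight at most two -/
theorem me_two {P n : ℕ} {j X : ℕ} {T : Finset ℕ} (hj : j ≤ n) (hX : X < npos P n j)
    (hT : T ⊆ Finset.range j) :
    ∑ q ∈ jd P n, aa (q.1 + 1) * |DD n (phq q) j X T| ≤ 2 := by
  have hTn : T ⊆ Finset.range n := fun x hx => by
    have := Finset.mem_range.1 (hT hx)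
    exact Finset.mem_range.2 (by omega)
  rcases hj.eq_or_lt with rfl | hjn
  · -- horizontal edges
    rw [sum_jd]
    have h1 : ∀ i ∈ Finset.range j, ∑ Z ∈ Finset.range (P * qq i + 1),
        ∑ S ∈ (Finset.range i).powerset, aa (i + 1) * |DD j (phq (i, Z, S)) j X T| =
        if i ∈ T then ∑ Z ∈ Finset.range (P * qq i + 1), aa (i + 1) * (qq j *
          |hat (qq i) Z (((X : ℝ) + 1) / qq j) - hat (qq i) Z ((X : ℝ) / qq j)|) else 0 := by
      intro i _
      have h2 : ∀ Z S, DD j (phq (i, Z, S)) j X T = (qq j : ℝ) *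
          ((hat (qq i) Z (((X : ℝ) + 1) / qq j) - hat (qq i) Z ((X : ℝ) / qq j)) *
            (if i ∈ T ∧ ct i T = S then 1 else 0)) := by
        intro Z S
        unfold DD Dh phq
        rw [if_neg (lt_irrefl j), smul_eq_mul]
        ring
      split_ifs with hi
      · refine Finset.sum_congr rfl fun Z _ => ?_
        rw [Finset.sum_eq_single (ct i T)]
        · rw [h2, if_pos ⟨hi, rfl⟩, mul_one, abs_mul, abs_of_pos (qq_posR j)]
        · intro S _ hS
          rw [h2, if_neg (fun h => hS h.2.symm), mul_zero, mul_zero, abs_zero, mul_zero]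
        · intro h
          exact absurd (Finset.mem_powerset.2 (ct_subset i T)) h
      · refine Finset.sum_eq_zero fun Z _ => Finset.sum_eq_zero fun S _ => ?_
        rw [h2, if_neg (fun h => hi h.1), mul_zero, mul_zero, abs_zero, mul_zero]
    rw [Finset.sum_congr rfl h1, Finset.sum_ite_mem, Finset.inter_eq_right.2 hTn]
    have h3 : ∀ i ∈ T, ∑ Z ∈ Finset.range (P * qq i + 1), aa (i + 1) * (qq j *
          |hat (qq i) Z (((X : ℝ) + 1) / qq j) - hat (qq i) Z ((X : ℝ) / qq j)|) ≤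
        2 * (aa (i + 1) * qq i) := by
      intro i hi
      have hij : i ≤ j := (Finset.mem_range.1 (hTn hi)).le
      obtain ⟨r, hr, hqr⟩ := qq_mul hij
      rw [← Finset.mul_sum, ← Finset.mul_sum, hqr]
      have h4 := sum_hat_step (qq_pos i) hr (P * qq i + 1) X
      have h5 : (0 : ℝ) < r := by exact_mod_cast hr
      have h6 := mul_le_mul_of_nonneg_left h4 (Nat.cast_nonneg (α := ℝ) (qq i * r))
      have h7 : ((qq i * r : ℕ) : ℝ) * (2 / (r : ℝ)) = 2 * qq i := by
        push_cast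
        field_simp
      rw [h7] at h6
      have h8 := mul_le_mul_of_nonneg_left h6 (aa_pos' (i + 1)).le
      linarith
    refine (Finset.sum_le_sum h3).trans ?_
    rw [← Finset.mul_sum]
    have := sum_aa_qq T
    linarith
  · -- vertical edges
    have hjT : j ∉ T := fun h => by
      have := Finset.mem_range.1 (hT h)
      omega
    have hX' : X ≤ P * qq (j + 1) := by
      unfold npos at hX
      rw [if_pos hjn] at hX
      omega
    obtain ⟨t, ht⟩ : ∃ t : ℝ, t = (X : ℝ) / qq (j + 1) := ⟨_, rfl⟩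
    have hD : ∀ q : ℕ × ℕ × Finset ℕ, DD n (phq q) j X T =
        (qq (j + 1) : ℝ) * (phq q t (insert j T) - phq q t T) := by
      intro q
      unfold DD Dv
      rw [if_pos hjn, smul_eq_mul, ht]
    rw [sum_jd, Finset.sum_eq_single j]
    · have h1 : ∀ Z S, phq (j, Z, S) t (insert j T) - phq (j, Z, S) t T =
          hat (qq j) Z t * (if T = S then 1 else 0) := by
        intro Z S
        unfold phq
        simp only
        rw [if_neg (fun h : j ∈ T ∧ ct j T = S => hjT h.1), mul_zero, sub_zero, ct_insert_ge le_rfl,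
          ct_self hT]
        congr 1
        by_cases hS : T = S
        · rw [if_pos hS, if_pos ⟨Finset.mem_insert_self j T, hS⟩]
        · rw [if_neg hS, if_neg (fun h => hS h.2)]
      have h2 : ∀ Z ∈ Finset.range (P * qq j + 1), ∑ S ∈ (Finset.range j).powerset,
          aa (j + 1) * |DD n (phq (j, Z, S)) j X T| = hat (qq j) Z t := by
        intro Z _
        rw [Finset.sum_eq_single T]
        · rw [hD, h1, if_pos rfl, mul_one, abs_mul, abs_of_pos (qq_posR (j + 1)),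
            abs_of_nonneg (hat_nonneg _ _ _), ← mul_assoc, mul_comm (aa (j + 1)), qq_mul_aa, one_mul]
        · intro S _ hS
          rw [hD, h1, if_neg (fun h => hS h.symm), mul_zero, mul_zero, abs_zero, mul_zero]
        · intro h
          exact absurd (Finset.mem_powerset.2 hT) h
      rw [Finset.sum_congr rfl h2, sum_hat]
      · norm_num
      · rw [ht]
        positivity
      · rw [ht]
        push_cast
        have h3 : (X : ℝ) ≤ P * qq (j + 1) := by exact_mod_cast hX'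
        have h4 : (X : ℝ) / qq (j + 1) ≤ P := by
          rw [div_le_iff₀ (qq_posR (j + 1))]
          exact h3
        have h5 := mul_le_mul_of_nonneg_left h4 (qq_posR j).le
        linarith
    · intro i _ hij
      refine Finset.sum_eq_zero fun Z _ => Finset.sum_eq_zero fun S _ => ?_
      have h1 : phq (i, Z, S) t (insert j T) - phq (i, Z, S) t T = 0 := by
        unfold phq
        simp only
        rcases lt_or_gt_of_ne hij with h | h
        · rw [ct_insert_ge h.le]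
          have h2 : (i ∈ insert j T ∧ ct i T = S) ↔ (i ∈ T ∧ ct i T = S) := by
            rw [Finset.mem_insert]
            constructor
            · rintro ⟨h3 | h3, h4⟩
              · omega
              · exact ⟨h3, h4⟩
            · rintro ⟨h3, h4⟩
              exact ⟨Or.inr h3, h4⟩
          rw [if_congr h2 rfl rfl, sub_self]
        · have h2 : i ∉ T := fun h3 => by
            have := Finset.mem_range.1 (hT h3)
            omega
          have h3 : i ∉ insert j T := fun h4 => by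
            rcases Finset.mem_insert.1 h4 with h5 | h5
            · omega
            · exact h2 h5
          rw [if_neg (fun h : i ∈ insert j T ∧ ct i (insert j T) = S => h3 h.1),
            if_neg (fun h : i ∈ T ∧ ct i T = S => h2 h.1), mul_zero, sub_self]
      rw [hD, h1, mul_zero, abs_zero, mul_zero]
    · intro h
      exact absurd (Finset.mem_range.2 hjn) h

theorem mrg_err {C1 : ℝ} (hC1 : 0 ≤ C1) (hP : PairStatement N K m C1) {c : ℝ} (hc : 0 ≤ c) {P n : ℕ}
    {Φ : ℕ → ℕ → Finset ℕ → Y N} (hΦ : ∀ φ, tf P n Φ φ ∈ Xs N K m) {f : ℝ → Finset ℕ → Om N} (hf : LB K c f) :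
    |pf K m P n Φ f - pf K m P n Φ (mrg P f)| ≤ 2 * C1 * c * ms K P n Φ := by
  have e1 : pf K m P n Φ f = ∑ e ∈ ed P n, pr K m (DD n f e.1 e.2.1 e.2.2) (Φ e.1 e.2.1 e.2.2) := by
    rw [sum_ed]
    rfl
  have e2 : pf K m P n Φ (mrg P f) =
      ∑ e ∈ ed P n, pr K m (DD n (mrg P f) e.1 e.2.1 e.2.2) (Φ e.1 e.2.1 e.2.2) := by
    rw [sum_ed]
    rfl
  have e3 : ∀ φ : ℝ → Finset ℕ → ℝ, tf P n Φ φ =
      ∑ e ∈ ed P n, DD n φ e.1 e.2.1 e.2.2 • Φ e.1 e.2.1 e.2.2 := by
    intro φ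
    rw [sum_ed]
    rfl
  have e4 : ms K P n Φ = ∑ e ∈ ed P n, nr K (Φ e.1 e.2.1 e.2.2) := by
    rw [sum_ed]
    rfl
  have e5 : pf K m P n Φ f - pf K m P n Φ (mrg P f) =
      ∑ q ∈ jd P n, pr K m (Gjq f q) (tf P n Φ (phq q)) := by
    rw [e1, e2, ← Finset.sum_sub_distrib]
    have h1 : ∀ e ∈ ed P n, pr K m (DD n f e.1 e.2.1 e.2.2) (Φ e.1 e.2.1 e.2.2) -
        pr K m (DD n (mrg P f) e.1 e.2.1 e.2.2) (Φ e.1 e.2.1 e.2.2) =
        ∑ q ∈ jd P n, DD n (phq q) e.1 e.2.1 e.2.2 * pr K m (Gjq f q) (Φ e.1 e.2.1 e.2.2) := by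
      rintro ⟨j, X, T⟩ he
      obtain ⟨h2, -, h3⟩ := mem_ed.1 he
      simp only
      rw [← pr_sub_left, me_D f h2 h3, pr_sum_left]
      refine Finset.sum_congr rfl fun q _ => ?_
      rw [pr_smul_left]
    rw [Finset.sum_congr rfl h1, Finset.sum_comm]
    refine Finset.sum_congr rfl fun q _ => ?_
    rw [e3, pr_sum_right]
    refine Finset.sum_congr rfl fun e _ => ?_
    rw [pr_smul_right]
  have h2 : ∀ q ∈ jd P n, |pr K m (Gjq f q) (tf P n Φ (phq q))| ≤
      ∑ e ∈ ed P n, C1 * c * (nr K (Φ e.1 e.2.1 e.2.2) *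
        (aa (q.1 + 1) * |DD n (phq q) e.1 e.2.1 e.2.2|)) := by
    rintro ⟨i, Z, S⟩ hq
    obtain ⟨hi, hS⟩ := mem_jd hq
    have h3 : BB K (c * aa (i + 1)) (Gjq f (i, Z, S)) := hf.2 _ i S hS
    have h4 := pair_scale hP (mul_nonneg hc (aa_pos' (i + 1)).le) h3 (hΦ (phq (i, Z, S)))
    refine h4.trans ?_
    have h5 : nr K (tf P n Φ (phq (i, Z, S))) ≤
        ∑ e ∈ ed P n, |DD n (phq (i, Z, S)) e.1 e.2.1 e.2.2| * nr K (Φ e.1 e.2.1 e.2.2) := by
      rw [e3]
      refine (nr_sum_le _ _).trans (le_of_eq ?_)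
      refine Finset.sum_congr rfl fun e _ => ?_
      rw [nr_smul]
    have h6 : 0 ≤ C1 * (c * aa (i + 1)) := mul_nonneg hC1 (mul_nonneg hc (aa_pos' (i + 1)).le)
    refine (mul_le_mul_of_nonneg_left h5 h6).trans (le_of_eq ?_)
    rw [Finset.mul_sum]
    refine Finset.sum_congr rfl fun e _ => ?_
    ring
  rw [e5]
  refine (Finset.abs_sum_le_sum_abs _ _).trans ((Finset.sum_le_sum h2).trans ?_)
  rw [Finset.sum_comm, e4, Finset.mul_sum]
  refine Finset.sum_le_sum ?_
  rintro ⟨j, X, T⟩ he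
  obtain ⟨h3, h4, h5⟩ := mem_ed.1 he
  simp only
  rw [← Finset.mul_sum, ← Finset.mul_sum]
  have h6 := me_two h3 h4 h5
  have h7 := nr_nonneg (K := K) (Φ j X T)
  have h8 := mul_le_mul_of_nonneg_left h6 h7
  have h9 := mul_le_mul_of_nonneg_left h8 (mul_nonneg hC1 hc)
  linarith

end H46RF
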