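import Pool.Agent.H46.RF.Hat

/-!
S05864 [H46 RF MRG]: the merged function `mrg P f` (F4 of proofs 322).

Proofs. `mrg_insert`: `∑ over insert i T` = the term `i` plus the sum over `T` (`i ∉ T` because `T ⊆ range i`); in the term `i`:
`ct i (insert i T) = ct i T = T` (`ct_insert_ge`, `ct_self`); in the terms `j ∈ T`, `j < i`: `ct j (insert i T) = ct j T`.
`mrg_crs`: `mrg_insert` at `t = Z/q_i` and `sum_hat_node`.
`mrg_v`: by `mrg_insert`, `Dv i (mrg P f) X T = q_(i+1) (δ(t) - ∑_Z hat_Z(t) δ(Z/q_i))`, `t = X/q_(i+1)`, `δ(s) = f s (insert i T) - f s T ∈ BB(c a_(i+1))`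
(`LB`), `∑_Z hat_Z(t) = 1` (`sum_hat`, `M = P q_i`, `q_i t = X/2^(i+1) ≤ P q_i`), `q_(i+1) a_(i+1) = 1`: it is in `BB(2c)`.
`mrg_h`: `Dh i (mrg P f) X T = q_i (f(t') T - f(t) T) - ∑_(j∈T) ∑_Z q_i (hat_(j,Z)(t') - hat_(j,Z)(t)) δ_j(Z/q_j)`, `t = X/q_i`, `t' = (X+1)/q_i`; the
first term is in `BB(c)`; for `j ∈ T`, `j < i`: `q_i = q_j r` (`qq_mul`), `sum_hat_step`: `∑_Z |hat(t') - hat(t)| ≤ 2/r`, so the term `j` is in
`BB(q_i (2/r) c a_(j+1)) = BB(2 q_j a_(j+1) c)`; with `sum_aa_qq` the sum over `j` is in `BB(2c)`.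
Useful: `BB` of a finite sum (`bb_sum` below).
-/

set_option autoImplicit false

namespace H46RF

open H50RC H50LP

variable {N K : ℕ}

theorem bb_sum {ι : Type} (s : Finset ι) (c : ι → ℝ) (ω : ι → Om N) (h : ∀ i ∈ s, BB K (c i) (ω i)) :
    BB K (∑ i ∈ s, c i) (∑ i ∈ s, ω i) := by
  classical
  induction s using Finset.induction_on with
  | empty =>
    intro k _
    simp
  | insert a s ha ih =>
    rw [Finset.sum_insert ha, Finset.sum_insert ha]
    exact (h a (Finset.mem_insert_self a s)).add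
      (ih fun i hi => h i (Finset.mem_insert_of_mem hi))

private theorem mrg_sub {c c' : ℝ} {ω ω' : Om N} (h : BB K c ω) (h' : BB K c' ω') :
    BB K (c + c') (ω - ω') := by
  have h1 := h'.smul (-1)
  rw [abs_neg, abs_one, one_mul, neg_smul, one_smul] at h1
  have h2 := h.add h1
  rwa [← sub_eq_add_neg] at h2

private theorem mrg_hat {ι : Type} (s : Finset ι) (a : ι → ℝ) (ω : ι → Om N) {c : ℝ}
    (h : ∀ i ∈ s, BB K c (ω i)) : BB K ((∑ i ∈ s, |a i|) * c) (∑ i ∈ s, a i • ω i) := by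
  rw [Finset.sum_mul]
  exact bb_sum s _ _ fun i hi => (h i hi).smul (a i)

theorem mrg_insert {E : Type} [AddCommGroup E] [Module ℝ E] (P : ℕ) (f : ℝ → Finset ℕ → E) (t : ℝ) {i : ℕ}
    {T : Finset ℕ} (hT : T ⊆ Finset.range i) :
    mrg P f t (insert i T) = mrg P f t T + (f t (insert i T) - f t T) -
      ∑ Z ∈ Finset.range (P * qq i + 1), hat (qq i) Z t •
        (f ((Z : ℝ) / qq i) (insert i T) - f ((Z : ℝ) / qq i) T) := by
  have hi : i ∉ T := fun h => by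
    have := Finset.mem_range.1 (hT h)
    omega
  unfold mrg
  rw [Finset.sum_insert hi, ct_insert_ge le_rfl, ct_self hT]
  have h1 : ∑ j ∈ T, ∑ Z ∈ Finset.range (P * qq j + 1), hat (qq j) Z t •
      (f ((Z : ℝ) / qq j) (insert j (ct j (insert i T))) - f ((Z : ℝ) / qq j) (ct j (insert i T))) =
      ∑ j ∈ T, ∑ Z ∈ Finset.range (P * qq j + 1), hat (qq j) Z t •
      (f ((Z : ℝ) / qq j) (insert j (ct j T)) - f ((Z : ℝ) / qq j) (ct j T)) := by
    refine Finset.sum_congr rfl fun j hj => ?_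
    have h2 := Finset.mem_range.1 (hT hj)
    rw [ct_insert_ge h2.le]
  rw [h1]
  abel

theorem mrg_crs (P : ℕ) (f : ℝ → Finset ℕ → Om N) : Crs P (mrg P f) := by
  intro i T hT Z hZ
  rw [mrg_insert P f _ hT, sum_hat_node (qq_pos i)
    (fun Z => f ((Z : ℝ) / qq i) (insert i T) - f ((Z : ℝ) / qq i) T) hZ]
  abel

theorem mrg_v {c : ℝ} (hc : 0 ≤ c) {f : ℝ → Finset ℕ → Om N} (hf : LB K c f) {P i X : ℕ} {T : Finset ℕ}
    (hT : T ⊆ Finset.range i) (hX : X ≤ P * qq (i + 1)) : BB K (3 * c) (Dv i (mrg P f) X T) := by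
  have hq0 := qq_posR i
  have hq1 := qq_posR (i + 1)
  obtain ⟨t, ht⟩ : ∃ t : ℝ, t = (X : ℝ) / qq (i + 1) := ⟨_, rfl⟩
  have ht0 : 0 ≤ t := by
    rw [ht]
    positivity
  have htP : t ≤ P := by
    rw [ht, div_le_iff₀ hq1]
    exact_mod_cast hX
  have hqt : (qq i : ℝ) * t ≤ ((P * qq i : ℕ) : ℝ) := by
    push_cast
    nlinarith
  have hs := sum_hat (q := qq i) ht0 hqt
  have h1 : BB K (c * aa (i + 1)) (f t (insert i T) - f t T) := hf.2 t i T hT
  have h2 := mrg_hat (Finset.range (P * qq i + 1)) (fun Z => hat (qq i) Z t)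
    (fun Z => f ((Z : ℝ) / qq i) (insert i T) - f ((Z : ℝ) / qq i) T) (c := c * aa (i + 1))
    (fun Z _ => hf.2 _ i T hT)
  have h3 : ∑ Z ∈ Finset.range (P * qq i + 1), |hat (qq i) Z t| = 1 := by
    rw [← hs]
    exact Finset.sum_congr rfl fun Z _ => abs_of_nonneg (hat_nonneg _ _ _)
  rw [h3, one_mul] at h2
  have h4 := (mrg_sub h1 h2).smul (qq (i + 1) : ℝ)
  have h5 : Dv i (mrg P f) X T = (qq (i + 1) : ℝ) • ((f t (insert i T) - f t T) -
      ∑ Z ∈ Finset.range (P * qq i + 1), hat (qq i) Z t •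
        (f ((Z : ℝ) / qq i) (insert i T) - f ((Z : ℝ) / qq i) T)) := by
    unfold Dv
    rw [mrg_insert P f _ hT, ← ht]
    congr 1
    abel
  rw [h5]
  refine h4.mono ?_
  rw [abs_of_pos hq1]
  have h6 := qq_mul_aa (i + 1)
  have h7 : (qq (i + 1) : ℝ) * (c * aa (i + 1) + c * aa (i + 1)) =
      2 * c * ((qq (i + 1) : ℝ) * aa (i + 1)) := by ring
  rw [h7, h6]
  linarith

theorem mrg_h {c : ℝ} (hc : 0 ≤ c) {f : ℝ → Finset ℕ → Om N} (hf : LB K c f) {P i X : ℕ} {T : Finset ℕ}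
    (hT : T ⊆ Finset.range i) : BB K (3 * c) (Dh i (mrg P f) X T) := by
  have hq0 := qq_posR i
  obtain ⟨t, ht⟩ : ∃ t : ℝ, t = (X : ℝ) / qq i := ⟨_, rfl⟩
  obtain ⟨t', ht'⟩ : ∃ t' : ℝ, t' = ((X : ℝ) + 1) / qq i := ⟨_, rfl⟩
  have h1 : BB K c ((qq i : ℝ) • (f t' T - f t T)) := by
    have h2 := (hf.1 t' t T).smul (qq i : ℝ)
    refine h2.mono (le_of_eq ?_)
    have h3 : t' - t = 1 / qq i := by
      rw [ht, ht']
      ring
    rw [h3, abs_of_pos hq0, abs_of_pos (by positivity)]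
    field_simp
  have h2 : ∀ j ∈ T, BB K (2 * c * (aa (j + 1) * qq j))
      ((qq i : ℝ) • ∑ Z ∈ Finset.range (P * qq j + 1), (hat (qq j) Z t' - hat (qq j) Z t) •
        (f ((Z : ℝ) / qq j) (insert j (ct j T)) - f ((Z : ℝ) / qq j) (ct j T))) := by
    intro j hj
    have hji := Finset.mem_range.1 (hT hj)
    obtain ⟨r, hr, hqr⟩ := qq_mul hji.le
    have hr0 : (0 : ℝ) < r := by exact_mod_cast hr
    have h3 := sum_hat_step (qq_pos j) hr (P * qq j + 1) X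
    rw [← hqr, ← ht, ← ht'] at h3
    have h4 := (mrg_hat (Finset.range (P * qq j + 1)) (fun Z => hat (qq j) Z t' - hat (qq j) Z t)
      (fun Z => f ((Z : ℝ) / qq j) (insert j (ct j T)) - f ((Z : ℝ) / qq j) (ct j T))
      (c := c * aa (j + 1)) (fun Z _ => hf.2 _ j _ (ct_subset j T))).smul (qq i : ℝ)
    refine h4.mono ?_
    rw [abs_of_pos hq0]
    have haj : 0 ≤ aa (j + 1) := by
      rw [aa_eq]
      exact (inv_pos.2 (qq_posR (j + 1))).le
    have h5 : (∑ Z ∈ Finset.range (P * qq j + 1), |hat (qq j) Z t' - hat (qq j) Z t|) *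
        (c * aa (j + 1)) ≤ 2 / (r : ℝ) * (c * aa (j + 1)) :=
      mul_le_mul_of_nonneg_right h3 (mul_nonneg hc haj)
    refine (mul_le_mul_of_nonneg_left h5 hq0.le).trans (le_of_eq ?_)
    rw [hqr]
    push_cast
    field_simp
  have h3 := bb_sum T _ _ h2
  have h4 := mrg_sub h1 h3
  have h5 : Dh i (mrg P f) X T = (qq i : ℝ) • (f t' T - f t T) -
      ∑ j ∈ T, (qq i : ℝ) • ∑ Z ∈ Finset.range (P * qq j + 1),
        (hat (qq j) Z t' - hat (qq j) Z t) •
        (f ((Z : ℝ) / qq j) (insert j (ct j T)) - f ((Z : ℝ) / qq j) (ct j T)) := by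
    unfold Dh mrg
    rw [← ht, ← ht', ← Finset.smul_sum, ← smul_sub]
    congr 1
    simp only [sub_smul, Finset.sum_sub_distrib]
    abel
  rw [h5]
  refine h4.mono ?_
  rw [← Finset.mul_sum]
  have h6 := sum_aa_qq T
  nlinarith

end H46RF
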