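import Pool.Agent.H46.RF.Defs

/-!
S05864 [H46 RF TH]: the total flow of a cell.

`th n Φ i X T` = sum of the flows of the horizontal edges in the cell `[X/q_i, (X+1)/q_i] x block(T)`.
-/

set_option autoImplicit false

namespace H46RF

open H50RC H50LP

variable {N K m : ℕ}

/-- the total flow of the cell `(i, X, T)` -/
noncomputable def th (n : ℕ) (Φ : ℕ → ℕ → Finset ℕ → Y N) (i X : ℕ) (T : Finset ℕ) : Y N :=
  ∑ T' ∈ (Finset.range n).powerset.filter (fun T' => ct i T' = T),
    ∑ Y ∈ Finset.Ico (X * (qq n / qq i)) ((X + 1) * (qq n / qq i)), Φ n Y T'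

end H46RF
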