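import Pool.Agent.H46.RF.Hat
import Pool.Agent.H46.RF.Th

/-!
S05864 [H46 RF REL]: the relations of the cells (F5 of proofs 322): apply `∑_e Dφ(e) Φ_e ∈ X` to hats.

`rel0`: `φ(t,T') = min 1 (max 0 (t - X))` (a ramp, the same on all lines): `Dv` = 0, `Dh n φ Y T' = 1` for `X q_n ≤ Y < (X+1) q_n` and 0 otherwise
(`X q_n` is an integer multiple of the mesh), so `tf = th n Φ 0 X ∅` (`ct 0 T' = ∅` always, `q_n / q_0 = q_n`).
`rel1`, `rel2`: `φ(t,T') = hat (qq (i+1)) (X+1) t * (if ct (i+1) T' = T'' then 1 else 0)` with `T'' = insert i T` resp. `T'' = T`. Vertical edges `(j, Y, S)`, `S ⊆ range j`: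
* `j > i`: `ct (i+1) (insert j S) = ct (i+1) S`, `Dv = 0`;
* `j < i`: the position `Y/q_(j+1)` is a multiple of `1/q_i`, that is `Z/q_(i+1)` with `2^(i+1) ∣ Z`, so the hat at `X+1` vanishes there (`hat_node`, `X + 1 ≠ Z`): `Dv = 0`;
* `j = i`: the position is `Y/q_(i+1)`, the hat is `[Y = X+1]`; `ct (i+1) S = S`, `ct (i+1) (insert i S) = insert i S` (`S ⊆ range i`); for `T'' = insert i T`: the jump is
  `[S = T]` (`insert i S = insert i T ↔ S = T`, `S = insert i T` impossible), for `T'' = T`: the jump is `- [S = T]`.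
So the vertical edges contribute `± q_(i+1) Φ i (X+1) T`. Horizontal edges `(n, Y, T')`, `r = q_n / q_(i+1)`: `Dh n φ Y T' = q_n (1/r) ([X + 1 = Y/r + 1] - [X + 1 = Y/r]) [ct (i+1) T' = T'']`
(`hat_step`, natural division `Y/r`), `q_n (1/r) = q_(i+1)`; `Y/r = X ↔ Y ∈ Ico (X r) ((X+1) r)`. So `tf = q_(i+1) • (± Φ i (X+1) T + th (i+1) X T'' - th (i+1) (X+1) T'')`;
divide by `q_(i+1)`. (Range: `Ico ((X+1) r) ((X+2) r) ⊆ range (P q_n)` because `X + 2 ≤ P q_(i+1)`.)
-/

set_option autoImplicit false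

namespace H46RF

open H50RC H50LP Finset

variable {N K m : ℕ}

/-- vertical and horizontal parts of `tf` -/
private theorem tf_split (P n : ℕ) (Φ : ℕ → ℕ → Finset ℕ → Y N) (φ : ℝ → Finset ℕ → ℝ) :
    tf P n Φ φ = (∑ i ∈ range n, ∑ X ∈ range (P * qq (i + 1) + 1), ∑ T ∈ (range i).powerset,
        Dv i φ X T • Φ i X T)
      + ∑ T ∈ (range n).powerset, ∑ X ∈ range (P * qq n), Dh n φ X T • Φ n X T := by
  unfold tf sumE
  rw [sum_range_succ]
  congr 1
  · refine sum_congr rfl fun i hi => ?_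
    have hi' : i < n := mem_range.1 hi
    have h1 : npos P n i = P * qq (i + 1) + 1 := by rw [npos, if_pos hi']
    rw [h1]
    refine sum_congr rfl fun X _ => sum_congr rfl fun T _ => ?_
    have hD : DD n φ i X T = Dv i φ X T := if_pos hi'
    show DD n φ i X T • Φ i X T = _
    rw [hD]
  · have h1 : npos P n n = P * qq n := by rw [npos, if_neg (lt_irrefl n)]
    rw [h1, sum_comm]
    refine sum_congr rfl fun T _ => sum_congr rfl fun X _ => ?_
    have hD : DD n φ n X T = Dh n φ X T := if_neg (lt_irrefl n)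
    show DD n φ n X T • Φ n X T = _
    rw [hD]

/-- sums over an interval -/
private theorem sum_ico_ite {M a b : ℕ} (hb : b ≤ M) (F : ℕ → Y N) :
    ∑ Y ∈ range M, (if a ≤ Y ∧ Y < b then (1 : ℝ) else 0) • F Y = ∑ Y ∈ Ico a b, F Y := by
  have h1 : ∀ Y, (if a ≤ Y ∧ Y < b then (1 : ℝ) else 0) • F Y = if a ≤ Y ∧ Y < b then F Y else 0 := by
    intro Y
    split_ifs with h
    · rw [one_smul]
    · rw [zero_smul]
  rw [sum_congr rfl fun Y _ => h1 Y, ← sum_filter]
  refine sum_congr ?_ fun _ _ => rfl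
  ext Y
  rw [mem_filter, mem_range, mem_Ico]
  constructor
  · exact fun h => h.2
  · exact fun h => ⟨lt_of_lt_of_le h.2 hb, h⟩

theorem rel0 {P n : ℕ} {Φ : ℕ → ℕ → Finset ℕ → Y N} (hΦ : ∀ φ, tf P n Φ φ ∈ Xs N K m) {X : ℕ} (hX : X < P) :
    th n Φ 0 X ∅ ∈ Xs N K m := by
  let φ : ℝ → Finset ℕ → ℝ := fun t _ => min 1 (max 0 (t - X))
  have h1 := hΦ φ
  have hq : (0 : ℝ) < qq n := qq_posR n
  rw [tf_split] at h1
  have h2 : ∀ i Y T, Dv i φ Y T = 0 := by
    intro i Y T
    simp [Dv, φ]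
  have h3 : ∀ Y T, Dh n φ Y T = if X * qq n ≤ Y ∧ Y < (X + 1) * qq n then 1 else 0 := by
    intro Y T
    have hqY : ((Y : ℝ) / qq n) * qq n = Y := div_mul_cancel₀ _ hq.ne'
    have hqY1 : (((Y : ℝ) + 1) / qq n) * qq n = Y + 1 := div_mul_cancel₀ _ hq.ne'
    show (qq n : ℝ) * (min 1 (max 0 (((Y : ℝ) + 1) / qq n - X)) - min 1 (max 0 ((Y : ℝ) / qq n - X))) = _
    split_ifs with h
    · obtain ⟨ha, hb⟩ := h
      have ha' : (X : ℝ) * qq n ≤ Y := by exact_mod_cast ha
      have hb' : (Y : ℝ) + 1 ≤ (X + 1) * qq n := by exact_mod_cast hb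
      have e1 : (X : ℝ) ≤ (Y : ℝ) / qq n := by rw [le_div_iff₀ hq]; exact ha'
      have e2 : ((Y : ℝ) + 1) / qq n ≤ X + 1 := by rw [div_le_iff₀ hq]; exact hb'
      have e3 : (Y : ℝ) / qq n ≤ ((Y : ℝ) + 1) / qq n := by
        apply div_le_div_of_nonneg_right _ hq.le
        linarith
      rw [max_eq_right (by linarith), max_eq_right (by linarith), min_eq_right (by linarith),
        min_eq_right (by linarith)]
      have e4 : ((Y : ℝ) + 1) / qq n - X - ((Y : ℝ) / qq n - X) = 1 / qq n := by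
        rw [add_div]; ring
      rw [e4]
      exact mul_one_div_cancel hq.ne'
    · rcases Nat.lt_or_ge Y (X * qq n) with h' | h'
      · have ha' : (Y : ℝ) + 1 ≤ X * qq n := by exact_mod_cast h'
        have e2 : ((Y : ℝ) + 1) / qq n ≤ X := by rw [div_le_iff₀ hq]; exact ha'
        have e3 : (Y : ℝ) / qq n ≤ ((Y : ℝ) + 1) / qq n := by
          apply div_le_div_of_nonneg_right _ hq.le
          linarith
        rw [max_eq_left (by linarith), max_eq_left (by linarith)]
        simp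
      · have h'' : (X + 1) * qq n ≤ Y := by
          by_contra hc
          exact h ⟨h', by omega⟩
        have hb' : ((X : ℝ) + 1) * qq n ≤ Y := by exact_mod_cast h''
        have e2 : (X : ℝ) + 1 ≤ (Y : ℝ) / qq n := by rw [le_div_iff₀ hq]; exact hb'
        have e3 : (Y : ℝ) / qq n ≤ ((Y : ℝ) + 1) / qq n := by
          apply div_le_div_of_nonneg_right _ hq.le
          linarith
        rw [min_eq_left, min_eq_left, sub_self, mul_zero]
        · exact le_max_of_le_right (by linarith)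
        · exact le_max_of_le_right (by linarith)
  have h4 : (∑ i ∈ range n, ∑ X ∈ range (P * qq (i + 1) + 1), ∑ T ∈ (range i).powerset,
        Dv i φ X T • Φ i X T) = 0 := by
    refine sum_eq_zero fun i _ => sum_eq_zero fun Y _ => sum_eq_zero fun T _ => ?_
    rw [h2, zero_smul]
  rw [h4, zero_add] at h1
  have h5 : th n Φ 0 X ∅ = ∑ T ∈ (range n).powerset, ∑ X ∈ range (P * qq n), Dh n φ X T • Φ n X T := by
    unfold th
    have e1 : (range n).powerset.filter (fun T' => ct 0 T' = ∅) = (range n).powerset := by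
      refine filter_true_of_mem fun T _ => ?_
      unfold ct
      refine filter_false_of_mem fun k _ => ?_
      exact Nat.not_lt_zero k
    rw [e1, qq_zero, Nat.div_one]
    refine sum_congr rfl fun T _ => ?_
    rw [← sum_ico_ite (M := P * qq n) (Nat.mul_le_mul_right _ hX)]
    refine sum_congr rfl fun Y _ => ?_
    rw [h3]
  rw [h5]
  exact h1

/-- the general form of `rel1` and `rel2` -/
private theorem relg {P n : ℕ} {Φ : ℕ → ℕ → Finset ℕ → Y N} (hΦ : ∀ φ, tf P n Φ φ ∈ Xs N K m) {i : ℕ} (hi : i < n)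
    {T : Finset ℕ} (hT : T ⊆ range i) {X : ℕ} (hX : X + 1 < P * qq (i + 1)) (hd : ¬ 2 ^ (i + 1) ∣ X + 1)
    (T'' : Finset ℕ) (ε : ℝ)
    (hε : ∀ S, S ⊆ range i → (if insert i S = T'' then (1 : ℝ) else 0) - (if S = T'' then 1 else 0)
      = ε * (if S = T then 1 else 0)) :
    ε • Φ i (X + 1) T + th n Φ (i + 1) X T'' - th n Φ (i + 1) (X + 1) T'' ∈ Xs N K m := by
  let φ : ℝ → Finset ℕ → ℝ := fun t T' => hat (qq (i + 1)) (X + 1) t * (if ct (i + 1) T' = T'' then 1 else 0)
  have h1 := hΦ φ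
  have hq : (0 : ℝ) < qq (i + 1) := qq_posR _
  obtain ⟨r, hr, hr2⟩ := qq_mul (show i + 1 ≤ n by omega)
  have hrR : (0 : ℝ) < r := by exact_mod_cast hr
  have hdiv : qq n / qq (i + 1) = r := by rw [hr2]; exact Nat.mul_div_cancel_left _ (qq_pos _)
  rw [tf_split] at h1
  -- vertical edges
  have hDv : ∀ j Y S, Dv j φ Y S = (qq (j + 1) : ℝ) * (hat (qq (i + 1)) (X + 1) ((Y : ℝ) / qq (j + 1)) *
      ((if ct (i + 1) (insert j S) = T'' then 1 else 0) - (if ct (i + 1) S = T'' then 1 else 0))) := by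
    intro j Y S
    show (qq (j + 1) : ℝ) * (hat (qq (i + 1)) (X + 1) ((Y : ℝ) / qq (j + 1)) * (if ct (i + 1) (insert j S) = T'' then 1 else 0)
      - hat (qq (i + 1)) (X + 1) ((Y : ℝ) / qq (j + 1)) * (if ct (i + 1) S = T'' then 1 else 0)) = _
    ring
  have h2 : ∀ j, j ≠ i → ∀ Y S, Dv j φ Y S = 0 := by
    intro j hj Y S
    rw [hDv]
    rcases Nat.lt_or_gt_of_ne hj with h | h
    · -- j < i
      obtain ⟨r', hr', hr2'⟩ := qq_mul (show j + 1 ≤ i by omega)
      have e1 : (Y : ℝ) / qq (j + 1) = ((Y * (r' * 2 ^ (i + 1)) : ℕ) : ℝ) / qq (i + 1) := by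
        rw [qq_succ i, hr2']
        have e2 : (0 : ℝ) < qq (j + 1) := qq_posR _
        have e3 : (0 : ℝ) < r' := by exact_mod_cast hr'
        push_cast
        field_simp
      rw [e1, hat_node (qq_pos _), if_neg]
      · ring
      · intro h'
        refine hd ?_
        rw [h']
        exact Dvd.intro_left (Y * r') (by ring)
    · rw [ct_insert_ge (by omega), sub_self, mul_zero, mul_zero]
  have h3 : ∀ Y S, S ⊆ range i → Dv i φ Y S = if Y = X + 1 then (if S = T then (qq (i + 1) : ℝ) * ε else 0) else 0 := by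
    intro Y S hS
    have e1 : ct (i + 1) S = S := ct_self fun k hk => by
      have := mem_range.1 (hS hk)
      exact mem_range.2 (by omega)
    rw [hDv, hat_node (qq_pos _), ct_insert_lt (by omega), e1, hε S hS]
    by_cases hY : Y = X + 1
    · rw [if_pos hY.symm, if_pos hY]
      by_cases hS' : S = T
      · rw [if_pos hS', if_pos hS']; ring
      · rw [if_neg hS', if_neg hS']; ring
    · rw [if_neg (fun h => hY h.symm), if_neg hY]; ring
  have h4 : (∑ j ∈ range n, ∑ Y ∈ range (P * qq (j + 1) + 1), ∑ S ∈ (range j).powerset,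
        Dv j φ Y S • Φ j Y S) = (qq (i + 1) : ℝ) • (ε • Φ i (X + 1) T) := by
    rw [sum_eq_single_of_mem i (mem_range.2 hi)]
    · rw [sum_eq_single_of_mem (X + 1) (mem_range.2 (by omega))]
      · rw [sum_eq_single_of_mem T (mem_powerset.2 hT)]
        · rw [h3 _ _ hT, if_pos rfl, if_pos rfl, mul_smul]
        · intro S hS hST
          rw [h3 _ _ (mem_powerset.1 hS), if_pos rfl, if_neg hST, zero_smul]
      · intro Y _ hY
        refine sum_eq_zero fun S hS => ?_
        rw [h3 _ _ (mem_powerset.1 hS), if_neg hY, zero_smul]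
    · intro j _ hj
      refine sum_eq_zero fun Y _ => sum_eq_zero fun S _ => ?_
      rw [h2 j hj, zero_smul]
  -- horizontal edges
  have h5 : ∀ Y T', Dh n φ Y T' = (if ct (i + 1) T' = T'' then (qq (i + 1) : ℝ) *
      ((if X * r ≤ Y ∧ Y < (X + 1) * r then 1 else 0) - (if (X + 1) * r ≤ Y ∧ Y < (X + 1 + 1) * r then 1 else 0)) else 0) := by
    intro Y T'
    have e1 : Dh n φ Y T' = (qq n : ℝ) * ((hat (qq (i + 1)) (X + 1) (((Y : ℝ) + 1) / ((qq (i + 1) * r : ℕ) : ℝ))
        - hat (qq (i + 1)) (X + 1) ((Y : ℝ) / ((qq (i + 1) * r : ℕ) : ℝ))) * (if ct (i + 1) T' = T'' then 1 else 0)) := by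
      rw [← hr2]
      show (qq n : ℝ) * (hat (qq (i + 1)) (X + 1) (((Y : ℝ) + 1) / qq n) * (if ct (i + 1) T' = T'' then 1 else 0)
        - hat (qq (i + 1)) (X + 1) ((Y : ℝ) / qq n) * (if ct (i + 1) T' = T'' then 1 else 0)) = _
      ring
    rw [e1, hat_step (qq_pos _) hr]
    have e2 : (X + 1 = Y / r + 1) ↔ (X * r ≤ Y ∧ Y < (X + 1) * r) := by
      rw [Nat.add_right_cancel_iff, eq_comm, Nat.div_eq_iff hr]
      have e0 : (X + 1) * r = X * r + r := by ring
      constructor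
      · rintro ⟨a, b⟩
        exact ⟨by omega, by omega⟩
      · rintro ⟨a, b⟩
        exact ⟨by omega, by omega⟩
    have e3 : (X + 1 = Y / r) ↔ ((X + 1) * r ≤ Y ∧ Y < (X + 1 + 1) * r) := by
      rw [eq_comm, Nat.div_eq_iff hr]
      have e0 : (X + 1 + 1) * r = (X + 1) * r + r := by ring
      constructor
      · rintro ⟨a, b⟩
        exact ⟨by omega, by omega⟩
      · rintro ⟨a, b⟩
        exact ⟨by omega, by omega⟩
    have e4 : (qq n : ℝ) * (1 / r) = qq (i + 1) := by
      rw [hr2]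
      push_cast
      field_simp
    simp only [e2, e3]
    by_cases hc : ct (i + 1) T' = T''
    · rw [if_pos hc, if_pos hc, mul_one, ← mul_assoc, e4]
    · rw [if_neg hc, if_neg hc, mul_zero, mul_zero]
  have h6 : (∑ T' ∈ (range n).powerset, ∑ Y ∈ range (P * qq n), Dh n φ Y T' • Φ n Y T')
      = (qq (i + 1) : ℝ) • (th n Φ (i + 1) X T'' - th n Φ (i + 1) (X + 1) T'') := by
    unfold th
    rw [hdiv, ← sum_sub_distrib, smul_sum, sum_filter]
    refine sum_congr rfl fun T' _ => ?_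
    have hle : (X + 1 + 1) * r ≤ P * qq n := by
      rw [hr2, ← mul_assoc]
      exact Nat.mul_le_mul_right _ hX
    have hle' : (X + 1) * r ≤ P * qq n := le_trans (Nat.mul_le_mul_right _ (by omega)) hle
    by_cases hc : ct (i + 1) T' = T''
    · rw [if_pos hc, ← sum_ico_ite hle', ← sum_ico_ite hle, ← sum_sub_distrib, smul_sum]
      refine sum_congr rfl fun Y _ => ?_
      rw [h5, if_pos hc, mul_smul, sub_smul]
    · rw [if_neg hc]
      refine sum_eq_zero fun Y _ => ?_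
      rw [h5, if_neg hc, zero_smul]
  rw [h4, h6, ← smul_add] at h1
  have h7 := (Xs N K m).smul_mem (qq (i + 1) : ℝ)⁻¹ h1
  rw [smul_smul, inv_mul_cancel₀ hq.ne', one_smul, ← add_sub_assoc] at h7
  exact h7

theorem rel1 {P n : ℕ} {Φ : ℕ → ℕ → Finset ℕ → Y N} (hΦ : ∀ φ, tf P n Φ φ ∈ Xs N K m) :
    ∀ i < n, ∀ T, T ⊆ Finset.range i → ∀ X, X + 1 < P * qq (i + 1) → ¬ 2 ^ (i + 1) ∣ X + 1 →
      Φ i (X + 1) T + th n Φ (i + 1) X (insert i T) - th n Φ (i + 1) (X + 1) (insert i T) ∈ Xs N K m := by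
  intro i hi T hT X hX hd
  have h := relg hΦ hi hT hX hd (insert i T) 1 fun S hS => by
    have hiS : i ∉ S := fun h => absurd (mem_range.1 (hS h)) (lt_irrefl _)
    have hiT : i ∉ T := fun h => absurd (mem_range.1 (hT h)) (lt_irrefl _)
    have e1 : S ≠ insert i T := fun h => hiS (by rw [h]; exact mem_insert_self _ _)
    rw [if_neg e1, sub_zero, one_mul]
    by_cases hST : S = T
    · rw [if_pos hST, if_pos (by rw [hST])]
    · rw [if_neg hST, if_neg]
      intro h
      apply hST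
      rw [← erase_insert hiS, ← erase_insert hiT, h]
  rwa [one_smul] at h

theorem rel2 {P n : ℕ} {Φ : ℕ → ℕ → Finset ℕ → Y N} (hΦ : ∀ φ, tf P n Φ φ ∈ Xs N K m) :
    ∀ i < n, ∀ T, T ⊆ Finset.range i → ∀ X, X + 1 < P * qq (i + 1) → ¬ 2 ^ (i + 1) ∣ X + 1 →
      -Φ i (X + 1) T + th n Φ (i + 1) X T - th n Φ (i + 1) (X + 1) T ∈ Xs N K m := by
  intro i hi T hT X hX hd
  have h := relg hΦ hi hT hX hd T (-1) fun S hS => by
    have hiT : i ∉ T := fun h => absurd (mem_range.1 (hT h)) (lt_irrefl _)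
    have e1 : insert i S ≠ T := fun h => hiT (by rw [← h]; exact mem_insert_self _ _)
    rw [if_neg e1]
    ring
  rwa [neg_one_smul] at h

end H46RF
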