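import Pool.Agent.H46.RF.Defs

/-!
S05864 [H46 RF SNAP]: approximation of points of `ℝ × cA` by grid points.

`snapA`: `a = cpt e` (definition of `cA`); `T = (range n).filter (fun k => e k)`; `a - vl T = ∑_(k ≥ n) e_k a_(k+1) ∈ [0, (4/3) a_(n+1)]`, `a_(n+1) ≤ a_n/2`
(`cpt_summable`, `Summable.sum_add_tsum_nat_add`, `aa_le` as in the proof of `cpt_lt` in `H50/RC/Unc2.lean`).
`snapX`: `Y = ⌊q_n t⌋₊`.
-/

set_option autoImplicit false

namespace H46RF

open H50RC H50LP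

theorem snapA (a : cA) (n : ℕ) : ∃ T : Finset ℕ, T ⊆ Finset.range n ∧ |(a : ℝ) - vl T| ≤ aa n := by
  obtain ⟨a, e, he⟩ := a
  refine ⟨(Finset.range n).filter (fun k => e k = true), Finset.filter_subset _ _, ?_⟩
  have hs := cpt_summable e
  have h1 := hs.sum_add_tsum_nat_add n
  have h2 : vl ((Finset.range n).filter (fun k => e k = true)) =
      ∑ i ∈ Finset.range n, (if e i then aa (i + 1) else 0) := by
    unfold vl
    rw [Finset.sum_filter]
  have hg : Summable fun i : ℕ => aa (n + 1) * (1 / 4 : ℝ) ^ i :=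
    (summable_geometric_of_lt_one (by norm_num) (by norm_num)).mul_left _
  have hs' : Summable fun i => (if e (i + n) then aa (i + n + 1) else 0) :=
    (summable_nat_add_iff (f := fun i => if e i then aa (i + 1) else 0) n).2 hs
  have h3 : 0 ≤ ∑' i, (if e (i + n) then aa (i + n + 1) else 0) := by
    refine tsum_nonneg fun i => ?_
    split_ifs
    · exact (aa_pos _).le
    · exact le_rfl
  have h4 : ∑' i, (if e (i + n) then aa (i + n + 1) else 0) ≤
      ∑' i : ℕ, aa (n + 1) * (1 / 4 : ℝ) ^ i := by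
    refine Summable.tsum_le_tsum (fun i => ?_) hs' hg
    have h5 := aa_le n i
    have h6 : n + 1 + i = i + n + 1 := by ring
    rw [h6] at h5
    split_ifs
    · exact h5
    · exact (aa_pos _).le.trans h5
  have h5 : ∑' i : ℕ, aa (n + 1) * (1 / 4 : ℝ) ^ i = aa (n + 1) * (4 / 3) := by
    rw [tsum_mul_left, tsum_geometric_of_lt_one (by norm_num) (by norm_num)]
    norm_num
  have h6 : aa (n + 1) ≤ aa n * (1 / 2) := by
    rw [aa_succ]
    refine mul_le_mul_of_nonneg_left ?_ (aa_pos n).le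
    rw [pow_succ]
    have : (2 : ℝ)⁻¹ ^ n ≤ 1 := pow_le_one₀ (by norm_num) (by norm_num)
    linarith
  have h7 := aa_pos n
  show |a - vl _| ≤ aa n
  rw [he, ← h1, h2, add_sub_cancel_left, abs_of_nonneg h3]
  linarith

theorem snapX {P : ℕ} {t : ℝ} (h0 : 0 ≤ t) (h1 : t ≤ P) (n : ℕ) :
    ∃ Y : ℕ, Y ≤ P * qq n ∧ |t - (Y : ℝ) / qq n| ≤ aa n := by
  have hq := qq_posR n
  refine ⟨⌊(qq n : ℝ) * t⌋₊, ?_, ?_⟩
  · refine Nat.floor_le_of_le ?_
    push_cast
    rw [mul_comm]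
    exact mul_le_mul_of_nonneg_right h1 hq.le
  · have h2 : (⌊(qq n : ℝ) * t⌋₊ : ℝ) ≤ qq n * t := Nat.floor_le (by positivity)
    have h3 : (qq n : ℝ) * t < ⌊(qq n : ℝ) * t⌋₊ + 1 := Nat.lt_floor_add_one _
    have h4 : t - (⌊(qq n : ℝ) * t⌋₊ : ℝ) / qq n =
        (qq n * t - ⌊(qq n : ℝ) * t⌋₊) / qq n := by
      field_simp
    rw [h4, abs_div, abs_of_pos hq, aa_eq, div_le_iff₀ hq, inv_mul_cancel₀ hq.ne',
      abs_of_nonneg (by linarith)]
    linarith

theorem aa_small {ε : ℝ} (hε : 0 < ε) : ∃ n0 : ℕ, ∀ n, n0 ≤ n → aa n ≤ ε := by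
  obtain ⟨n0, h0⟩ := exists_pow_lt_of_lt_one hε (by norm_num : (2 : ℝ)⁻¹ < 1)
  refine ⟨n0, fun n hn => ?_⟩
  refine le_trans ?_ h0.le
  unfold aa
  refine pow_le_pow_of_le_one (by norm_num) (by norm_num) (hn.trans ?_)
  rcases Nat.eq_zero_or_pos n with h | h
  · subst h
    exact Nat.zero_le _
  · rw [Nat.le_div_iff_mul_le (by norm_num)]
    nlinarith

end H46RF
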