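import Pool.Agent.H46.RF.Mrg
import Pool.Agent.H46.RF.Merr
import Pool.Agent.H46.RF.CellS
import Pool.Agent.H46.RF.Rel
import Pool.Agent.H46.RF.Snap
import Pool.Agent.H46.RF.Flo
import Pool.Agent.H46.RF.Ftr
import Pool.Agent.H46.RF.Hh

/-!
S05864: PART F (reduction), assembly.
-/

set_option autoImplicit false

namespace H46RF

open H50RC H50LP

variable {N K m : ℕ}

theorem unif_nr (hN : 1 ≤ N) : nr K (fun w : Nd N => (((N : ℝ) ^ w.length)⁻¹ : ℝ) • (1 : ℂ)) = 1 := by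
  have hN0 : (0 : ℝ) < N := by exact_mod_cast hN
  unfold nr
  have h1 : ∀ w ∈ lev N K, ‖(((N : ℝ) ^ w.length)⁻¹ : ℝ) • (1 : ℂ)‖ = ((N : ℝ) ^ K)⁻¹ := by
    intro w hw
    rw [mem_lev.1 hw, norm_smul, norm_one, mul_one, Real.norm_eq_abs, abs_of_pos (by positivity)]
  rw [Finset.sum_congr rfl h1, Finset.sum_const, card_lev, nsmul_eq_mul]
  push_cast
  exact mul_inv_cancel₀ (by positivity)

theorem c1_nonneg (hN : 1 ≤ N) {C1 : ℝ} (h : PairStatement N K m C1) : 0 ≤ C1 := by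
  have h1 := h 0 (fun k _ => by simp) _ (unif_mem (K := K) (m := m) hN)
  rw [unif_nr hN, pr_zero_left, abs_zero, mul_one] at h1
  exact h1

theorem kap_nonneg (hN : 1 ≤ N) {κ : ℝ} (h : CoreStatement N K m κ) : 0 ≤ κ := by
  have h1 := h (.leaf (fun w : Nd N => (((N : ℝ) ^ w.length)⁻¹ : ℝ) • (1 : ℂ))) 0
    ⟨fun k _ => by simp, (unif_mem (K := K) (m := m) hN).1⟩ (unif_mem (K := K) (m := m) hN)
  simp only [Cell.Tot, Cell.mass] at h1
  rw [unif_nr hN, pr_zero_left, abs_zero, mul_one] at h1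
  exact h1

theorem DD_smul (n : ℕ) (r : ℝ) (f : ℝ → Finset ℕ → Om N) (i X : ℕ) (T : Finset ℕ) :
    DD n (fun t T => r • f t T) i X T = r • DD n f i X T := by
  unfold DD Dv Dh
  split_ifs <;> rw [← smul_sub, smul_comm]

theorem pf_smul (P n : ℕ) (Φ : ℕ → ℕ → Finset ℕ → Y N) (r : ℝ) (f : ℝ → Finset ℕ → Om N) :
    pf K m P n Φ (fun t T => r • f t T) = r * pf K m P n Φ f := by
  unfold pf sumE
  rw [Finset.mul_sum]
  refine Finset.sum_congr rfl fun i _ => ?_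
  rw [Finset.mul_sum]
  refine Finset.sum_congr rfl fun X _ => ?_
  rw [Finset.mul_sum]
  refine Finset.sum_congr rfl fun T _ => ?_
  beta_reduce
  rw [DD_smul, pr_smul_left]

/-- F4 and F5 -/
theorem pf_bound {κ C1 : ℝ} (hN : 1 ≤ N) (hcore : CoreStatement N K m κ) (hpair : PairStatement N K m C1)
    {P n : ℕ} {Φ : ℕ → ℕ → Finset ℕ → Y N} (hV : ∀ i X T, Φ i X T ∈ Vs N K)
    (hΦ : ∀ φ, tf P n Φ φ ∈ Xs N K m) {c : ℝ} (hc : 0 < c) {f : ℝ → Finset ℕ → Om N} (hf : LB K c f) :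
    |pf K m P n Φ f| ≤ c * (3 * κ + 2 * C1) * ms K P n Φ := by
  have hC1 := c1_nonneg hN hpair
  have hκ := kap_nonneg hN hcore
  set g : ℝ → Finset ℕ → Om N := fun t T => (3 * c)⁻¹ • mrg P f t T with hg
  have h3c : (3 * c)⁻¹ * (3 * c) = 1 := inv_mul_cancel₀ (by positivity)
  have habs : |(3 * c)⁻¹| = (3 * c)⁻¹ := abs_of_pos (by positivity)
  have hcrs : Crs P g := by
    intro i T hT Z hZ
    show (3 * c)⁻¹ • mrg P f _ _ = (3 * c)⁻¹ • mrg P f _ _
    rw [mrg_crs P f i T hT Z hZ]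
  have hDh : ∀ i X T, Dh i g X T = (3 * c)⁻¹ • Dh i (mrg P f) X T := by
    intro i X T
    show (qq i : ℝ) • ((3 * c)⁻¹ • mrg P f _ _ - (3 * c)⁻¹ • mrg P f _ _) = _
    unfold Dh
    rw [← smul_sub, smul_comm]
  have hDv : ∀ i X T, Dv i g X T = (3 * c)⁻¹ • Dv i (mrg P f) X T := by
    intro i X T
    show (qq (i + 1) : ℝ) • ((3 * c)⁻¹ • mrg P f _ _ - (3 * c)⁻¹ • mrg P f _ _) = _
    unfold Dv
    rw [← smul_sub, smul_comm]
  have hh : ∀ i ≤ n, ∀ X < P * qq i, ∀ T, T ⊆ Finset.range i → BB K 1 (Dh i g X T) := by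
    intro i _ X _ T hT
    have h1 := (mrg_h hc.le hf (P := P) (X := X) hT).smul (3 * c)⁻¹
    rw [habs, h3c] at h1
    rw [hDh]
    exact h1
  have hv : ∀ i < n, ∀ X ≤ P * qq (i + 1), ∀ T, T ⊆ Finset.range i → BB K 1 (Dv i g X T) := by
    intro i _ X hX T hT
    have h1 := (mrg_v hc.le hf (P := P) hT hX).smul (3 * c)⁻¹
    rw [habs, h3c] at h1
    rw [hDv]
    exact h1
  have hwf := mkc_wf hcrs hh hv hV (rel1 hΦ) (rel2 hΦ)
  have hcell : ∀ X ∈ Finset.range P, |(mkc Φ g n 0 X ∅).Tot K m (Dh 0 g X ∅)| ≤ κ * (mkc Φ g n 0 X ∅).mass K := by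
    intro X hX
    have hX' := Finset.mem_range.1 hX
    have h1 := hwf n 0 X ∅ (by omega) (Finset.empty_subset _) (by rw [qq_zero]; omega)
    refine hcore _ _ h1 ?_
    rw [mkc_tot Φ g n n 0 X ∅ (by omega) (Finset.empty_subset _)]
    exact rel0 hΦ hX'
  have h1 : |pf K m P n Φ g| ≤ κ * ms K P n Φ := by
    rw [← mkc_Tot_sum Φ hcrs]
    calc |∑ X ∈ Finset.range P, (mkc Φ g n 0 X ∅).Tot K m (Dh 0 g X ∅)| ≤
        ∑ X ∈ Finset.range P, |(mkc Φ g n 0 X ∅).Tot K m (Dh 0 g X ∅)| := Finset.abs_sum_le_sum_abs _ _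
      _ ≤ ∑ X ∈ Finset.range P, κ * (mkc Φ g n 0 X ∅).mass K := Finset.sum_le_sum hcell
      _ = κ * ∑ X ∈ Finset.range P, (mkc Φ g n 0 X ∅).mass K := by rw [Finset.mul_sum]
      _ ≤ κ * ms K P n Φ := mul_le_mul_of_nonneg_left (mkc_mass_sum Φ g) hκ
  have h2 : pf K m P n Φ (mrg P f) = 3 * c * pf K m P n Φ g := by
    rw [hg, pf_smul, ← mul_assoc, mul_inv_cancel₀ (by positivity), one_mul]
  have h3 := mrg_err hC1 hpair hc.le hΦ hf
  have h4 : |pf K m P n Φ (mrg P f)| ≤ 3 * c * (κ * ms K P n Φ) := by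
    rw [h2, abs_mul, abs_of_pos (by positivity : (0 : ℝ) < 3 * c)]
    exact mul_le_mul_of_nonneg_left h1 (by positivity)
  have h5 : |pf K m P n Φ f| ≤ |pf K m P n Φ f - pf K m P n Φ (mrg P f)| + |pf K m P n Φ (mrg P f)| := by
    have := abs_add_le (pf K m P n Φ f - pf K m P n Φ (mrg P f)) (pf K m P n Φ (mrg P f))
    rwa [sub_add_cancel] at this
  nlinarith [h3, h4, h5]

theorem lin_empty : lin ∅ = cA0 := by
  apply Subtype.ext
  show vl ∅ = (cA0 : ℝ)
  unfold vl cA0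
  simp

/-- the statement for finitely supported operators -/
theorem fin_bound {κ C1 : ℝ} (hN : 1 ≤ N) (hcore : CoreStatement N K m κ) (hpair : PairStatement N K m C1)
    (f : Nd N → LX cA cA0) {c : ℝ} (hc : 0 < c)
    (hfh : ∀ x x' (a : cA), BB K (c * |x - x'|) (fun w => (f w).1 x a - (f w).1 x' a))
    (hfv : ∀ x (a a' : cA), BB K (c * |(a : ℝ) - a'|) (fun w => (f w).1 x a - (f w).1 x a'))
    (S : Finset (ℝ × cA)) (y : ℝ × cA → Y N) (hy : ∀ s ∈ S, y s ∈ Xs N K m)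
    (hb : ∀ φ : LX cA cA0, lipB 1 φ.1 → ∀ g ∈ lev N K,
      |(∑ s ∈ S, φ.1 s.1 s.2 • y s g).re| ≤ 1 ∧ |(∑ s ∈ S, φ.1 s.1 s.2 • y s g).im| ≤ 1) :
    |∑ s ∈ S, pr K m (fun w => (f w).1 s.1 s.2) (y s)| ≤ c * (300 * (κ + C1)) * (N : ℝ) ^ K := by
  have hC1 := c1_nonneg hN hpair
  have hκ := kap_nonneg hN hcore
  -- the width
  obtain ⟨W, hW⟩ : ∃ W : ℕ, ∀ s ∈ S, |s.1| ≤ W := by
    obtain ⟨W, hW⟩ := exists_nat_ge (∑ s ∈ S, |s.1|)
    exact ⟨W, fun s hs => (Finset.single_le_sum (f := fun s : ℝ × cA => |s.1|)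
      (fun _ _ => abs_nonneg _) hs).trans hW⟩
  set A1 : ℝ := ∑ s ∈ S, ∑ g ∈ lev N K, ‖y s g‖ with hA1
  have hA1n : 0 ≤ A1 := Finset.sum_nonneg fun _ _ => Finset.sum_nonneg fun _ _ => norm_nonneg _
  set B1 : ℝ := ∑ s ∈ S, (K : ℝ) * nr K (y s) with hB1
  have hB1n : 0 ≤ B1 := Finset.sum_nonneg fun s _ => mul_nonneg (Nat.cast_nonneg _) (nr_nonneg _)
  refine le_of_forall_pos_le_add fun ε hε => ?_
  obtain ⟨n0, hn0⟩ := aa_small (ε := min (1 / (2 * (A1 + 1))) (ε / (2 * c * (B1 + 1)))) (by positivity)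
  have hn := hn0 n0 le_rfl
  set n := n0 with hn'
  have hn1 : aa n ≤ 1 / (2 * (A1 + 1)) := hn.trans (min_le_left _ _)
  have hn2 : aa n ≤ ε / (2 * c * (B1 + 1)) := hn.trans (min_le_right _ _)
  have ha0 := aa_pos n
  -- snapping
  have hx : ∀ s : ℝ × cA, ∃ Z : ℕ, s ∈ S → Z ≤ 2 * W * qq n ∧ |s.1 + W - (Z : ℝ) / qq n| ≤ aa n := by
    intro s
    by_cases hs : s ∈ S
    · have h1 := abs_le.1 (hW s hs)
      obtain ⟨Z, hZ1, hZ2⟩ := snapX (P := 2 * W) (t := s.1 + W) (by linarith [h1.1])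
        (by push_cast; linarith [h1.2]) n
      exact ⟨Z, fun _ => ⟨hZ1, hZ2⟩⟩
    · exact ⟨0, fun h => absurd h hs⟩
  choose X' hX' using hx
  have ht : ∀ s : ℝ × cA, ∃ T : Finset ℕ, T ⊆ Finset.range n ∧ |(s.2 : ℝ) - vl T| ≤ aa n := fun s => snapA s.2 n
  choose T' hT' using ht
  obtain ⟨Φ, hV, hΦ, hms, hpf⟩ := flow_exists S y hy hb W n X' T' (fun s hs => hX' s hs) (fun s _ => hT' s) (by
    rw [← hA1]
    have : 2 * aa n * A1 ≤ 2 * (1 / (2 * (A1 + 1))) * A1 := by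
      apply mul_le_mul_of_nonneg_right _ hA1n
      linarith
    refine this.trans ?_
    rw [show 2 * (1 / (2 * (A1 + 1))) * A1 = A1 / (A1 + 1) by field_simp]
    rw [div_le_one (by linarith)]
    linarith)
  -- the function on the grid
  set F : ℝ → Finset ℕ → Om N := fun t T w => (f w).1 (t - W) (lin T) with hF
  have hLB : LB K c F := by
    refine ⟨fun t t' T => ?_, fun t i T hT => ?_⟩
    · have h1 := hfh (t - W) (t' - W) (lin T)
      rw [sub_sub_sub_cancel_right] at h1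
      exact h1
    · have h1 := hfv (t - W) (lin (insert i T)) (lin T)
      have h2 : |((lin (insert i T) : cA) : ℝ) - (lin T : cA)| = aa (i + 1) := by
        show |vl (insert i T) - vl T| = aa (i + 1)
        unfold vl
        rw [Finset.sum_insert (fun h => by have := Finset.mem_range.1 (hT h); omega), add_sub_cancel_right,
          abs_of_pos (aa_pos _)]
      rw [h2] at h1
      exact h1
  have hb1 := pf_bound hN hcore hpair hV hΦ hc hLB
  rw [hpf F] at hb1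
  have hF0 : F W ∅ = 0 := by
    funext w
    show (f w).1 (W - W) (lin ∅) = 0
    rw [sub_self, lin_empty]
    exact (f w).2.1
  -- the error of the snapping
  have herr : ∀ s ∈ S, |pr K m (fun w => (f w).1 s.1 s.2) (y s) -
      pr K m (F ((X' s : ℝ) / qq n) (T' s) - F W ∅) (y s)| ≤ c * (2 * aa n) * (K * nr K (y s)) := by
    intro s hs
    rw [hF0, sub_zero, ← pr_sub_left]
    obtain ⟨-, hx2⟩ := hX' s hs
    obtain ⟨-, ht2⟩ := hT' s
    have e1 : (fun w => (f w).1 s.1 s.2) - F ((X' s : ℝ) / qq n) (T' s) =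
        (fun w => (f w).1 s.1 s.2 - (f w).1 ((X' s : ℝ) / qq n - W) s.2) +
        (fun w => (f w).1 ((X' s : ℝ) / qq n - W) s.2 - (f w).1 ((X' s : ℝ) / qq n - W) (lin (T' s))) := by
      funext w
      simp only [hF, Pi.sub_apply, Pi.add_apply]
      ring
    have h1 := (hfh s.1 ((X' s : ℝ) / qq n - W) s.2).add (hfv ((X' s : ℝ) / qq n - W) s.2 (lin (T' s)))
    rw [e1]
    have h2 : c * |s.1 - ((X' s : ℝ) / qq n - W)| + c * |(s.2 : ℝ) - ((lin (T' s) : cA) : ℝ)| ≤ c * (2 * aa n) := by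
      have h3 : |s.1 - ((X' s : ℝ) / qq n - W)| ≤ aa n := by
        rw [show s.1 - ((X' s : ℝ) / qq n - W) = s.1 + W - (X' s : ℝ) / qq n by ring]
        exact hx2
      have h4 : |(s.2 : ℝ) - ((lin (T' s) : cA) : ℝ)| ≤ aa n := ht2
      have := mul_le_mul_of_nonneg_left (add_le_add h3 h4) hc.le
      linarith
    have h5 := abs_pr_le m (h1.mono h2) (hy s hs).1
    rw [mul_assoc] at h5
    exact h5
  have hsum : |∑ s ∈ S, pr K m (fun w => (f w).1 s.1 s.2) (y s) -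
      ∑ s ∈ S, pr K m (F ((X' s : ℝ) / qq n) (T' s) - F W ∅) (y s)| ≤ ε := by
    rw [← Finset.sum_sub_distrib]
    refine (Finset.abs_sum_le_sum_abs _ _).trans ((Finset.sum_le_sum herr).trans ?_)
    rw [← Finset.mul_sum, ← hB1]
    have h1 : c * (2 * aa n) * B1 ≤ c * (2 * (ε / (2 * c * (B1 + 1)))) * B1 := by
      apply mul_le_mul_of_nonneg_right _ hB1n
      apply mul_le_mul_of_nonneg_left _ hc.le
      linarith
    refine h1.trans ?_
    rw [show c * (2 * (ε / (2 * c * (B1 + 1)))) * B1 = ε * (B1 / (B1 + 1)) by field_simp]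
    have h2 : B1 / (B1 + 1) ≤ 1 := by
      rw [div_le_one (by linarith)]
      linarith
    nlinarith
  have hfin : c * (3 * κ + 2 * C1) * ms K (2 * W) n Φ ≤ c * (300 * (κ + C1)) * (N : ℝ) ^ K := by
    have h1 : c * (3 * κ + 2 * C1) * ms K (2 * W) n Φ ≤ c * (3 * κ + 2 * C1) * (100 * (N : ℝ) ^ K) :=
      mul_le_mul_of_nonneg_left hms (by positivity)
    refine h1.trans ?_
    have h2 : 0 ≤ c * C1 * (N : ℝ) ^ K := by positivity
    nlinarith
  have h6 := abs_sub_abs_le_abs_sub (∑ s ∈ S, pr K m (fun w => (f w).1 s.1 s.2) (y s))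
    (∑ s ∈ S, pr K m (F ((X' s : ℝ) / qq n) (T' s) - F W ∅) (y s))
  linarith

/-- PART F -/
theorem red_main : ∃ CF : ℝ, 0 ≤ CF ∧ RedStatement CF := by
  refine ⟨600, by norm_num, ?_⟩
  intro N K m κ C1 hN hm hcore hpair B A a b ha hb hAX hB hA
  have hC1 := c1_nonneg hN hpair
  have hκ := kap_nonneg hN hcore
  obtain ⟨h1, h2⟩ := bb_bound hN B b hB
  have key : ∀ b' : ℝ, b < b' → |tau K m (fun y => A (B y))| ≤ a * (2 * b' * (300 * (κ + C1))) := by
    intro b' hb'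
    have hb0 : 0 < b' := lt_of_le_of_lt hb hb'
    unfold tau
    refine red_of_fin hN (fun w => B (hh K m w)) (2 * b' * (300 * (κ + C1))) (by positivity) ?_ A a ha hAX hA
    intro S y hy hbd
    refine fin_bound hN hcore hpair (fun w => B (hh K m w)) (c := 2 * b') (by positivity) ?_ ?_ S y hy hbd
    · intro x x' a
      refine (h1 x x' a).mono ?_
      exact mul_le_mul_of_nonneg_right (by linarith) (abs_nonneg _)
    · intro x a a'
      refine (h2 x a a').mono ?_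
      exact mul_le_mul_of_nonneg_right (by linarith) (abs_nonneg _)
  refine le_of_forall_pos_le_add fun ε hε => ?_
  set D : ℝ := a * (600 * (κ + C1)) with hD
  have hD0 : 0 ≤ D := by positivity
  have h3 := key (b + ε / (D + 1)) (by have : 0 < ε / (D + 1) := by positivity
                                       linarith)
  have h4 : a * (2 * (b + ε / (D + 1)) * (300 * (κ + C1))) = a * b * 600 * (κ + C1) + ε * (D / (D + 1)) := by
    rw [hD]
    have : a * (600 * (κ + C1)) + 1 ≠ 0 := by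
      rw [← hD]
      linarith
    field_simp
    ring
  have h5 : D / (D + 1) ≤ 1 := by
    rw [div_le_one (by linarith)]
    linarith
  have h6 : ε * (D / (D + 1)) ≤ ε := by nlinarith
  linarith

end H46RF
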