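import Pool.Agent.H46.RF.Gl
import Pool.Agent.H50.RC.EF

/-!
S05864 [H46 RF TB]: the functionals on the grid are bounded (F2 and F3 of proofs 322).

Proof of `t_bound`. Grid points: `u(Y, T) = (Y/q_n - W, lin T) ∈ ℝ × cA`, `Y ≤ 2 W q_n`, `T ⊆ range n`. By `grid_lip` (`P = 2 W`)
`|φ(Y/q_n) T - φ(Y'/q_n) T'| ≤ |Y/q_n - Y'/q_n| + 24 |vl T - vl T'| ≤ 25 dist(u, u')` in the sup metric of `ℝ × cA`. In particular the value depends only on the point `u`.
Choose (McShane, `LipschitzOnWith.extend_real`) `F : ℝ × cA → ℝ`, `LipschitzWith 25 F`, `F (u(Y,T)) = φ(Y/q_n) T - φ(W) ∅` (define the function on the set of grid points with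
`Classical.choose`/`Function.extend`, or `Set.InjOn`; another way: prove `∃ F` from the explicit formula `F z = Finset.inf' (grid) (φ(u) + 25 dist z u) - φ W ∅`).
The base point `(0, cA0)` is `u(W q_n, ∅)` (`vl ∅ = 0`), so `F (0, cA0) = 0` and `F' = fun x a => F (x, a) / 25` is in `LX cA cA0` with `lipB 1`. By `hb`: `|∑ F(s) z s| ≤ 25`.
`|F(s) - F(u(X' s, T' s))| ≤ 25 (|s.1 + W - X' s/q_n| + |s.2 - vl (T' s)|) ≤ 50 a_n`, so `|∑ (φ(X' s/q_n) (T' s) - φ W ∅) z s - ∑ F(s) z s| ≤ 50 a_n ∑ |z s| ≤ 25`.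
-/

set_option autoImplicit false

namespace H46RF

open H50RC H50LP

theorem t_ext (W n : ℕ) (φ : ℝ → Finset ℕ → ℝ)
    (hφ : ∀ i X T, (i, X, T) ∈ ed (2 * W) n → |DD n φ i X T| ≤ 1) :
    ∃ F : ℝ × cA → ℝ, LipschitzWith 25 F ∧ F (0, cA0) = 0 ∧
      ∀ (Y : ℕ) (T : Finset ℕ), Y ≤ 2 * W * qq n → T ⊆ Finset.range n →
        F ((Y : ℝ) / qq n - W, lin T) = φ ((Y : ℝ) / qq n) T - φ W ∅ := by
  classical
  set u : ℕ × Finset ℕ → ℝ × cA := fun g => ((g.1 : ℝ) / qq n - W, lin g.2) with hu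
  set G : Set (ℕ × Finset ℕ) := {g | g.1 ≤ 2 * W * qq n ∧ g.2 ⊆ Finset.range n} with hG
  set v : ℕ × Finset ℕ → ℝ := fun g => φ ((g.1 : ℝ) / qq n) g.2 - φ W ∅ with hv
  have hd : ∀ g ∈ G, ∀ g' ∈ G, |v g - v g'| ≤ 25 * dist (u g) (u g') := by
    intro g hg g' hg'
    have h1 := grid_lip (2 * W) n φ hφ hg.1 hg'.1 hg.2 hg'.2
    have h2 : v g - v g' = φ ((g.1 : ℝ) / qq n) g.2 - φ ((g'.1 : ℝ) / qq n) g'.2 := by
      simp only [hv]
      ring
    have h3 : dist (u g).1 (u g').1 = |(g.1 : ℝ) / qq n - (g'.1 : ℝ) / qq n| := by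
      rw [Real.dist_eq]
      simp only [hu]
      congr 1
      ring
    have h4 : dist (u g).2 (u g').2 = |vl g.2 - vl g'.2| := by
      rw [Subtype.dist_eq, Real.dist_eq]
      rfl
    have h5 : dist (u g).1 (u g').1 ≤ dist (u g) (u g') := by
      rw [Prod.dist_eq]
      exact le_max_left _ _
    have h6 : dist (u g).2 (u g').2 ≤ dist (u g) (u g') := by
      rw [Prod.dist_eq]
      exact le_max_right _ _
    rw [h2]
    rw [h3] at h5
    rw [h4] at h6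
    linarith
  set f0 : ℝ × cA → ℝ := fun p => if h : ∃ g, g ∈ G ∧ u g = p then v h.choose else 0 with hf0
  have hf : ∀ g ∈ G, f0 (u g) = v g := by
    intro g hg
    have h : ∃ g', g' ∈ G ∧ u g' = u g := ⟨g, hg, rfl⟩
    have h1 : f0 (u g) = v h.choose := by
      simp only [hf0]
      rw [dif_pos h]
    obtain ⟨h2, h3⟩ := h.choose_spec
    have h4 := hd _ h2 _ hg
    rw [h3, dist_self, mul_zero] at h4
    have h5 := abs_nonpos_iff.1 h4
    rw [h1]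
    linarith
  have hL : LipschitzOnWith 25 f0 (u '' G) := by
    rw [lipschitzOnWith_iff_dist_le_mul]
    rintro _ ⟨g, hg, rfl⟩ _ ⟨g', hg', rfl⟩
    rw [hf g hg, hf g' hg', Real.dist_eq]
    exact hd g hg g' hg'
  obtain ⟨F, hF1, hF2⟩ := hL.extend_real
  have hF3 : ∀ g ∈ G, F (u g) = v g := fun g hg => by
    rw [← hF2 ⟨g, hg, rfl⟩, hf g hg]
  refine ⟨F, hF1, ?_, fun Y T hY hT => hF3 (Y, T) ⟨hY, hT⟩⟩
  have h0 : (W * qq n, ∅) ∈ G := by
    refine ⟨?_, Finset.empty_subset _⟩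
    show W * qq n ≤ 2 * W * qq n
    exact Nat.mul_le_mul_right _ (by omega)
  have hq := qq_posR n
  have h1 : ((W * qq n : ℕ) : ℝ) / qq n = W := by
    push_cast
    field_simp
  have h2 : u (W * qq n, ∅) = (0, cA0) := by
    simp only [hu]
    rw [h1, sub_self]
    refine Prod.ext rfl (Subtype.ext ?_)
    show vl ∅ = 0
    unfold vl
    simp
  rw [← h2, hF3 _ h0]
  simp only [hv]
  rw [h1, sub_self]

theorem t_bound (S : Finset (ℝ × cA)) (z : ℝ × cA → ℝ)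
    (hb : ∀ f : LX cA cA0, lipB 1 f.1 → |∑ s ∈ S, f.1 s.1 s.2 * z s| ≤ 1)
    (W n : ℕ) (X' : ℝ × cA → ℕ) (T' : ℝ × cA → Finset ℕ)
    (hX : ∀ s ∈ S, X' s ≤ 2 * W * qq n ∧ |s.1 + W - (X' s : ℝ) / qq n| ≤ aa n)
    (hT : ∀ s ∈ S, T' s ⊆ Finset.range n ∧ |(s.2 : ℝ) - vl (T' s)| ≤ aa n)
    (hn : 2 * aa n * ∑ s ∈ S, |z s| ≤ 1) (φ : ℝ → Finset ℕ → ℝ)
    (hφ : ∀ i X T, (i, X, T) ∈ ed (2 * W) n → |DD n φ i X T| ≤ 1) :
    |∑ s ∈ S, (φ ((X' s : ℝ) / qq n) (T' s) - φ W ∅) * z s| ≤ 50 := by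
  obtain ⟨F, hF, h0, hg⟩ := t_ext W n φ hφ
  have hF' : ∀ p p' : ℝ × cA, |F p - F p'| ≤ 25 * dist p p' := by
    intro p p'
    have := (lipschitzWith_iff_dist_le_mul.1 hF) p p'
    rw [Real.dist_eq] at this
    exact this
  have hlip : lipB 1 (fun (x : ℝ) (a : cA) => F (x, a) / 25) := by
    refine ⟨zero_le_one, fun x x' a => ?_, fun x a a' => ?_⟩
    · have h1 := hF' (x, a) (x', a)
      rw [Prod.dist_eq, dist_self, max_eq_left dist_nonneg] at h1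
      rw [Real.dist_eq] at h1
      show |F (x, a) / 25 - F (x', a) / 25| ≤ 1 * |x - x'|
      have h2 : F (x, a) / 25 - F (x', a) / 25 = (F (x, a) - F (x', a)) / 25 := by ring
      rw [h2, abs_div, abs_of_pos (by norm_num : (0 : ℝ) < 25), div_le_iff₀ (by norm_num)]
      linarith
    · have h1 := hF' (x, a) (x, a')
      rw [Prod.dist_eq, dist_self, max_eq_right dist_nonneg] at h1
      rw [Subtype.dist_eq, Real.dist_eq] at h1
      show |F (x, a) / 25 - F (x, a') / 25| ≤ 1 * |(a : ℝ) - a'|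
      have h2 : F (x, a) / 25 - F (x, a') / 25 = (F (x, a) - F (x, a')) / 25 := by ring
      rw [h2, abs_div, abs_of_pos (by norm_num : (0 : ℝ) < 25), div_le_iff₀ (by norm_num)]
      linarith
  have hmem : (fun (x : ℝ) (a : cA) => F (x, a) / 25) ∈ LX cA cA0 := by
    refine ⟨?_, 1, hlip⟩
    show F (0, cA0) / 25 = 0
    rw [h0, zero_div]
  have h1 := hb ⟨_, hmem⟩ hlip
  have h2 : ∑ s ∈ S, F (s.1, s.2) / 25 * z s = (∑ s ∈ S, F s * z s) / 25 := by
    rw [Finset.sum_div]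
    refine Finset.sum_congr rfl fun s _ => ?_
    show F (s.1, s.2) / 25 * z s = F s * z s / 25
    have : (s.1, s.2) = s := rfl
    rw [this]
    ring
  have h3 : |∑ s ∈ S, F s * z s| ≤ 25 := by
    have h4 : |∑ s ∈ S, F (s.1, s.2) / 25 * z s| ≤ 1 := h1
    rw [h2, abs_div, abs_of_pos (by norm_num : (0 : ℝ) < 25), div_le_iff₀ (by norm_num)] at h4
    linarith
  have h5 : ∀ s ∈ S, |(φ ((X' s : ℝ) / qq n) (T' s) - φ W ∅) - F s| ≤ 25 * aa n := by
    intro s hs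
    rw [← hg _ _ (hX s hs).1 (hT s hs).1]
    refine (hF' _ _).trans (mul_le_mul_of_nonneg_left ?_ (by norm_num))
    rw [Prod.dist_eq, Subtype.dist_eq, Real.dist_eq, Real.dist_eq]
    refine max_le ?_ ?_
    · have h6 := (hX s hs).2
      rw [abs_sub_comm]
      have h7 : s.1 - ((X' s : ℝ) / qq n - W) = s.1 + W - (X' s : ℝ) / qq n := by ring
      show |s.1 - ((X' s : ℝ) / qq n - W)| ≤ aa n
      rw [h7]
      exact h6
    · rw [abs_sub_comm]
      exact (hT s hs).2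
  have h6 : ∑ s ∈ S, (φ ((X' s : ℝ) / qq n) (T' s) - φ W ∅) * z s =
      ∑ s ∈ S, F s * z s + ∑ s ∈ S, ((φ ((X' s : ℝ) / qq n) (T' s) - φ W ∅) - F s) * z s := by
    rw [← Finset.sum_add_distrib]
    refine Finset.sum_congr rfl fun s _ => ?_
    ring
  have h7 : |∑ s ∈ S, ((φ ((X' s : ℝ) / qq n) (T' s) - φ W ∅) - F s) * z s| ≤ 25 * aa n * ∑ s ∈ S, |z s| := by
    refine (Finset.abs_sum_le_sum_abs _ _).trans ?_
    rw [Finset.mul_sum]
    refine Finset.sum_le_sum fun s hs => ?_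
    rw [abs_mul]
    exact mul_le_mul_of_nonneg_right (h5 s hs) (abs_nonneg _)
  rw [h6]
  refine (abs_add_le _ _).trans ?_
  nlinarith [h3, h7, hn]

end H46RF
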